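import Pool.Agent.R602.RC.Str

/-!
# Combinatorics of the homogeneous structure
-/

set_option autoImplicit false

namespace Pool.Agent.R602.RC

/-- The pointwise stabilizer of `S` in `T`. -/
def TS (S : Finset ℕ) (τ : Equiv.Perm ℕ) : Prop := τ ∈ T ∧ ∀ s ∈ S, τ s = s

/-- The structure, moved by `g`. -/
noncomputable def cj (g : Equiv.Perm ℕ) (Y : Finset ℕ) : Finset ℕ := (F (Y.image g.symm)).image g

theorem valid_cj (g : Equiv.Perm ℕ) : Valid (cj g) := by
  intro Y
  have hc : (Y.image g.symm).card = Y.card := Finset.card_image_of_injective _ g.symm.injective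
  constructor
  · intro h
    obtain ⟨h1, h2⟩ := (valid_F (Y.image g.symm)).1 (by rwa [hc])
    refine ⟨?_, ?_⟩
    · have h3 := Finset.image_subset_image (f := g) h1
      rwa [symm_image] at h3
    · unfold cj
      rw [Finset.card_image_of_injective _ g.injective, h2]
  · intro h
    unfold cj
    rw [(valid_F _).2 (by rwa [hc]), Finset.image_empty]

theorem cj_image (g : Equiv.Perm ℕ) (Y : Finset ℕ) : cj g (Y.image g) = (F Y).image g := by
  unfold cj
  rw [image_symm]

theorem prim {S : Finset ℕ} {i1 i2 k1 k2 : ℕ} (h1 : i1 ∉ S) (h2 : i2 ∉ S) (h12 : i1 ≠ i2)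
    (hk : k1 ≠ k2) {α β : Equiv.Perm ℕ} (hα : TS S α) (hβ : TS S β) (e1 : α i1 = k1)
    (e2 : β i1 = k2) : ∃ m τ τ', TS S τ ∧ TS S τ' ∧ τ i1 = k1 ∧ τ i2 = m ∧ τ' i1 = k2 ∧
      τ' i2 = m := by
  classical
  obtain ⟨a, ha⟩ := Infinite.exists_notMem_finset (insert k1 (insert k2 S))
  rw [Finset.mem_insert, Finset.mem_insert, not_or, not_or] at ha
  obtain ⟨ha1, ha2, haS⟩ := ha
  -- moved maps
  have mk : ∀ (α : Equiv.Perm ℕ) (k : ℕ), TS S α → α i1 = k → a ≠ k → k ∉ S ∧
      (∀ s ∈ S, (Equiv.swap (α i2) a * α) s = s) ∧ (Equiv.swap (α i2) a * α) i1 = k ∧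
      (Equiv.swap (α i2) a * α) i2 = a ∧
      ∀ y ∈ insert i1 S, (Equiv.swap (α i2) a * α) y = α y := by
    intro α k hα e hak
    have hs : ∀ y, y ∉ S → α y ∉ S := fun y hy h => by
      have h3 := hα.2 _ h
      exact hy ((α.injective h3) ▸ h)
    have key : ∀ y, y ≠ i2 → α y ≠ a → (Equiv.swap (α i2) a * α) y = α y := fun y hy hya =>
      Equiv.swap_apply_of_ne_of_ne (fun h => hy (α.injective h)) hya
    have hsS : ∀ s ∈ S, (Equiv.swap (α i2) a * α) s = α s := fun s hs' =>
      key s (fun h => h2 (h ▸ hs')) (by rw [hα.2 s hs']; exact fun h => haS (h ▸ hs'))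
    have hi1 : (Equiv.swap (α i2) a * α) i1 = α i1 := key i1 h12 (by rw [e]; exact fun h => hak h.symm)
    refine ⟨e ▸ hs i1 h1, fun s hs' => (hsS s hs').trans (hα.2 s hs'), hi1.trans e,
      Equiv.swap_apply_left _ _, fun y hy => ?_⟩
    rcases Finset.mem_insert.1 hy with rfl | hy
    · exact hi1
    · exact hsS y hy
  obtain ⟨hk1, a1, a2, a3, a4⟩ := mk α k1 hα e1 ha1
  obtain ⟨hk2, b1, b2, b3, b4⟩ := mk β k2 hβ e2 ha2
  set α' := Equiv.swap (α i2) a * α with hα'
  set β' := Equiv.swap (β i2) a * β with hβ'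
  let F' : Finset ℕ → Finset ℕ := fun Y => if a ∉ Y then F Y else
    if Y ⊆ insert a (insert k1 S) then cj α' Y else
      if Y ⊆ insert a (insert k2 S) then cj β' Y else F Y
  have hF' : Valid F' := by
    intro Y
    have hc : F' Y = F Y ∨ F' Y = cj α' Y ∨ F' Y = cj β' Y := by
      by_cases c1 : a ∉ Y
      · exact Or.inl (if_pos c1)
      · by_cases c2 : Y ⊆ insert a (insert k1 S)
        · exact Or.inr (Or.inl ((if_neg c1).trans (if_pos c2)))
        · by_cases c3 : Y ⊆ insert a (insert k2 S)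
          · exact Or.inr (Or.inr ((if_neg c1).trans ((if_neg c2).trans (if_pos c3))))
          · exact Or.inl ((if_neg c1).trans ((if_neg c2).trans (if_neg c3)))
    rcases hc with hc | hc | hc
    · rw [hc]
      exact valid_F Y
    · rw [hc]
      exact valid_cj α' Y
    · rw [hc]
      exact valid_cj β' Y
  have hF1 : ∀ Y, a ∉ Y → F' Y = F Y := fun Y h => if_pos h
  obtain ⟨g, hg1, hg2⟩ := emb hF' (S := insert k1 (insert k2 S)) (fun Y hY => hF1 Y fun h => by
    rcases Finset.mem_insert.1 (hY h) with h | h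
    · exact ha1 h
    · rcases Finset.mem_insert.1 h with h | h
      · exact ha2 h
      · exact haS h) {a}
  -- common part
  have hno : ∀ (γ δ : Equiv.Perm ℕ), γ ∈ T → (∀ s ∈ S, δ s = s) → (∀ y ∈ insert i1 S, δ y = γ y) →
      δ i2 = a → ∀ Y ⊆ insert i1 (insert i2 S), i2 ∉ Y → F' (Y.image δ) = (F Y).image δ := by
    intro γ δ hγ hδS hδ hδ2 Y hY hi
    have h3 : Y ⊆ insert i1 S := fun y hy => by
      rcases Finset.mem_insert.1 (hY hy) with h | h
      · exact Finset.mem_insert.2 (Or.inl h)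
      · rcases Finset.mem_insert.1 h with h | h
        · exact absurd (h ▸ hy) hi
        · exact Finset.mem_insert_of_mem h
    have h4 : a ∉ Y.image δ := by
      intro h
      obtain ⟨y, hy, e⟩ := Finset.mem_image.1 h
      rw [← hδ2] at e
      exact hi ((δ.injective e) ▸ hy)
    have h5 : Y.image δ = Y.image γ := Finset.image_congr fun y hy => hδ y (h3 (Finset.mem_coe.1 hy))
    have h6 : (F Y).image δ = (F Y).image γ := Finset.image_congr fun y hy =>
      hδ y (h3 (valid_F.sub Y (Finset.mem_coe.1 hy)))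
    rw [hF1 _ h4, h5, h6]
    exact hγ Y
  have hsubk : ∀ (δ : Equiv.Perm ℕ) (k : ℕ), (∀ s ∈ S, δ s = s) → δ i1 = k → δ i2 = a →
      ∀ Y ⊆ insert i1 (insert i2 S), Y.image δ ⊆ insert a (insert k S) := by
    intro δ k hδ e1 e2 Y hY x hx
    obtain ⟨y, hy, rfl⟩ := Finset.mem_image.1 hx
    rcases Finset.mem_insert.1 (hY hy) with h | h
    · rw [h, e1]
      exact Finset.mem_insert_of_mem (Finset.mem_insert_self _ _)
    · rcases Finset.mem_insert.1 h with h | h
      · rw [h, e2]
        exact Finset.mem_insert_self _ _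
      · rw [hδ y h]
        exact Finset.mem_insert_of_mem (Finset.mem_insert_of_mem h)
  have hsubg : ∀ Y, (Y ⊆ insert a (insert k1 S) ∨ Y ⊆ insert a (insert k2 S)) →
      Y ⊆ insert k1 (insert k2 S) ∪ {a} := by
    intro Y hY y hy
    simp only [Finset.mem_union, Finset.mem_insert, Finset.mem_singleton]
    rcases hY with hY | hY
    · have := hY hy
      simp only [Finset.mem_insert] at this
      tauto
    · have := hY hy
      simp only [Finset.mem_insert] at this
      tauto
  have hPα : PI (g * α') (insert i1 (insert i2 S)) := by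
    intro Y hY
    have h3 := hsubk α' k1 a1 a2 a3 Y hY
    rw [image_mul g α' Y, hg2 _ (hsubg _ (Or.inl h3)), image_mul g α' (F Y)]
    congr 1
    by_cases hi : i2 ∈ Y
    · have h4 : a ∈ Y.image α' := Finset.mem_image.2 ⟨i2, hi, a3⟩
      change (if a ∉ Y.image α' then _ else if Y.image α' ⊆ _ then _ else _) = _
      rw [if_neg (not_not.2 h4), if_pos h3, cj_image]
    · exact hno α α' hα.1 a1 a4 a3 Y hY hi
  have hPβ : PI (g * β') (insert i1 (insert i2 S)) := by
    intro Y hY
    have h3 := hsubk β' k2 b1 b2 b3 Y hY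
    rw [image_mul g β' Y, hg2 _ (hsubg _ (Or.inr h3)), image_mul g β' (F Y)]
    congr 1
    by_cases hi : i2 ∈ Y
    · have h4 : a ∈ Y.image β' := Finset.mem_image.2 ⟨i2, hi, b3⟩
      change (if a ∉ Y.image β' then _ else if Y.image β' ⊆ _ then _ else if Y.image β' ⊆ _ then _
        else _) = _
      rw [if_neg (not_not.2 h4)]
      by_cases h5 : Y.image β' ⊆ insert a (insert k1 S)
      · rw [if_pos h5]
        have h6 : i1 ∉ Y := by
          intro h
          have h7 := h5 (Finset.mem_image.2 ⟨i1, h, b2⟩)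
          rcases Finset.mem_insert.1 h7 with h | h
          · exact ha2 h.symm
          · rcases Finset.mem_insert.1 h with h | h
            · exact hk h.symm
            · exact hk2 h
        have h8 : ∀ y ∈ Y, β' y = α' y := by
          intro y hy
          rcases Finset.mem_insert.1 (hY hy) with h | h
          · exact absurd (h ▸ hy) h6
          · rcases Finset.mem_insert.1 h with h | h
            · rw [h, a3, b3]
            · rw [a1 y h, b1 y h]
        have h9 : Y.image β' = Y.image α' :=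
          Finset.image_congr fun y hy => h8 y (Finset.mem_coe.1 hy)
        have h10 : (F Y).image β' = (F Y).image α' :=
          Finset.image_congr fun y hy => h8 y (valid_F.sub Y (Finset.mem_coe.1 hy))
        rw [h9, h10, cj_image]
      · rw [if_neg h5, if_pos h3, cj_image]
    · exact hno β β' hβ.1 b1 b4 b3 Y hY hi
  obtain ⟨τ, hτ1, hτ2⟩ := hom hPα
  obtain ⟨τ', hτ'1, hτ'2⟩ := hom hPβ
  have hgS : ∀ s ∈ S, g s = s := fun s hs =>
    hg1 s (Finset.mem_insert_of_mem (Finset.mem_insert_of_mem hs))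
  have hm1 : i1 ∈ insert i1 (insert i2 S) := Finset.mem_insert_self _ _
  have hm2 : i2 ∈ insert i1 (insert i2 S) := Finset.mem_insert_of_mem (Finset.mem_insert_self _ _)
  have hmS : ∀ s ∈ S, s ∈ insert i1 (insert i2 S) := fun s hs =>
    Finset.mem_insert_of_mem (Finset.mem_insert_of_mem hs)
  refine ⟨g a, τ, τ', ⟨hτ1, fun s hs => ?_⟩, ⟨hτ'1, fun s hs => ?_⟩, ?_, ?_, ?_, ?_⟩
  · rw [hτ2 s (hmS s hs)]
    change g (α' s) = s
    rw [a1 s hs, hgS s hs]
  · rw [hτ'2 s (hmS s hs)]
    change g (β' s) = s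
    rw [b1 s hs, hgS s hs]
  · rw [hτ2 _ hm1]
    change g (α' i1) = k1
    rw [a2, hg1 k1 (Finset.mem_insert_self _ _)]
  · rw [hτ2 _ hm2]
    change g (α' i2) = g a
    rw [a3]
  · rw [hτ'2 _ hm1]
    change g (β' i1) = k2
    rw [b2, hg1 k2 (Finset.mem_insert_of_mem (Finset.mem_insert_self _ _))]
  · rw [hτ'2 _ hm2]
    change g (β' i2) = g a
    rw [b3]

end Pool.Agent.R602.RC
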