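import Pool.Agent.W868.Defs

/-!
# Choice principles on infinite subsets in a model of set theory: definitions

Everything is evaluated in a transitive model `M` of ZF. Functions are sets of ordered pairs.
-/

set_option autoImplicit false

namespace Pool.Agent.R602.RC

open Pool.Agent.W868
open ZFSet (pair)

/-- In `M`, the set `z` has exactly `m` elements: there is a bijection of `M` from `z` to `m`. -/
def CardIn (M : Set ZFSet.{0}) (z : ZFSet.{0}) (m : ℕ) : Prop := ∃ f ∈ M, IsBij z (nat m) f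

/-- In `M`, the set `z` is finite. -/
def FinIn (M : Set ZFSet.{0}) (z : ZFSet.{0}) : Prop := ∃ m, CardIn M z m

/-- The principle `RC m` holds in `M`: each infinite set `x` has an infinite subset `y` and a
function `f` with `f z ∈ z` for all subsets `z` of `y` with `m` elements. -/
def RCm (M : Set ZFSet.{0}) (m : ℕ) : Prop :=
  ∀ x ∈ M, ¬ FinIn M x → ∃ y ∈ M, y ⊆ x ∧ ¬ FinIn M y ∧ ∃ f ∈ M,
    ∀ z ∈ M, z ⊆ y → CardIn M z m → ∃ v ∈ z, ∀ w, pair z w ∈ f ↔ w = v

/-- The principle `n RC fin` holds in `M`: each infinite set `x` has an infinite subset `y` and a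
function `f` such that `f z` is a subset of `z` with `n` elements for all finite subsets `z` of `y`
with more than `n` elements. -/
def RCfin (M : Set ZFSet.{0}) (n : ℕ) : Prop :=
  ∀ x ∈ M, ¬ FinIn M x → ∃ y ∈ M, y ⊆ x ∧ ¬ FinIn M y ∧ ∃ f ∈ M,
    ∀ z ∈ M, z ⊆ y → (∃ m, n < m ∧ CardIn M z m) →
      ∃ u ∈ M, u ⊆ z ∧ CardIn M u n ∧ ∀ w, pair z w ∈ f ↔ w = u

end Pool.Agent.R602.RC
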