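import Pool.Agent.R602.RC.LemB

/-!
# Linear orders
-/

set_option autoImplicit false
set_option linter.unreachableTactic false
set_option linter.unusedTactic false
set_option linter.unusedSectionVars false
set_option linter.unusedVariables false

namespace Pool.Agent.R602.RC

open Pool.Agent.W868 Pool.Agent.W868.PName Pool.Agent.R598.SY
open ZFSet (pair)

/-! ### The first eight elements -/

/-- There is a chain of `k` elements of `z` below `v`. -/
def Cc (L : ZFSet.{0}) : ℕ → ZFSet.{0} → ZFSet.{0} → Prop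
  | 0, _, _ => True
  | k + 1, z, v => ∃ w ∈ z, pair w v ∈ L ∧ Cc L k z w

theorem dfn_Cc {M : Set ZFSet.{0}} (hM : IsZF M) {L : ZFSet.{0}} (hL : L ∈ M) (k : ℕ) :
    Dfn M M fun w : Fin 2 → ZFSet.{0} => Cc L k (w 0) (w 1) := by
  have hB := hM.base
  have hom := hM.infinity
  induction k with
  | zero =>
    have h : Dfn M M fun w : Fin 2 → ZFSet.{0} => w 0 = w 0 := (by
        (repeat' first
          | assumption
          | exact DfnF.proj _
          | exact DfnF.const (by assumption)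
          | apply hB.isFunc' | apply hB.isBij'
          | apply Dfn.iff | apply Dfn.not | apply Dfn.and | apply Dfn.or | apply Dfn.imp
          | apply hB.bex | apply hB.ball | apply hB.subset'
          | apply Dfn.ex | apply Dfn.all | apply Dfn.eq | apply Dfn.mem | apply hB.pair'
          | apply hB.single'))
    exact h.congr fun v _ => ⟨fun _ => trivial, fun _ => rfl⟩
  | succ k ih =>
    change Dfn M M fun w : Fin 2 → ZFSet.{0} => ∃ x ∈ w 0, pair x (w 1) ∈ L ∧ Cc L k (w 0) x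
    apply hB.bex
    · exact DfnF.proj _
    · apply Dfn.and
      · exact (by
          (repeat' first
            | assumption
            | exact DfnF.proj _
            | exact DfnF.const (by assumption)
            | apply hB.isFunc' | apply hB.isBij'
            | apply Dfn.iff | apply Dfn.not | apply Dfn.and | apply Dfn.or | apply Dfn.imp
            | apply hB.bex | apply hB.ball | apply hB.subset'
            | apply Dfn.ex | apply Dfn.all | apply Dfn.eq | apply Dfn.mem | apply hB.pair'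
            | apply hB.single'))
      · exact Dfn.comp2 (Q := Cc L k) ih (DfnF.proj _) (DfnF.proj _)

/-- The type of the elements. -/
@[ext] structure Wr (s : Finset ZFSet.{0}) : Type 1 where
  /-- The element. -/
  val : ZFSet.{0}
  /-- It belongs to the set. -/
  prop : val ∈ s

/-- The obvious equivalence. -/
def wrE (s : Finset ZFSet.{0}) : {v // v ∈ s} ≃ Wr s :=
  ⟨fun v => ⟨v.1, v.2⟩, fun v => ⟨v.1, v.2⟩, fun _ => rfl, fun _ => rfl⟩

instance (s : Finset ZFSet.{0}) : Fintype (Wr s) := Fintype.ofEquiv _ (wrE s)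

theorem card_Wr (s : Finset ZFSet.{0}) : Fintype.card (Wr s) = s.card := by
  rw [← Fintype.card_congr (wrE s), Fintype.card_coe]

theorem exists_first {L y z : ZFSet.{0}} (hL : IsLin L y) {s : Finset ZFSet.{0}}
    (hs : ∀ w, w ∈ z ↔ w ∈ s) (hsy : ∀ w ∈ s, w ∈ y) (h8 : 8 < s.card) :
    ∃ t ⊆ s, t.card = 8 ∧ ∀ v ∈ s, v ∈ t ↔ ¬ Cc L 8 z v := by
  classical
  let lt : Wr s → Wr s → Prop := fun a b => pair a.val b.val ∈ L
  have : Std.Irrefl lt := ⟨fun a => hL.1 _ (hsy _ a.prop)⟩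
  have : IsTrans (Wr s) lt := ⟨fun a b c h1 h2 =>
    hL.2.1 _ (hsy _ a.prop) _ (hsy _ b.prop) _ (hsy _ c.prop) h1 h2⟩
  have : Std.Trichotomous lt := ⟨fun a b h1 h2 => by
    by_contra hne
    rcases hL.2.2 _ (hsy _ a.prop) _ (hsy _ b.prop) (fun h => hne (Wr.ext h)) with h3 | h3
    · exact h1 h3
    · exact h2 h3⟩
  have : IsStrictOrder (Wr s) lt := {}
  have : IsStrictTotalOrder (Wr s) lt := {}
  let _ : LinearOrder (Wr s) := linearOrderOfSTO lt
  have hlt : ∀ a b : Wr s, a < b ↔ pair a.val b.val ∈ L := fun a b => Iff.rfl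
  obtain e := Fintype.orderIsoFinOfCardEq (Wr s) (card_Wr s)
  have hC : ∀ k, ∀ v : Wr s, Cc L k z v.val ↔ k ≤ (e.symm v).1 := by
    intro k
    induction k with
    | zero => exact fun v => ⟨fun _ => Nat.zero_le _, fun _ => trivial⟩
    | succ k ih =>
      intro v
      constructor
      · rintro ⟨w, hw, h1, h2⟩
        have h3 := (ih ⟨w, (hs w).1 hw⟩).1 h2
        have h4 : (⟨w, (hs w).1 hw⟩ : Wr s) < v := (hlt _ _).2 h1
        have h5 : e.symm ⟨w, (hs w).1 hw⟩ < e.symm v := e.symm.lt_iff_lt.2 h4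
        have h6 : (e.symm ⟨w, (hs w).1 hw⟩).1 < (e.symm v).1 := h5
        omega
      · intro h1
        have h2 := (e.symm v).2
        have h3 : k < s.card := by omega
        refine ⟨(e ⟨k, h3⟩).val, (hs _).2 (e ⟨k, h3⟩).prop, (hlt _ _).1 ?_, (ih (e ⟨k, h3⟩)).2 ?_⟩
        · rw [← e.symm.lt_iff_lt, OrderIso.symm_apply_apply]
          exact h1
        · rw [OrderIso.symm_apply_apply]
  refine ⟨(Finset.univ : Finset (Fin 8)).image fun k => (e (Fin.castLE h8.le k)).val, ?_, ?_, ?_⟩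
  · intro w hw
    obtain ⟨k, -, rfl⟩ := Finset.mem_image.1 hw
    exact (e _).prop
  · rw [Finset.card_image_of_injective, Finset.card_univ, Fintype.card_fin]
    intro a b hab
    have h1 := e.injective (Wr.ext hab)
    exact Fin.castLE_injective _ h1
  · intro v hv
    have h1 := hC 8 ⟨v, hv⟩
    rw [h1, not_le, Finset.mem_image]
    constructor
    · rintro ⟨k, -, hk⟩
      have h2 : e.symm ⟨v, hv⟩ = Fin.castLE h8.le k := by
        rw [OrderIso.symm_apply_eq]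
        exact Wr.ext hk.symm
      rw [h2]
      exact k.2
    · intro h2
      refine ⟨⟨(e.symm ⟨v, hv⟩).1, h2⟩, Finset.mem_univ _, ?_⟩
      have h3 : Fin.castLE h8.le ⟨(e.symm ⟨v, hv⟩).1, h2⟩ = e.symm ⟨v, hv⟩ := Fin.ext rfl
      rw [h3, OrderIso.apply_symm_apply]

theorem lin_cho {M : Set ZFSet.{0}} (hM : IsZF M) {L y : ZFSet.{0}} (hL : L ∈ M) (hy : y ∈ M)
    (h : IsLin L y) : ∃ f ∈ M, Cho M y f := by
  classical
  have hB := hM.base
  have hom := hM.infinity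
  obtain ⟨Py, hPy, hPy'⟩ := hM.power y hy
  have h1 : Dfn M M fun w : Fin 2 → ZFSet.{0} => ∀ v ∈ y, v ∈ w 1 ↔ v ∈ w 0 ∧ ¬ Cc L 8 (w 0) v := by
    apply hB.ball
    · exact DfnF.const (by assumption)
    · apply Dfn.iff
      · exact (by
          (repeat' first
            | assumption
            | exact DfnF.proj _
            | exact DfnF.const (by assumption)
            | apply hB.isFunc' | apply hB.isBij'
            | apply Dfn.iff | apply Dfn.not | apply Dfn.and | apply Dfn.or | apply Dfn.imp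
            | apply hB.bex | apply hB.ball | apply hB.subset'
            | apply Dfn.ex | apply Dfn.all | apply Dfn.eq | apply Dfn.mem | apply hB.pair'
            | apply hB.single'))
      · apply Dfn.and
        · exact (by
            (repeat' first
              | assumption
              | exact DfnF.proj _
              | exact DfnF.const (by assumption)
              | apply hB.isFunc' | apply hB.isBij'
              | apply Dfn.iff | apply Dfn.not | apply Dfn.and | apply Dfn.or | apply Dfn.imp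
              | apply hB.bex | apply hB.ball | apply hB.subset'
              | apply Dfn.ex | apply Dfn.all | apply Dfn.eq | apply Dfn.mem | apply hB.pair'
              | apply hB.single'))
        · apply Dfn.not
          exact Dfn.comp2 (Q := Cc L 8) (dfn_Cc hM hL 8) (DfnF.proj _) (DfnF.proj _)
  obtain ⟨f, hf, -, hf'⟩ := hM.rel_mem hPy hPy
    (Q := fun z u => ∀ v ∈ y, v ∈ u ↔ v ∈ z ∧ ¬ Cc L 8 z v) h1
  refine ⟨f, hf, fun z hz s hs hsy h8 => ?_⟩
  obtain ⟨t, ht, ht8, ht'⟩ := exists_first h hs hsy h8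
  have h2 : Dfn M M fun w : Fin 1 → ZFSet.{0} => ¬ Cc L 8 z (w 0) := by
    apply Dfn.not
    exact Dfn.comp2 (Q := Cc L 8) (dfn_Cc hM hL 8) (DfnF.const (by assumption)) (DfnF.proj _)
  obtain ⟨u, hu, hu'⟩ : ∃ u ∈ M, ∀ w, w ∈ u ↔ w ∈ z ∧ ¬ Cc L 8 z w :=
    ⟨_, hM.sep_mem (Q := fun w => ¬ Cc L 8 z w) h2 hz, fun w => ZFSet.mem_sep⟩
  have hut : ∀ w, w ∈ u ↔ w ∈ t := by
    intro w
    rw [hu', hs]
    constructor
    · rintro ⟨h3, h4⟩
      exact (ht' w h3).2 h4
    · intro h3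
      exact ⟨ht h3, (ht' w (ht h3)).1 h3⟩
  refine ⟨u, hu, t, ht, ht8, hut, fun w => ?_⟩
  rw [hf']
  constructor
  · rintro ⟨-, h4, h5⟩
    have h6 := (hPy' _).1 h4
    ext v
    constructor
    · intro hv
      obtain ⟨h7, h8'⟩ := (h5 v (h6.2 hv)).1 hv
      exact (hu' v).2 ⟨h7, h8'⟩
    · intro hv
      obtain ⟨h7, h8'⟩ := (hu' v).1 hv
      exact (h5 v (hsy v ((hs v).1 h7))).2 ⟨h7, h8'⟩
  · rintro rfl
    refine ⟨(hPy' _).2 ⟨hz, fun v hv => hsy v ((hs v).1 hv)⟩,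
      (hPy' _).2 ⟨hu, fun v hv => hsy v (ht ((hut v).1 hv))⟩, fun v _ => hu' v⟩

/-! ### Sets of sets with the same support -/

open Classical in
theorem oN_spec (c : PName P) (k : c.idx) (p : P) : ∃ j, c.chd j = c.chd k ∧
    oN c (c.chd k) p = (Ordinal.typein (WellOrderingRel (α := c.idx × P)) (j, p)).toZFSet := by
  have h : ∃ j, c.chd j = c.chd k := ⟨k, rfl⟩
  refine ⟨h.choose, h.choose_spec, ?_⟩
  unfold oN
  rw [dif_pos h]

section

variable {π : Pkg P} {r : X} (h : Good π r)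

include h

theorem exists_lin {S : Finset ℕ} {E : Finset K} {X0 : ZFSet.{0}} (hX : X0 ∈ sys.Ms π)
    (hsub : ∀ u ∈ X0, u ∈ Nsp π S E) : ∃ L ∈ sys.Ms π, IsLin L X0 := by
  classical
  have hM := isZF h
  obtain ⟨c, ⟨hc, hcs⟩, hcX⟩ := hX
  have hX : X0 ∈ sys.Ms π := ⟨c, ⟨hc, hcs⟩, hcX⟩
  obtain ⟨Φ, hΦ⟩ : ∃ Φ, Φ = π.val (eN S E c) := ⟨_, rfl⟩
  have hΦM : Φ ∈ sys.Ms π := by
    rw [hΦ]
    exact ⟨_, ⟨h.fen c hc S E, hs_eN S E c⟩, rfl⟩
  have hmem : ∀ w, w ∈ Φ ↔ ∃ (k : c.idx) (p : P), pN S E c (c.chd k) p ∈ π.N ∧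
      w = π.val (pN S E c (c.chd k) p) := by
    intro w
    rw [hΦ, π.mem_val]
    constructor
    · rintro ⟨y, hy, d, hd, -, rfl⟩
      obtain ⟨t, -, rfl⟩ := el_fN.1 hd
      exact ⟨t.1, t.2, hy, rfl⟩
    · rintro ⟨k, p, h1, rfl⟩
      exact ⟨_, h1, ⊤, el_fN.2 ⟨(k, p), Set.subset_univ _, rfl⟩, ⟨0, le_top⟩, rfl⟩
  have hpn : ∀ k p, pN S E c (c.chd k) p ∈ π.N → π.val (pN S E c (c.chd k) p) =
      pair (π.hat (oN c (c.chd k) p)) (π.val (inv S E (c.chd k) p)) := fun k p h1 =>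
    π.val_opN (π.fst_mem h1) (π.snd_mem h1)
  obtain ⟨Q, hQ⟩ : ∃ Q : ZFSet.{0} → Ordinal.{0} → Prop, Q = fun u o =>
      o.toZFSet ∈ π.Z ∧ pair (π.hat o.toZFSet) u ∈ Φ := ⟨_, rfl⟩
  have ha : ∀ α u, pair α u ∈ Φ → ∃ o, α = π.hat o.toZFSet ∧ Q u o := by
    intro α u h1
    obtain ⟨k, p, h2, h3⟩ := (hmem _).1 h1
    rw [hpn k p h2] at h3
    obtain ⟨j, -, hj⟩ := oN_spec c k p
    obtain ⟨e1, e2⟩ := ZFSet.pair_inj.1 h3
    have h4 : oN c (c.chd k) p ∈ π.Z := π.fst_mem h2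
    rw [hj] at h4 e1
    refine ⟨_, e1, ?_⟩
    rw [hQ]
    refine ⟨h4, ?_⟩
    rw [← e1]
    exact h1
  have hd : ∀ u u' o, Q u o → Q u' o → u = u' := by
    intro u u' o h1 h2
    rw [hQ] at h1 h2
    obtain ⟨hZ, h1⟩ := h1
    obtain ⟨-, h2⟩ := h2
    obtain ⟨k, p, a1, a2⟩ := (hmem _).1 h1
    obtain ⟨k', p', b1, b2⟩ := (hmem _).1 h2
    rw [hpn k p a1] at a2
    rw [hpn k' p' b1] at b2
    obtain ⟨j, hj, hj'⟩ := oN_spec c k p
    obtain ⟨i, hi, hi'⟩ := oN_spec c k' p'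
    obtain ⟨e1, e2⟩ := ZFSet.pair_inj.1 a2
    obtain ⟨e3, e4⟩ := ZFSet.pair_inj.1 b2
    have c1 : oN c (c.chd k) p ∈ π.Z := π.fst_mem a1
    have c2 : oN c (c.chd k') p' ∈ π.Z := π.fst_mem b1
    have e5 := (π.hat_inj hZ c1).1 e1
    have e6 := (π.hat_inj hZ c2).1 e3
    rw [e5, hj', hi'] at e6
    have e7 := Ordinal.typein_injective _ (Ordinal.toZFSet_injective e6)
    obtain ⟨e8, e9⟩ := Prod.mk.inj e7
    rw [e2, e4, ← hj, ← hi, e8, e9]
  have hex : ∀ u ∈ X0, ∃ o, Q u o := by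
    intro u hu
    obtain ⟨σ, s1, s2, s3, s4⟩ := hsub u hu
    rw [← hcX] at hu
    obtain ⟨y, hy, d, ⟨k, rfl, rfl⟩, -, rfl⟩ := π.mem_val.1 hu
    obtain ⟨n, hn⟩ := (π.val_eq_iff hy s1).1 s4.symm
    have h1 := inv_spec (S := S) (E := E) ⟨σ, s2, s3, hn⟩
    have h2 : pN S E c (c.chd k) (π.g n) ∈ π.N := h.fpn c hc _ hy S E n
    have h3 := hpn k _ h2
    have h4 : π.val (inv S E (c.chd k) (π.g n)) = π.val (c.chd k) :=
      ((π.val_eq_iff hy (π.snd_mem h2)).2 ⟨n, h1⟩).symm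
    rw [h4] at h3
    obtain ⟨o, -, ho⟩ := ha _ _ ((hmem _).2 ⟨k, _, h2, h3.symm⟩)
    exact ⟨o, ho⟩
  have hB := hM.base
  have hom := hM.infinity
  have h1 : Dfn (sys.Ms π) (sys.Ms π) fun w : Fin 2 → ZFSet.{0} => ∃ α ∈ sys.Ms π,
      pair α (w 0) ∈ Φ ∧ ∀ β ∈ sys.Ms π, pair β (w 1) ∈ Φ → α ∈ β := (by
          (repeat' first
            | assumption
            | exact DfnF.proj _
            | exact DfnF.const (by assumption)
            | apply hB.isFunc' | apply hB.isBij'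
            | apply Dfn.iff | apply Dfn.not | apply Dfn.and | apply Dfn.or | apply Dfn.imp
            | apply hB.bex | apply hB.ball | apply hB.subset'
            | apply Dfn.ex | apply Dfn.all | apply Dfn.eq | apply Dfn.mem | apply hB.pair'
            | apply hB.single'))
  obtain ⟨L, hL, -, hL'⟩ := hM.rel_mem hX hX (Q := fun u u' => ∃ α ∈ sys.Ms π,
    pair α u ∈ Φ ∧ ∀ β ∈ sys.Ms π, pair β u' ∈ Φ → α ∈ β) h1
  obtain ⟨m, hm⟩ : ∃ m : ZFSet.{0} → Ordinal.{0}, ∀ u, m u = sInf {o | Q u o} :=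
    ⟨fun u => sInf {o | Q u o}, fun _ => rfl⟩
  have hm1 : ∀ u ∈ X0, Q u (m u) := fun u hu => by
    rw [hm]
    exact csInf_mem (hex u hu)
  have hm2 : ∀ u o, Q u o → m u ≤ o := fun u o ho => by
    rw [hm]
    exact csInf_le' ho
  have hQZ : ∀ u o, Q u o → o.toZFSet ∈ π.Z := fun u o ho => by
    rw [hQ] at ho
    exact ho.1
  have hQΦ : ∀ u o, Q u o → pair (π.hat o.toZFSet) u ∈ Φ := fun u o ho => by
    rw [hQ] at ho
    exact ho.2
  have hat_M : ∀ x ∈ π.Z, π.hat x ∈ sys.Ms π := fun x hx => ⟨_, ⟨hx, sys.hs_check _⟩, rfl⟩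
  have key : ∀ u ∈ X0, ∀ u' ∈ X0, pair u u' ∈ L ↔ m u < m u' := by
    intro u hu u' hu'
    rw [hL']
    constructor
    · rintro ⟨-, -, α, hα, h2, h3⟩
      obtain ⟨o, rfl, ho⟩ := ha _ _ h2
      have h4 := h3 _ (hat_M _ (hQZ _ _ (hm1 u' hu'))) (hQΦ _ _ (hm1 u' hu'))
      rw [π.hat_mem_hat (hQZ _ _ ho) (hQZ _ _ (hm1 u' hu')),
        Ordinal.toZFSet_mem_toZFSet_iff] at h4
      exact (hm2 u o ho).trans_lt h4
    · intro h2
      refine ⟨hu, hu', _, hat_M _ (hQZ _ _ (hm1 u hu)), hQΦ _ _ (hm1 u hu), fun β _ hβ => ?_⟩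
      obtain ⟨o, rfl, ho⟩ := ha _ _ hβ
      rw [π.hat_mem_hat (hQZ _ _ (hm1 u hu)) (hQZ _ _ ho), Ordinal.toZFSet_mem_toZFSet_iff]
      exact h2.trans_le (hm2 u' o ho)
  refine ⟨L, hL, fun u hu => ?_, fun u hu v hv w hw h2 h3 => ?_, fun u hu v hv hne => ?_⟩
  · rw [key u hu u hu]
    exact lt_irrefl _
  · rw [key u hu v hv] at h2
    rw [key v hv w hw] at h3
    rw [key u hu w hw]
    exact h2.trans h3
  · rw [key u hu v hv, key v hv u hu]
    refine lt_or_gt_of_ne fun he => hne ?_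
    have h2 := hm1 u hu
    rw [he] at h2
    exact hd u v _ h2 (hm1 v hv)

end

end Pool.Agent.R602.RC
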