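import Pool.Agent.R602.RC.Defs
import Pool.Agent.R602.RC.Lin

/-!
# The principles in the model
-/

set_option autoImplicit false
set_option linter.unusedSectionVars false
set_option linter.unusedVariables false

namespace Pool.Agent.R602.RC

open Pool.Agent.W868 Pool.Agent.W868.PName Pool.Agent.R598.SY
open ZFSet (pair)

/-! ### Finite sets -/

theorem isBij_insert {Y f a : ZFSet.{0}} {n : ℕ} (h : IsBij Y (nat n) f) (ha : a ∉ Y) :
    IsBij (insert a Y) (nat (n + 1)) (insert (pair a (nat n)) f) := by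
  obtain ⟨⟨⟨h1, h2⟩, h3⟩, h4⟩ := h
  have hn : nat n ∉ nat n := ZFSet.mem_irrefl _
  have hin : ∀ x y, pair x y ∈ f → x ∈ Y ∧ y ∈ nat n := fun x y hxy => ZFSet.pair_mem_prod.1 (h1 hxy)
  have hmem : ∀ x y, pair x y ∈ insert (pair a (nat n)) f ↔ (x = a ∧ y = nat n) ∨ pair x y ∈ f := by
    intro x y
    rw [ZFSet.mem_insert_iff, ZFSet.pair_inj]
  refine ⟨⟨⟨?_, ?_⟩, ?_⟩, ?_⟩
  · intro z hz
    rcases ZFSet.mem_insert_iff.1 hz with rfl | hz
    · exact ZFSet.pair_mem_prod.2 ⟨ZFSet.mem_insert_iff.2 (Or.inl rfl),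
        ZFSet.mem_insert_iff.2 (Or.inl rfl)⟩
    · obtain ⟨x, hx, y, hy, rfl⟩ := ZFSet.mem_prod.1 (h1 hz)
      exact ZFSet.pair_mem_prod.2 ⟨ZFSet.mem_insert_iff.2 (Or.inr hx),
        ZFSet.mem_insert_iff.2 (Or.inr hy)⟩
  · intro z hz
    rcases ZFSet.mem_insert_iff.1 hz with rfl | hz
    · refine ⟨nat n, (hmem _ _).2 (Or.inl ⟨rfl, rfl⟩), fun w hw => ?_⟩
      rcases (hmem _ _).1 hw with ⟨-, h⟩ | h
      · exact h
      · exact absurd (hin _ _ h).1 ha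
    · obtain ⟨w, hw, hu⟩ := h2 z hz
      refine ⟨w, (hmem _ _).2 (Or.inr hw), fun w' hw' => ?_⟩
      rcases (hmem _ _).1 hw' with ⟨h, -⟩ | h
      · exact absurd hz (h ▸ ha)
      · exact hu w' h
  · intro x y c hx hy
    rcases (hmem _ _).1 hx with ⟨hxa, hc⟩ | hx' <;> rcases (hmem _ _).1 hy with ⟨hya, hc'⟩ | hy'
    · exact hxa.trans hya.symm
    · exact absurd (hc ▸ (hin _ _ hy').2) hn
    · exact absurd (hc' ▸ (hin _ _ hx').2) hn
    · exact h3 x y c hx' hy'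
  · intro b hb
    rcases ZFSet.mem_insert_iff.1 hb with rfl | hb
    · exact ⟨a, ZFSet.mem_insert_iff.2 (Or.inl rfl), (hmem _ _).2 (Or.inl ⟨rfl, rfl⟩)⟩
    · obtain ⟨x, hx, hxb⟩ := h4 b hb
      exact ⟨x, ZFSet.mem_insert_iff.2 (Or.inr hx), (hmem _ _).2 (Or.inr hxb)⟩

theorem cardIn_of {M : Set ZFSet.{0}} (hM : IsZF M) (s : Finset ZFSet.{0}) :
    (∀ z ∈ s, z ∈ M) → ∃ Y ∈ M, (∀ z, z ∈ Y ↔ z ∈ s) ∧ CardIn M Y s.card := by
  classical
  induction s using Finset.induction_on with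
  | empty =>
    intro _
    refine ⟨∅, hM.empty_mem, fun z => ?_, ∅, hM.empty_mem, ⟨⟨?_, ?_⟩, ?_⟩, ?_⟩
    · exact ⟨fun h => absurd h (ZFSet.notMem_empty _), fun h => absurd h (Finset.notMem_empty _)⟩
    · intro z hz
      exact absurd hz (ZFSet.notMem_empty _)
    · intro z hz
      exact absurd hz (ZFSet.notMem_empty _)
    · intro x y c hx
      exact absurd hx (ZFSet.notMem_empty _)
    · intro b hb
      exact absurd hb (ZFSet.notMem_empty _)
  | insert a s ha ih =>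
    intro hz
    obtain ⟨Y, hY, h1, f, hf, h2⟩ := ih fun z hz' => hz z (Finset.mem_insert_of_mem hz')
    have haM : a ∈ M := hz a (Finset.mem_insert_self _ _)
    refine ⟨insert a Y, hM.insert_mem haM hY, fun z => ?_, ?_⟩
    · rw [ZFSet.mem_insert_iff, h1, Finset.mem_insert]
    · rw [Finset.card_insert_of_notMem ha]
      exact ⟨insert (pair a (nat s.card)) f, hM.insert_mem (hM.pair_mem haM (hM.nat_mem _)) hf,
        isBij_insert h2 (by rw [h1]; exact ha)⟩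

theorem mem_nat' {m : ℕ} {z : ZFSet.{0}} : z ∈ nat m ↔ ∃ k < m, z = nat k := by
  induction m with
  | zero =>
    constructor
    · intro hz
      exact absurd hz (ZFSet.notMem_empty _)
    · rintro ⟨k, hk, -⟩
      omega
  | succ m ih =>
    change z ∈ insert (nat m) (nat m) ↔ _
    rw [ZFSet.mem_insert_iff, ih]
    constructor
    · rintro (rfl | ⟨k, hk, rfl⟩)
      · exact ⟨m, Nat.lt_succ_self _, rfl⟩
      · exact ⟨k, by omega, rfl⟩
    · rintro ⟨k, hk, rfl⟩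
      rcases Nat.lt_succ_iff_lt_or_eq.1 hk with h | rfl
      · exact Or.inr ⟨k, h, rfl⟩
      · exact Or.inl rfl

theorem of_cardIn {M : Set ZFSet.{0}} {z : ZFSet.{0}} {m : ℕ} (h : CardIn M z m) :
    ∃ s : Finset ZFSet.{0}, s.card = m ∧ ∀ v, v ∈ z ↔ v ∈ s := by
  classical
  obtain ⟨f, -, ⟨⟨h1, h2⟩, h3⟩, h4⟩ := h
  have h5 : ∀ k : Fin m, ∃ a ∈ z, pair a (nat k) ∈ f := fun k =>
    h4 (nat k) (mem_nat'.2 ⟨k, k.2, rfl⟩)
  choose g hg hg' using h5
  refine ⟨Finset.univ.image g, ?_, fun v => ?_⟩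
  · rw [Finset.card_image_of_injective, Finset.card_univ, Fintype.card_fin]
    intro a b hab
    have h6 := hg' a
    rw [hab] at h6
    exact Fin.ext (nat_injective ((h2 _ (hg b)).unique h6 (hg' b)))
  · rw [Finset.mem_image]
    constructor
    · intro hv
      obtain ⟨b, hb, -⟩ := h2 v hv
      obtain ⟨k, hk, rfl⟩ := mem_nat'.1 (ZFSet.pair_mem_prod.1 (h1 hb)).2
      exact ⟨⟨k, hk⟩, Finset.mem_univ _, h3 _ _ _ (hg' ⟨k, hk⟩) hb⟩
    · rintro ⟨k, -, rfl⟩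
      exact hg k

theorem cardIn_iff {M : Set ZFSet.{0}} (hM : IsZF M) {z : ZFSet.{0}} (hz : z ∈ M)
    {s : Finset ZFSet.{0}} (hs : ∀ v, v ∈ z ↔ v ∈ s) : CardIn M z s.card := by
  obtain ⟨Y, hY, h1, h2⟩ := cardIn_of hM s fun v hv => hM.trans _ hz _ ((hs v).2 hv)
  have h3 : Y = z := by
    ext v
    rw [h1, hs]
  rwa [h3] at h2

theorem not_finIn_iff {M : Set ZFSet.{0}} (hM : IsZF M) {z : ZFSet.{0}} (hz : z ∈ M) :
    ¬ FinIn M z ↔ {v | v ∈ z}.Infinite := by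
  constructor
  · intro h hfin
    exact h ⟨_, cardIn_iff hM hz (s := hfin.toFinset) fun v => (hfin.mem_toFinset).symm⟩
  · rintro h ⟨m, hm⟩
    obtain ⟨s, -, hs⟩ := of_cardIn hm
    exact h (s.finite_toSet.subset fun v hv => Finset.mem_coe.2 ((hs v).1 hv))

/-! ### The positive part -/

section

variable {π : Pkg P} {r : X} (h : Good π r)

include h

theorem core {x : ZFSet.{0}} (hx : x ∈ sys.Ms π) (hinf : {z | z ∈ x}.Infinite) :
    ∃ y ∈ sys.Ms π, y ⊆ x ∧ {z | z ∈ y}.Infinite ∧ ∃ f ∈ sys.Ms π, Cho (sys.Ms π) y f := by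
  classical
  have hM := isZF h
  by_contra hno
  obtain ⟨S0, E0, hES, hxN⟩ := exists_Nsp hx
  have hsub : ∀ u ∈ x, u ∈ Nsp π S0 E0 := by
    intro u hu
    obtain ⟨S1, E1, hES1, huN⟩ := exists_Nsp (hM.trans _ hx _ hu)
    have hA : ∀ D : Finset K, (∀ a ∈ D, a.1 ∈ S0 ∪ S1) → u ∈ Nsp π (S0 ∪ S1) (E0 ∪ D) →
        u ∈ Nsp π (S0 ∪ S1) E0 := by
      intro D
      induction D using Finset.induction_on with
      | empty =>
        intro _ h1
        rwa [Finset.union_empty] at h1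
      | insert a D ha ih =>
        intro h1 h2
        refine ih (fun b hb => h1 b (Finset.mem_insert_of_mem hb)) ?_
        rw [Finset.union_insert] at h2
        by_contra h3
        by_cases h4 : a ∈ E0 ∪ D
        · rw [Finset.insert_eq_of_mem h4] at h2
          exact h3 h2
        · obtain ⟨y, hy, hyx, hyi, L, hL, hL'⟩ := lemA h (h1 a (Finset.mem_insert_self _ _)) h4
            (Nsp_mono Finset.subset_union_left Finset.subset_union_left hxN) h2 h3 hu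
          obtain ⟨f, hf, hf'⟩ := lin_cho hM hL hy hL'
          exact hno ⟨y, hy, hyx, hyi, f, hf, hf'⟩
    have h1 : u ∈ Nsp π (S0 ∪ S1) E0 := by
      refine hA E1 (fun a ha => Finset.mem_union_right _ (hES1 a ha)) ?_
      exact Nsp_mono Finset.subset_union_right Finset.subset_union_right huN
    have hB : ∀ D : Finset ℕ, u ∈ Nsp π (S0 ∪ D) E0 → u ∈ Nsp π S0 E0 := by
      intro D
      induction D using Finset.induction_on with
      | empty =>
        intro h1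
        rwa [Finset.union_empty] at h1
      | insert i D hi ih =>
        intro h2
        refine ih ?_
        rw [Finset.union_insert] at h2
        by_contra h3
        by_cases h4 : i ∈ S0 ∪ D
        · rw [Finset.insert_eq_of_mem h4] at h2
          exact h3 h2
        · exact hno (lemB h h4 (fun a ha => Finset.mem_union_left _ (hES a ha))
            (Nsp_mono Finset.subset_union_left subset_rfl hxN) h2 h3 hu)
    exact hB S1 h1
  obtain ⟨L, hL, hL'⟩ := exists_lin h hx hsub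
  obtain ⟨f, hf, hf'⟩ := lin_cho hM hL hx hL'
  exact hno ⟨x, hx, fun _ hz => hz, hinf, f, hf, hf'⟩

theorem rcfin : RCfin (sys.Ms π) 8 := by
  have hM := isZF h
  intro x hx hxf
  obtain ⟨y, hy, hyx, hyi, f, hf, hc⟩ := core h hx ((not_finIn_iff hM hx).1 hxf)
  refine ⟨y, hy, hyx, (not_finIn_iff hM hy).2 hyi, f, hf, fun z hz hzy hm => ?_⟩
  obtain ⟨m, hm, hzm⟩ := hm
  obtain ⟨s, hs, hs'⟩ := of_cardIn hzm
  obtain ⟨u, hu, t, hts, ht8, ht', hfu⟩ := hc z hz s hs' (fun w hw => hzy ((hs' w).2 hw))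
    (by rw [hs]; exact hm)
  refine ⟨u, hu, fun w hw => (hs' w).2 (hts ((ht' w).1 hw)), ?_, hfu⟩
  rw [← ht8]
  exact cardIn_iff hM hu ht'

/-! ### The negative part -/

theorem act_zN {g : G} {τ : Equiv.Perm ℕ} (hτ : ∀ k, bl g k = τ k) (Z : Finset ℕ) (p : P) :
    Feq (act (sys.ac g) (zN Z)) (zN (Z.image τ)) p := by
  rw [feq_iff']
  constructor
  · intro a c ha q _ hqc
    obtain ⟨k, -, rfl⟩ := el_fN.1 (el_act_fN.1 ha)
    refine ⟨q, le_rfl, _, q, el_fN.2 ⟨⟨τ k.1, Finset.mem_image_of_mem _ k.2⟩,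
      Set.subset_univ _, rfl⟩, le_rfl, ?_⟩
    have h2 := act_bN g k.1 q
    rwa [hτ] at h2
  · intro a c ha q _ hqc
    obtain ⟨⟨k, hk⟩, -, rfl⟩ := el_fN.1 ha
    obtain ⟨i, hi, rfl⟩ := Finset.mem_image.1 hk
    refine ⟨q, le_rfl, _, q, el_act_fN.2 (el_fN.2 ⟨⟨i, hi⟩, Set.subset_univ _, rfl⟩), le_rfl, ?_⟩
    have h2 := act_bN g i q
    rwa [hτ] at h2

theorem hs_zN (Z : Finset ℕ) : sys.HS (zN Z) := by
  refine hs_fN (S := Z) (E := ∅) (fix_fN fun g hg k => ⟨k, fun p => ?_, rfl⟩) fun _ => hs_bN _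
  have h1 := act_bN g k.1 p
  rwa [hg.1 k.1 k.2] at h1

theorem not_rc : ¬ RCm (sys.Ms π) 11 := by
  classical
  have hM := isZF h
  intro hrc
  have hA : π.val AN ∈ sys.Ms π := ⟨_, ⟨h.an, hs_AN⟩, rfl⟩
  have hAi : ¬ FinIn (sys.Ms π) (π.val AN) := by
    rw [not_finIn_iff hM hA]
    refine (Set.infinite_range_of_injective (f := fun i => π.val (bN i))
      fun i j hij => bN_inj h hij).mono ?_
    rintro _ ⟨i, rfl⟩
    exact (mem_AN h).2 ⟨i, rfl⟩
  obtain ⟨y, hy, hyA, hyi, f, hf, hfc⟩ := hrc _ hA hAi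
  rw [not_finIn_iff hM hy] at hyi
  obtain ⟨S1, E1, hES1, hyN⟩ := exists_Nsp hy
  obtain ⟨S2, E2, hES2, hfN⟩ := exists_Nsp hf
  obtain ⟨S, hS⟩ : ∃ S, S = S1 ∪ S2 := ⟨_, rfl⟩
  obtain ⟨E, hE⟩ : ∃ E, E = E1 ∪ E2 := ⟨_, rfl⟩
  have hES : ∀ a ∈ E, a.1 ∈ S := by
    intro a ha
    rw [hE, Finset.mem_union] at ha
    rw [hS, Finset.mem_union]
    exact ha.imp (hES1 a) (hES2 a)
  have hyN' : y ∈ Nsp π S E := by
    rw [hS, hE]
    exact Nsp_mono Finset.subset_union_left Finset.subset_union_left hyN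
  have hfN' : f ∈ Nsp π S E := by
    rw [hS, hE]
    exact Nsp_mono Finset.subset_union_right Finset.subset_union_right hfN
  obtain ⟨cy, hcy, -, hcyf, rfl⟩ := hyN'
  obtain ⟨cf, hcf, -, hcff, rfl⟩ := hfN'
  obtain ⟨i, hi, hiy⟩ : ∃ i, i ∉ S ∧ π.val (bN i) ∈ π.val cy := by
    by_contra hno
    push Not at hno
    refine hyi ((S.finite_toSet.image fun i => π.val (bN i)).subset fun w hw => ?_)
    obtain ⟨i, rfl⟩ := (mem_AN h).1 (hyA hw)
    refine ⟨i, ?_, rfl⟩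
    by_contra hiS
    exact hno i hiS hw
  obtain ⟨Z, τ, hZ, hτ, hZσ, hZτ, hτne⟩ := rot S hi
  have hgen : ∀ (v c : PName P), v ∈ π.N → c ∈ π.N → sys.Fix (fixE S E) c →
      π.val v ∈ π.val c → ∀ α, ∀ hα : TS S α, ∃ g : G, (∀ k, bl g k = α k) ∧
        r ∈ BV (act (sys.ac g) v) c := by
    intro v c hv hc hcf hvc α hα
    obtain ⟨w, hw, hmv⟩ := move h.gen (op_BV v c) ((val_mem h.gpt hv hc).1 hvc)
    have hfix : ∀ a ∈ E, (lf α hα.1).1 a = a := fun a ha => by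
      rw [lf_apply, hα.2 _ (hES a ha)]
    obtain ⟨g, m1, m2, m3⟩ := hmv (lf α hα.1) E (fun d hd hdE => by
      rw [hfix _ hdE]
      exact hw d hd)
    have m2' : ∀ k, bl g k = α k := m2
    have hgb : ∀ k ∈ S, bl g k = k := fun k hk => by rw [m2', hα.2 k hk]
    have hgE : ∀ a ∈ E, g.1 a = a := fun a ha => by rw [m1 a ha, hfix a ha]
    rw [← BV_act, BV_congr (fun p => Feq.refl _ p) (hcf g ⟨hgb, hgE⟩)] at m3
    exact ⟨g, m2', m3⟩
  have hZy : ∀ k ∈ Z, π.val (bN k) ∈ π.val cy := by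
    intro k hk
    obtain ⟨σ, hσ, rfl⟩ := hZσ k hk
    obtain ⟨g, h1, h2⟩ := hgen _ _ (h.bn i) hcy hcyf hiy σ hσ
    rw [BV_congr (fun p => act_bN g i p) (fun p => Feq.refl _ p), h1] at h2
    exact (val_mem h.gpt (h.bn _) hcy).2 h2
  have hzM : π.val (zN Z) ∈ sys.Ms π := ⟨_, ⟨h.zn Z, hs_zN h Z⟩, rfl⟩
  have hz11 : CardIn (sys.Ms π) (π.val (zN Z)) 11 := by
    have h1 : (Z.image fun k => π.val (bN k)).card = 11 := by
      rw [Finset.card_image_of_injective _ fun i j hij => bN_inj h hij, hZ]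
    rw [← h1]
    refine cardIn_iff hM hzM fun v => ?_
    rw [mem_zN h, Finset.mem_image]
    constructor
    · rintro ⟨k, hk, rfl⟩
      exact ⟨k, hk, rfl⟩
    · rintro ⟨k, hk, rfl⟩
      exact ⟨k, hk, rfl⟩
  obtain ⟨v, hv, hvf⟩ := hfc _ hzM (fun w hw => by
    obtain ⟨k, hk, rfl⟩ := (mem_zN h).1 hw
    exact hZy k hk) hz11
  obtain ⟨k, hk, rfl⟩ := (mem_zN h).1 hv
  have h1 : π.val (opN (zN Z) (bN k)) ∈ π.val cf := by
    rw [π.val_opN (h.zn Z) (h.bn k)]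
    exact (hvf _).2 rfl
  obtain ⟨g, h2, h3⟩ := hgen _ _ (π.opN_mem (h.zn Z) (h.bn k)) hcf hcff h1 τ hτ
  have h4 : ∀ p, Feq (act (sys.ac g) (opN (zN Z) (bN k))) (opN (zN Z) (bN (τ k))) p := by
    intro p
    rw [act_opN (sys.top g)]
    refine feq_opN ?_ ?_
    · have h5 := act_zN h h2 Z p
      rwa [hZτ] at h5
    · have h5 := act_bN g k p
      rwa [h2] at h5
  rw [BV_congr h4 (fun p => Feq.refl _ p)] at h3
  have h5 := (val_mem h.gpt (π.opN_mem (h.zn Z) (h.bn (τ k))) hcf).2 h3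
  rw [π.val_opN (h.zn Z) (h.bn (τ k)), hvf] at h5
  exact hτne k hk (bN_inj h h5)

end

theorem exists_model : ∃ M : Set ZFSet.{0}, M.Countable ∧ IsZF M ∧ RCfin M 8 ∧ ¬ RCm M 11 := by
  obtain ⟨π, r, h⟩ := exists_good
  exact ⟨_, (π.cnt.mono fun _ h => h.1).image _, isZF h, rcfin h, not_rc h⟩

end Pool.Agent.R602.RC
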