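import Pool.Agent.R602.RC.Mod

/-!
# Changing a real
-/

set_option autoImplicit false
set_option linter.unusedSectionVars false
set_option linter.unusedVariables false

namespace Pool.Agent.R602.RC

open Pool.Agent.W868 Pool.Agent.W868.PName Pool.Agent.R598.SY
open ZFSet (pair)

/-- The conditions on the real `a`. -/
def cd (w : Bc) (a : K) : Finset (ℕ × Bool) := (w.filter fun c => c.1 = a).image fun c => c.2

theorem mem_cd {w : Bc} {a : K} {c : ℕ × Bool} : c ∈ cd w a ↔ (a, c) ∈ w := by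
  unfold cd
  rw [Finset.mem_image]
  constructor
  · rintro ⟨d, hd, rfl⟩
    obtain ⟨h1, rfl⟩ := Finset.mem_filter.1 hd
    exact h1
  · intro h
    exact ⟨(a, c), Finset.mem_filter.2 ⟨h, rfl⟩, rfl⟩

theorem Sa_cd {r : X} {w : Bc} {a b : K} (hb : r ∈ Sa b (cd w a)) {c : K × ℕ × Bool} (hc : c ∈ w)
    (e : c.1 = a) : r b c.2.1 = c.2.2 := by
  subst e
  exact hb c.2 (mem_cd.2 hc)

theorem Sa_self {r : X} {w : Bc} (hw : r ∈ cyl w) (a : K) : r ∈ Sa a (cd w a) :=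
  fun c hc => hw (a, c) (mem_cd.1 hc)

theorem exists_j {r : X} (hg : Gen r) (i : ℕ) {s : Finset (ℕ × Bool)} {a : K} (hs : r ∈ Sa a s)
    (D : Finset ℕ) : ∃ j, j ∉ D ∧ r ∈ Sa (i, j) s := by
  obtain ⟨j, hj, h1⟩ := hg.g1 i s ⟨r a, hs⟩ (D.sup id + 1)
  refine ⟨j, fun h => ?_, h1⟩
  have h2 : j ≤ D.sup id := Finset.le_sup (f := id) h
  omega

theorem tA_eq {v : PName P} {e : K} {S : Finset ℕ} {E : Finset K}
    (hv : sys.Fix (fixE S (insert e E)) v) (heE : e ∉ E) {g : G} (hb : ∀ i ∈ S, bl g i = i)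
    (hE : ∀ a ∈ E, g.1 a = a) {j : ℕ} (hj : (e.1, j) ∉ E) (hge : g.1 e = (e.1, j)) (p : P) :
    Feq (act (sys.ac g) v) (tA v e j) p := by
  unfold tA
  refine act_feq hv (fun i hi => ?_) (fun a ha => ?_) p
  · rw [hb i hi, bl_rA]
  · rcases Finset.mem_insert.1 ha with rfl | ha
    · rw [hge, rA_left]
    · have h3 : (rA e j).1 a = a := rA_ne (fun h => heE (h ▸ ha)) fun h => hj (h ▸ ha)
      rw [hE a ha, h3]

theorem exists_g2 (e : K) {j j1 j2 : ℕ} (hj : ((e.1, j) : K) ≠ e) (h12 : j1 ≠ j2) : ∃ g0 : G,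
    (∀ i, bl g0 i = i) ∧ g0.1 e = (e.1, j1) ∧ g0.1 (e.1, j) = (e.1, j2) ∧
      ∀ a, a ≠ e → a ≠ (e.1, j) → a ≠ (e.1, j1) → a ≠ (e.1, j2) → g0.1 a = a := by
  obtain ⟨b, hb⟩ : ∃ b, b = (rA e j1).1 (e.1, j) := ⟨_, rfl⟩
  have hb1 : b.1 = e.1 := by
    rw [hb, fst_eq, bl_rA]
  have hinj : ∀ a c, (rA e j1).1 a = (rA e j1).1 c → a = c := fun a c h =>
    (rA e j1).1.injective h
  refine ⟨rA b j2 * rA e j1, fun i => ?_, ?_, ?_, fun a h1 h2 h3 h4 => ?_⟩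
  · rw [bl_mul, bl_rA, bl_rA]
  · change (rA b j2).1 ((rA e j1).1 e) = _
    rw [rA_left]
    refine rA_ne (fun h => ?_) fun h => ?_
    · rw [← rA_left, hb] at h
      exact hj (hinj _ _ h).symm
    · exact h12 (Prod.mk.inj h).2
  · change (rA b j2).1 ((rA e j1).1 (e.1, j)) = _
    rw [← hb, rA_left, hb1]
  · change (rA b j2).1 ((rA e j1).1 a) = _
    have h5 : (rA e j1).1 a = a := rA_ne h1 h3
    rw [h5]
    refine rA_ne (fun h => ?_) fun h => ?_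
    · rw [hb] at h
      exact h2 (hinj _ _ (h5.trans h))
    · rw [hb1] at h
      exact h4 h

section

variable {π : Pkg P} {r : X} (h : Good π r)

include h

theorem mem_g (n : ℕ) : r ∈ (π.g n).1 := (h.gpt _ (π.g n).2.1).2 ⟨n, subset_rfl⟩

theorem val_of_feq {x y : PName P} (hx : x ∈ π.N) (hy : y ∈ π.N) (hf : ∀ p, Feq x y p) :
    π.val x = π.val y := (π.val_eq_iff hx hy).2 ⟨0, hf _⟩

theorem val_uN {v : PName P} {U : PName P → Set X} (hU : ∀ z, Op (U z))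
    (hc : ∀ z ∈ π.N, r ∈ U z ↔ π.val z ∈ π.val v) :
    π.val (fN (G × v.idx) (fun t => act (sys.ac t.1) (v.chd t.2))
      fun t => U (act (sys.ac t.1) (v.chd t.2))) = π.val v := by
  ext z
  rw [π.mem_val]
  constructor
  · rintro ⟨y, hy, d, hd, ⟨n, hn⟩, rfl⟩
    obtain ⟨t, ht, rfl⟩ := el_fN.1 hd
    exact (hc _ hy).1 (ht (hn (mem_g h n)))
  · intro hz
    obtain ⟨y, hy, d, ⟨k, rfl, rfl⟩, hn, rfl⟩ := π.mem_val.1 hz
    have h1 := (hc _ hy).2 hz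
    obtain ⟨n, hn⟩ := (h.gpt _ (hU (v.chd k))).1 h1
    refine ⟨_, hy, π.g n, el_fN.2 ⟨(1, k), ?_, ?_⟩, ⟨n, le_rfl⟩, rfl⟩
    · change (π.g n).1 ⊆ U (act (sys.ac (1 : G)) (v.chd k))
      rwa [act_id]
    · exact (act_id _).symm

theorem lemA {S : Finset ℕ} {E : Finset K} {e : K} (heS : e.1 ∈ S) (heE : e ∉ E)
    {X0 u : ZFSet.{0}} (hX : X0 ∈ Nsp π S E) (hu : u ∈ Nsp π S (insert e E))
    (hu' : u ∉ Nsp π S E) (huX : u ∈ X0) : ∃ y ∈ sys.Ms π, y ⊆ X0 ∧ {z | z ∈ y}.Infinite ∧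
      ∃ L ∈ sys.Ms π, IsLin L y := by
  classical
  obtain ⟨c, hc, hcs, hcf, rfl⟩ := hX
  obtain ⟨v, hv, hvs, hvf, rfl⟩ := hu
  have hself : π.val (tA v e e.2) = π.val v := by
    refine val_of_feq h (h.fta v hv _ _) hv fun p => ?_
    have h1 := tA_eq hvf heE (g := 1) (fun i _ => rfl) (fun a _ => rfl) (j := e.2) heE rfl p
    rw [act_id] at h1
    exact h1.symm
  have hQ : r ∉ QA v e E := by
    intro hQ
    obtain ⟨⟨j, hjE, hje⟩, hj⟩ := Set.mem_iUnion.1 hQ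
    obtain ⟨w, hw, hmv⟩ := move h.gen (op_BE _ _) hj
    have C1 : ∀ j1 j2, (e.1, j1) ∉ E → (e.1, j2) ∉ E → j1 ≠ j2 → r ∈ Sa (e.1, j1) (cd w e) →
        r ∈ Sa (e.1, j2) (cd w (e.1, j)) → π.val (tA v e j2) = π.val (tA v e j1) := by
      intro j1 j2 h1 h2 h12 h3 h4
      obtain ⟨g0, k1, k2, k3, k4⟩ := exists_g2 e hje h12
      have k5 : ∀ a ∈ E, g0.1 a = a := fun a ha => k4 a (fun h => heE (h ▸ ha))
        (fun h => hjE (h ▸ ha)) (fun h => h1 (h ▸ ha)) (fun h => h2 (h ▸ ha))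
      obtain ⟨g, m1, m2, m3⟩ := hmv g0 (insert e (insert (e.1, j) E)) (fun c hc hcE => by
        rcases Finset.mem_insert.1 hcE with h5 | h5
        · rw [h5, k2]
          exact Sa_cd h3 hc h5
        · rcases Finset.mem_insert.1 h5 with h5 | h5
          · rw [h5, k3]
            exact Sa_cd h4 hc h5
          · rw [k5 _ h5]
            exact hw c hc)
      rw [← BE_act] at m3
      have hgb : ∀ i, bl g i = i := fun i => by rw [m2, k1]
      have hgE : ∀ a ∈ E, g.1 a = a := fun a ha => by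
        rw [m1 a (Finset.mem_insert_of_mem (Finset.mem_insert_of_mem ha)), k5 a ha]
      have hge : g.1 e = (e.1, j1) := by rw [m1 e (Finset.mem_insert_self _ _), k2]
      have hgj : g.1 (e.1, j) = (e.1, j2) := by
        rw [m1 _ (Finset.mem_insert_of_mem (Finset.mem_insert_self _ _)), k3]
      have e1 : ∀ p, Feq (act (sys.ac g) (tA v e j)) (tA v e j2) p := fun p => by
        change Feq (act (sys.ac g) (act (sys.ac (rA e j)) v)) (tA v e j2) p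
        rw [act_act]
        refine tA_eq hvf heE (fun i _ => ?_) (fun a ha => ?_) h2 ?_ p
        · rw [bl_mul, bl_rA, hgb]
        · change g.1 ((rA e j).1 a) = a
          have h3 : (rA e j).1 a = a := rA_ne (fun h => heE (h ▸ ha)) fun h => hjE (h ▸ ha)
          rw [h3, hgE a ha]
        · change g.1 ((rA e j).1 e) = _
          rw [rA_left, hgj]
      have e2 : ∀ p, Feq (act (sys.ac g) v) (tA v e j1) p := fun p =>
        tA_eq hvf heE (fun i _ => hgb i) hgE h1 hge p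
      rw [BE_congr e1 e2] at m3
      exact (val_eq h.gpt (h.fta v hv e j2) (h.fta v hv e j1)).2 m3
    have C2 : ∀ j1, (e.1, j1) ∉ E → r ∈ Sa (e.1, j1) (cd w e) →
        π.val (tA v e j1) = π.val v := by
      intro j1 h1 h3
      obtain ⟨j2, h4, h5⟩ := exists_j h.gen e.1 (Sa_self hw (e.1, j))
        (insert j1 (insert e.2 (E.image Prod.snd)))
      rw [Finset.mem_insert, Finset.mem_insert, not_or, not_or] at h4
      have h6 : (e.1, j2) ∉ E := fun h => h4.2.2 (Finset.mem_image.2 ⟨_, h, rfl⟩)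
      rw [← C1 j1 j2 h1 h6 (fun h => h4.1 h.symm) h3 h5, ← hself]
      exact C1 e.2 j2 heE h6 (fun h => h4.2.1 h.symm) (Sa_self hw e) h5
    refine hu' ⟨uA v e E (cd w e), h.fua v hv _ _ _, hs_uA hvf heS heE hvs _,
      fix_uA hvf heS heE _, val_uN h (fun z => op_UA _ _ _ _ z) fun z hz => ?_⟩
    constructor
    · intro hr
      obtain ⟨⟨j1, h1⟩, h2, h3⟩ := Set.mem_iUnion.1 hr
      rw [← C2 j1 h1 h2]
      exact (val_mem h.gpt hz (h.fta v hv e j1)).2 h3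
    · intro hz'
      refine Set.mem_iUnion.2 ⟨⟨e.2, heE⟩, Sa_self hw e, ?_⟩
      rw [← hself] at hz'
      exact (val_mem h.gpt hz (h.fta v hv e e.2)).1 hz'
  obtain ⟨k, hk⟩ : ∃ k, (π.g k).1 ∩ QA v e E = ∅ := by
    rcases tr_dec (h.fqa v hv e E) (op_QA v e E) with h1 | h1
    · exact absurd ((h.gpt _ (op_QA v e E)).2 h1) hQ
    · exact h1
  have hr1 : r ∈ (π.g k).1 ∩ BV v c := ⟨mem_g h k, (val_mem h.gpt hv hc).1 huX⟩
  obtain ⟨w, hw, hmv⟩ := move h.gen ((π.g k).2.1.inter (op_BV v c)) hr1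
  obtain ⟨s, hs⟩ : ∃ s, s = cd w e := ⟨_, rfl⟩
  have key : ∀ j1, (e.1, j1) ∉ E → r ∈ Sa (e.1, j1) s → π.val (tA v e j1) ∈ π.val c ∧
      ∀ j2, (e.1, j2) ∉ E → j1 ≠ j2 → π.val (tA v e j2) ≠ π.val (tA v e j1) := by
    intro j1 h1 h3
    have k5 : ∀ a ∈ E, (rA e j1).1 a = a := fun a ha =>
      rA_ne (fun h => heE (h ▸ ha)) (fun h => h1 (h ▸ ha))
    obtain ⟨g, m1, m2, m3⟩ := hmv (rA e j1) (insert e E) (fun c hc hcE => by
      rcases Finset.mem_insert.1 hcE with h5 | h5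
      · rw [h5, rA_left]
        rw [hs] at h3
        exact Sa_cd h3 hc h5
      · rw [k5 _ h5]
        exact hw c hc)
    have hgb : ∀ i, bl g i = i := fun i => by rw [m2, bl_rA]
    have hgE : ∀ a ∈ E, g.1 a = a := fun a ha => by
      rw [m1 a (Finset.mem_insert_of_mem ha), k5 a ha]
    have hge : g.1 e = (e.1, j1) := by rw [m1 e (Finset.mem_insert_self _ _), rA_left]
    have m4 : pb g r ∈ (π.g k).1 := m3.1
    have m5 : r ∈ im g (BV v c) := m3.2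
    have e2 : ∀ p, Feq (act (sys.ac g) v) (tA v e j1) p := fun p =>
      tA_eq hvf heE (fun i _ => hgb i) hgE h1 hge p
    refine ⟨?_, fun j2 h2 h12 heq => ?_⟩
    · rw [← BV_act, BV_congr e2 (hcf g ⟨fun i _ => hgb i, hgE⟩)] at m5
      exact (val_mem h.gpt (h.fta v hv e j1) hc).2 m5
    · have h4 := (val_eq h.gpt (h.fta v hv e j2) (h.fta v hv e j1)).1 heq
      obtain ⟨b, hb⟩ : ∃ b, g.1 b = (e.1, j2) := ⟨g.1.symm _, g.1.apply_symm_apply _⟩
      have hb1 : b = (e.1, b.2) := by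
        refine Prod.ext ?_ rfl
        have h5 := fst_eq g b
        rw [hb, hgb] at h5
        exact h5.symm
      have hbE : (e.1, b.2) ∉ E := by
        rw [← hb1]
        intro h5
        have h6 := hgE b h5
        rw [hb] at h6
        exact h2 (h6 ▸ h5)
      have hbe : ((e.1, b.2) : K) ≠ e := by
        rw [← hb1]
        intro h5
        rw [h5, hge] at hb
        exact h12 (Prod.mk.inj hb).2
      have e1 : ∀ p, Feq (act (sys.ac g) (tA v e b.2)) (tA v e j2) p := fun p => by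
        change Feq (act (sys.ac g) (act (sys.ac (rA e b.2)) v)) (tA v e j2) p
        rw [act_act]
        refine tA_eq hvf heE (fun i _ => ?_) (fun a ha => ?_) h2 ?_ p
        · rw [bl_mul, bl_rA, hgb]
        · change g.1 ((rA e b.2).1 a) = a
          have h3 : (rA e b.2).1 a = a := rA_ne (fun h => heE (h ▸ ha)) fun h => hbE (h ▸ ha)
          rw [h3, hgE a ha]
        · change g.1 ((rA e b.2).1 e) = _
          rw [rA_left, ← hb1, hb]
      rw [← BE_congr e1 e2, BE_act] at h4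
      have h7 : pb g r ∈ (π.g k).1 ∩ QA v e E :=
        ⟨m4, Set.mem_iUnion.2 ⟨⟨b.2, hbE, hbe⟩, h4⟩⟩
      rw [hk] at h7
      exact h7
  have hmy : ∀ z, z ∈ π.val (yA v e E s) ↔ ∃ j, (e.1, j) ∉ E ∧ r ∈ Sa (e.1, j) s ∧
      z = π.val (tA v e j) := by
    intro z
    refine (val_fN (z := fun j : {j : ℕ // (e.1, j) ∉ E} => tA v e j.1)
      (O := fun j : {j : ℕ // (e.1, j) ∉ E} => Sa (e.1, j.1) s) h.gpt
      (fun j => h.fta v hv e j.1) (fun j => op_Sa _ _)).trans ?_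
    constructor
    · rintro ⟨⟨j, hj⟩, h1, rfl⟩
      exact ⟨j, hj, h1, rfl⟩
    · rintro ⟨j, hj, h1, rfl⟩
      exact ⟨⟨j, hj⟩, h1, rfl⟩
  have hmL : ∀ z, z ∈ π.val (LA v e E s) ↔ ∃ j1 j2, ((e.1, j1) ∉ E ∧ (e.1, j2) ∉ E) ∧
      (r ∈ Sa (e.1, j1) s ∧ r ∈ Sa (e.1, j2) s ∧ r ∈ Lx (e.1, j1) (e.1, j2)) ∧
      z = pair (π.val (tA v e j1)) (π.val (tA v e j2)) := by
    intro z
    refine (val_fN (z := fun t : {j : ℕ // (e.1, j) ∉ E} × {j : ℕ // (e.1, j) ∉ E} =>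
        opN (tA v e t.1.1) (tA v e t.2.1))
      (O := fun t : {j : ℕ // (e.1, j) ∉ E} × {j : ℕ // (e.1, j) ∉ E} =>
        Sa (e.1, t.1.1) s ∩ (Sa (e.1, t.2.1) s ∩ Lx (e.1, t.1.1) (e.1, t.2.1))) h.gpt
      (fun t => π.opN_mem (h.fta v hv e t.1.1) (h.fta v hv e t.2.1))
      (fun t => (op_Sa _ _).inter ((op_Sa _ _).inter (op_Lx _ _)))).trans ?_
    constructor
    · rintro ⟨⟨⟨j1, h1⟩, ⟨j2, h2⟩⟩, h3, rfl⟩
      exact ⟨j1, j2, ⟨h1, h2⟩, h3, π.val_opN (h.fta v hv e j1) (h.fta v hv e j2)⟩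
    · rintro ⟨j1, j2, ⟨h1, h2⟩, h3, rfl⟩
      exact ⟨⟨⟨j1, h1⟩, ⟨j2, h2⟩⟩, h3, (π.val_opN (h.fta v hv e j1) (h.fta v hv e j2)).symm⟩
  have hinj : ∀ j1 j2, (e.1, j1) ∉ E → (e.1, j2) ∉ E → r ∈ Sa (e.1, j1) s →
      π.val (tA v e j2) = π.val (tA v e j1) → j1 = j2 := by
    intro j1 j2 h1 h2 h3 h4
    by_contra h12
    exact (key j1 h1 h3).2 j2 h2 h12 h4
  have hpair : ∀ j1 j2, (e.1, j1) ∉ E → (e.1, j2) ∉ E → r ∈ Sa (e.1, j1) s →
      r ∈ Sa (e.1, j2) s → (pair (π.val (tA v e j1)) (π.val (tA v e j2)) ∈ π.val (LA v e E s) ↔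
        r ∈ Lx (e.1, j1) (e.1, j2)) := by
    intro j1 j2 h1 h2 h3 h4
    rw [hmL]
    constructor
    · rintro ⟨k1, k2, ⟨h5, h6⟩, ⟨h7, h8, h9⟩, he⟩
      obtain ⟨e1, e2⟩ := ZFSet.pair_inj.1 he
      rw [hinj j1 k1 h1 h5 h3 e1.symm, hinj j2 k2 h2 h6 h4 e2.symm]
      exact h9
    · intro h5
      exact ⟨j1, j2, ⟨h1, h2⟩, ⟨h3, h4, h5⟩, rfl⟩
  refine ⟨π.val (yA v e E s), ⟨_, ⟨h.fya v hv _ _ _, hs_yA hvf heS heE hvs s⟩, rfl⟩, fun z hz => ?_,
    ?_, π.val (LA v e E s), ⟨_, ⟨h.fla v hv _ _ _, hs_LA hvf heS heE hvs s⟩, rfl⟩, ?_, ?_, ?_⟩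
  · obtain ⟨j, h1, h2, rfl⟩ := (hmy z).1 hz
    exact (key j h1 h2).1
  · have hinf : {j | (e.1, j) ∉ E ∧ r ∈ Sa (e.1, j) s}.Infinite := by
      intro hfin
      obtain ⟨j, h1, h2⟩ := exists_j h.gen e.1 (s := s) (a := e) (by
        rw [hs]
        exact Sa_self hw e) (hfin.toFinset ∪ E.image Prod.snd)
      rw [Finset.mem_union, not_or] at h1
      exact h1.1 (hfin.mem_toFinset.2 ⟨fun h => h1.2 (Finset.mem_image.2 ⟨_, h, rfl⟩), h2⟩)
    refine (hinf.image (f := fun j => π.val (tA v e j)) fun j1 h1 j2 h2 he => ?_).mono ?_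
    · exact hinj j1 j2 h1.1 h2.1 h1.2 he.symm
    · rintro _ ⟨j, ⟨h1, h2⟩, rfl⟩
      exact (hmy _).2 ⟨j, h1, h2, rfl⟩
  · intro z hz
    obtain ⟨j, h1, h2, rfl⟩ := (hmy z).1 hz
    rw [hpair j j h1 h1 h2 h2]
    rintro ⟨n, h3, h4, -⟩
    rw [h3] at h4
    cases h4
  · intro z1 hz1 z2 hz2 z3 hz3
    obtain ⟨j1, h1, h1', rfl⟩ := (hmy z1).1 hz1
    obtain ⟨j2, h2, h2', rfl⟩ := (hmy z2).1 hz2
    obtain ⟨j3, h3, h3', rfl⟩ := (hmy z3).1 hz3
    rw [hpair j1 j2 h1 h2 h1' h2', hpair j2 j3 h2 h3 h2' h3', hpair j1 j3 h1 h3 h1' h3']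
    rintro ⟨n, a1, a2, a3⟩ ⟨m, b1, b2, b3⟩
    rcases lt_trichotomy n m with hnm | hnm | hnm
    · exact ⟨n, a1, by rw [← b3 n hnm, a2], fun k hk => by rw [a3 k hk, b3 k (hk.trans hnm)]⟩
    · subst hnm
      rw [a2] at b1
      cases b1
    · exact ⟨m, by rw [a3 m hnm, b1], b2, fun k hk => by rw [a3 k (hk.trans hnm), b3 k hk]⟩
  · intro z1 hz1 z2 hz2 hne
    obtain ⟨j1, h1, h1', rfl⟩ := (hmy z1).1 hz1
    obtain ⟨j2, h2, h2', rfl⟩ := (hmy z2).1 hz2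
    rw [hpair j1 j2 h1 h2 h1' h2', hpair j2 j1 h2 h1 h2' h1']
    have hne' : ((e.1, j1) : K) ≠ (e.1, j2) := fun h => hne (by rw [(Prod.mk.inj h).2])
    have hex := h.gen.g2 _ _ hne'
    have hlt : ∀ m < Nat.find hex, r (e.1, j1) m = r (e.1, j2) m := fun m hm =>
      not_not.1 (Nat.find_min hex hm)
    have hsp := Nat.find_spec hex
    cases ha : r (e.1, j1) (Nat.find hex)
    · refine Or.inl ⟨_, ha, ?_, hlt⟩
      cases hb : r (e.1, j2) (Nat.find hex)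
      · rw [ha, hb] at hsp
        exact absurd rfl hsp
      · rfl
    · refine Or.inr ⟨_, ?_, ha, fun m hm => (hlt m hm).symm⟩
      cases hb : r (e.1, j2) (Nat.find hex)
      · rfl
      · rw [ha, hb] at hsp
        exact absurd rfl hsp

end

end Pool.Agent.R602.RC
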