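import Pool.Agent.R602.RC.Comb

/-!
# Eleven points with a rotation
-/

set_option autoImplicit false

namespace Pool.Agent.R602.RC

/-- The index type of the 11 points. -/
abbrev Om : Type := ZMod 5 ⊕ (ZMod 3 × Bool)

/-- The rotation. -/
def pr (k : ℤ) : Om → Om
  | .inl x => .inl (x + (k : ZMod 5))
  | .inr (x, b) => .inr (x + (k : ZMod 3), b)

theorem pr_add (k l : ℤ) (y : Om) : pr (k + l) y = pr k (pr l y) := by
  rcases y with x | ⟨x, b⟩
  · change (Sum.inl (x + ((k + l : ℤ) : ZMod 5)) : Om) = Sum.inl (x + (l : ZMod 5) + (k : ZMod 5))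
    congr 1
    push_cast
    ring
  · change (Sum.inr (x + ((k + l : ℤ) : ZMod 3), b) : Om) =
      Sum.inr (x + (l : ZMod 3) + (k : ZMod 3), b)
    congr 2
    push_cast
    ring

theorem pr_zero (y : Om) : pr 0 y = y := by
  rcases y with x | ⟨x, b⟩
  · change (Sum.inl (x + ((0 : ℤ) : ZMod 5)) : Om) = Sum.inl x
    simp
  · change (Sum.inr (x + ((0 : ℤ) : ZMod 3), b) : Om) = Sum.inr (x, b)
    simp

variable (e : Om ↪ ℕ)

open Classical in
/-- The rotation of the 11 natural numbers. -/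
noncomputable def rh (k : ℤ) (x : ℕ) : ℕ := if h : ∃ y, e y = x then e (pr k h.choose) else x

theorem rh_e (k : ℤ) (y : Om) : rh e k (e y) = e (pr k y) := by
  have h : ∃ z, e z = e y := ⟨y, rfl⟩
  unfold rh
  rw [dif_pos h, e.injective h.choose_spec]

theorem rh_out {k : ℤ} {x : ℕ} (h : ∀ y, e y ≠ x) : rh e k x = x := by
  unfold rh
  exact dif_neg fun ⟨y, hy⟩ => h y hy

theorem rh_add (k l : ℤ) (x : ℕ) : rh e (k + l) x = rh e k (rh e l x) := by
  by_cases h : ∃ y, e y = x
  · obtain ⟨y, rfl⟩ := h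
    rw [rh_e, rh_e, rh_e, pr_add]
  · have h' : ∀ y, e y ≠ x := fun y hy => h ⟨y, hy⟩
    rw [rh_out e h', rh_out e h', rh_out e h']

theorem rh_zero (x : ℕ) : rh e 0 x = x := by
  by_cases h : ∃ y, e y = x
  · obtain ⟨y, rfl⟩ := h
    rw [rh_e, pr_zero]
  · exact rh_out e fun y hy => h ⟨y, hy⟩

/-- The rotation as a permutation. -/
noncomputable def rho (k : ℤ) : Equiv.Perm ℕ where
  toFun := rh e k
  invFun := rh e (-k)
  left_inv x := by rw [← rh_add, neg_add_cancel, rh_zero]
  right_inv x := by rw [← rh_add, add_neg_cancel, rh_zero]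

theorem rho_e (k : ℤ) (y : Om) : rho e k (e y) = e (pr k y) := rh_e e k y

theorem rho_out {k : ℤ} {x : ℕ} (h : ∀ y, e y ≠ x) : rho e k x = x := rh_out e h

theorem rho_add (k l : ℤ) : rho e (k + l) = rho e k * rho e l := by
  ext x
  exact rh_add e k l x

theorem image_rho_add (k l : ℤ) (Y : Finset ℕ) : Y.image (rho e (k + l)) =
    (Y.image (rho e l)).image (rho e k) := by
  rw [rho_add, image_mul]

theorem image_rho_zero (Y : Finset ℕ) : Y.image (rho e 0) = Y := by
  have h : (rho e 0 : ℕ → ℕ) = id := funext fun x => rh_zero e x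
  rw [h, Finset.image_id]

theorem equiv_choice (W : Finset ℕ → Finset ℕ)
    (hW : ∀ R k, R.image (rho e k) = R → (W R).image (rho e k) = W R) :
    ∃ F'' : Finset ℕ → Finset ℕ, (∀ Y, F'' (Y.image (rho e 1)) = (F'' Y).image (rho e 1)) ∧
      ∀ Y, ∃ R k, Y = R.image (rho e k) ∧ F'' Y = (W R).image (rho e k) := by
  let st : Setoid (Finset ℕ) :=
    { r := fun Y Y' => ∃ k : ℤ, Y' = Y.image (rho e k)
      iseqv :=
        { refl := fun Y => ⟨0, (image_rho_zero e Y).symm⟩
          symm := by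
            rintro Y _ ⟨k, rfl⟩
            exact ⟨-k, by rw [← image_rho_add, neg_add_cancel, image_rho_zero]⟩
          trans := by
            rintro Y _ _ ⟨k, rfl⟩ ⟨l, rfl⟩
            exact ⟨l + k, by rw [image_rho_add]⟩ } }
  let rep : Finset ℕ → Finset ℕ := fun Y => (Quotient.mk st Y).out
  have hrep : ∀ Y, ∃ k : ℤ, Y = (rep Y).image (rho e k) := fun Y =>
    (Quotient.exact (Quotient.out_eq (Quotient.mk st Y)) : st.r _ _)
  choose kk hkk using hrep
  have hreq : ∀ Y, rep (Y.image (rho e 1)) = rep Y := fun Y => by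
    have h : Quotient.mk st (Y.image (rho e 1)) = Quotient.mk st Y :=
      Quotient.sound (show st.r _ _ from ⟨-1, by
        rw [← image_rho_add, neg_add_cancel, image_rho_zero]⟩)
    change (Quotient.mk st (Y.image (rho e 1))).out = (Quotient.mk st Y).out
    rw [h]
  refine ⟨fun Y => (W (rep Y)).image (rho e (kk Y)), fun Y => ?_, fun Y => ⟨rep Y, kk Y, hkk Y, rfl⟩⟩
  change (W (rep (Y.image (rho e 1)))).image (rho e (kk (Y.image (rho e 1)))) =
    ((W (rep Y)).image (rho e (kk Y))).image (rho e 1)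
  rw [hreq, ← image_rho_add]
  have h1 := hkk (Y.image (rho e 1))
  rw [hreq] at h1
  have h2 : (rep Y).image (rho e (kk (Y.image (rho e 1)))) = (rep Y).image (rho e (1 + kk Y)) := by
    rw [← h1, image_rho_add, ← hkk Y]
  have h3 : (rep Y).image (rho e (-(kk (Y.image (rho e 1))) + (1 + kk Y))) = rep Y := by
    rw [image_rho_add, ← h2, ← image_rho_add, neg_add_cancel, image_rho_zero]
  have h4 := hW _ _ h3
  rw [image_rho_add] at h4
  have h5 := congrArg (fun Z => Z.image (rho e (kk (Y.image (rho e 1))))) h4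
  simp only [← image_rho_add] at h5
  rw [← h5]
  congr 2
  congr 1
  ring

theorem d5 : ∀ r : ZMod 5, r ≠ 0 → ∀ A : Finset (ZMod 5), (∀ x ∈ A, x + r ∈ A) →
    A.card = 0 ∨ A.card = 5 := by decide

theorem d3 : ∀ r : ZMod 3, r ≠ 0 → ∀ A : Finset (ZMod 3), (∀ x ∈ A, x + r ∈ A) →
    A.card = 0 ∨ A.card = 3 := by decide

theorem arith {a b0 b1 c : ℕ} (h : 8 < a + b0 + b1 + c) (ha : a ≤ 5) (h0 : b0 ≤ 3) (h1 : b1 ≤ 3)
    (P5 P3 : Prop) (h5 : P5 → a = 0 ∨ a = 5)
    (h3 : P3 → (b0 = 0 ∨ b0 = 3) ∧ (b1 = 0 ∨ b1 = 3)) :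
    ∃ α β0 β1 ε, α ≤ a ∧ β0 ≤ b0 ∧ β1 ≤ b1 ∧ ε ≤ c ∧ α + β0 + β1 + ε = 8 ∧
      (P5 → α = 0 ∨ α = a) ∧ (P3 → (β0 = 0 ∨ β0 = b0) ∧ (β1 = 0 ∨ β1 = b1)) := by
  by_cases p3 : P3
  · obtain ⟨h30, h31⟩ := h3 p3
    by_cases p5 : P5
    · rcases h5 p5 with rfl | rfl
      · rcases h30 with rfl | rfl
        · rcases h31 with rfl | rfl
          · exact ⟨0, 0, 0, 8, by omega, by omega, by omega, by omega, by omega, fun _ => by omega,
              fun _ => by omega⟩
          · exact ⟨0, 0, 3, 5, by omega, by omega, by omega, by omega, by omega, fun _ => by omega,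
              fun _ => by omega⟩
        · rcases h31 with rfl | rfl
          · exact ⟨0, 3, 0, 5, by omega, by omega, by omega, by omega, by omega, fun _ => by omega,
              fun _ => by omega⟩
          · exact ⟨0, 3, 3, 2, by omega, by omega, by omega, by omega, by omega, fun _ => by omega,
              fun _ => by omega⟩
      · rcases h30 with rfl | rfl
        · rcases h31 with rfl | rfl
          · exact ⟨5, 0, 0, 3, by omega, by omega, by omega, by omega, by omega, fun _ => by omega,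
              fun _ => by omega⟩
          · exact ⟨5, 0, 3, 0, by omega, by omega, by omega, by omega, by omega, fun _ => by omega,
              fun _ => by omega⟩
        · exact ⟨5, 3, 0, 0, by omega, by omega, by omega, by omega, by omega, fun _ => by omega,
            fun _ => by omega⟩
    · rcases h30 with rfl | rfl
      · rcases h31 with rfl | rfl
        · exact ⟨a, 0, 0, 8 - a, by omega, by omega, by omega, by omega, by omega,
            fun _ => by omega, fun _ => by omega⟩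
        · exact ⟨a, 0, 3, 5 - a, by omega, by omega, by omega, by omega, by omega,
            fun _ => by omega, fun _ => by omega⟩
      · rcases h31 with rfl | rfl
        · exact ⟨a, 3, 0, 5 - a, by omega, by omega, by omega, by omega, by omega,
            fun _ => by omega, fun _ => by omega⟩
        · exact ⟨min a 2, 3, 3, 2 - min a 2, by omega, by omega, by omega, by omega, by omega,
            fun h => absurd h p5, fun _ => by omega⟩
  · exact ⟨a, min b0 (8 - a), min b1 (8 - a - min b0 (8 - a)),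
      8 - a - min b0 (8 - a) - min b1 (8 - a - min b0 (8 - a)), by omega, by omega, by omega,
      by omega, by omega, fun _ => by omega, fun h => absurd h p3⟩

theorem exists_W (R : Finset ℕ) (hR : 8 < R.card) : ∃ W ⊆ R, W.card = 8 ∧
    ∀ k, R.image (rho e k) = R → W.image (rho e k) = W := by
  classical
  let A5 : Finset (ZMod 5) := Finset.univ.filter fun x => e (.inl x) ∈ R
  let A3 : Bool → Finset (ZMod 3) := fun b => Finset.univ.filter fun x => e (.inr (x, b)) ∈ R
  let R5 : Finset ℕ := A5.image fun x => e (.inl x)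
  let R3 : Bool → Finset ℕ := fun b => (A3 b).image fun x => e (.inr (x, b))
  let C : Finset ℕ := R.filter fun x => ∀ y, e y ≠ x
  have i5 : Function.Injective fun x : ZMod 5 => e (.inl x) := fun x y h =>
    Sum.inl.inj (e.injective h)
  have i3 : ∀ b, Function.Injective fun x : ZMod 3 => e (.inr (x, b)) := fun b x y h =>
    (Prod.mk.inj (Sum.inr.inj (e.injective h))).1
  have c5 : R5.card = A5.card := Finset.card_image_of_injective _ i5
  have c3 : ∀ b, (R3 b).card = (A3 b).card := fun b => Finset.card_image_of_injective _ (i3 b)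
  have m5 : ∀ x, x ∈ R5 ↔ ∃ y, e (.inl y) = x ∧ x ∈ R := by
    intro x
    constructor
    · intro hx
      obtain ⟨y, hy, rfl⟩ := Finset.mem_image.1 hx
      exact ⟨y, rfl, (Finset.mem_filter.1 hy).2⟩
    · rintro ⟨y, rfl, hx⟩
      exact Finset.mem_image.2 ⟨y, Finset.mem_filter.2 ⟨Finset.mem_univ _, hx⟩, rfl⟩
  have m3 : ∀ b x, x ∈ R3 b ↔ ∃ y, e (.inr (y, b)) = x ∧ x ∈ R := by
    intro b x
    constructor
    · intro hx
      obtain ⟨y, hy, rfl⟩ := Finset.mem_image.1 hx
      exact ⟨y, rfl, (Finset.mem_filter.1 hy).2⟩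
    · rintro ⟨y, rfl, hx⟩
      exact Finset.mem_image.2 ⟨y, Finset.mem_filter.2 ⟨Finset.mem_univ _, hx⟩, rfl⟩
  have mC : ∀ x, x ∈ C ↔ x ∈ R ∧ ∀ y, e y ≠ x := fun x => Finset.mem_filter
  have hU : R = R5 ∪ R3 false ∪ R3 true ∪ C := by
    ext x
    simp only [Finset.mem_union, m5, m3, mC]
    constructor
    · intro hx
      by_cases h : ∃ y, e y = x
      · obtain ⟨y | ⟨y, b⟩, rfl⟩ := h
        · exact Or.inl (Or.inl (Or.inl ⟨y, rfl, hx⟩))
        · cases b
          · exact Or.inl (Or.inl (Or.inr ⟨y, rfl, hx⟩))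
          · exact Or.inl (Or.inr ⟨y, rfl, hx⟩)
      · exact Or.inr ⟨hx, fun y hy => h ⟨y, hy⟩⟩
    · rintro (((⟨y, -, h⟩ | ⟨y, -, h⟩) | ⟨y, -, h⟩) | ⟨h, -⟩) <;> exact h
  have dj1 : Disjoint R5 (R3 false) := Finset.disjoint_left.2 fun x h1 h2 => by
    obtain ⟨y, e1, -⟩ := (m5 x).1 h1
    obtain ⟨z, e2, -⟩ := (m3 _ x).1 h2
    exact absurd (e.injective (e1.trans e2.symm)) (by simp)
  have dj2 : Disjoint (R5 ∪ R3 false) (R3 true) := Finset.disjoint_left.2 fun x h1 h2 => by
    obtain ⟨z, e2, -⟩ := (m3 _ x).1 h2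
    rcases Finset.mem_union.1 h1 with h1 | h1
    · obtain ⟨y, e1, -⟩ := (m5 x).1 h1
      exact absurd (e.injective (e1.trans e2.symm)) (by simp)
    · obtain ⟨y, e1, -⟩ := (m3 _ x).1 h1
      exact absurd (e.injective (e1.trans e2.symm)) (by simp)
  have dj3 : Disjoint (R5 ∪ R3 false ∪ R3 true) C := Finset.disjoint_left.2 fun x h1 h2 => by
    have h3 := ((mC x).1 h2).2
    rcases Finset.mem_union.1 h1 with h1 | h1
    · rcases Finset.mem_union.1 h1 with h1 | h1
      · obtain ⟨y, e1, -⟩ := (m5 x).1 h1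
        exact h3 _ e1
      · obtain ⟨y, e1, -⟩ := (m3 _ x).1 h1
        exact h3 _ e1
    · obtain ⟨y, e1, -⟩ := (m3 _ x).1 h1
      exact h3 _ e1
  have hcard : R.card = A5.card + (A3 false).card + (A3 true).card + C.card := by
    conv_lhs => rw [hU]
    rw [Finset.card_union_of_disjoint dj3, Finset.card_union_of_disjoint dj2,
      Finset.card_union_of_disjoint dj1, c5, c3, c3]
  have b5 : A5.card ≤ 5 := (Finset.card_le_univ A5).trans (by decide)
  have b3 : ∀ b, (A3 b).card ≤ 3 := fun b => (Finset.card_le_univ (A3 b)).trans (by decide)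
  have cl5 : ∀ k : ℤ, R.image (rho e k) = R → ∀ x ∈ A5, x + (k : ZMod 5) ∈ A5 := by
    intro k hk x hx
    refine Finset.mem_filter.2 ⟨Finset.mem_univ _, ?_⟩
    have h := Finset.mem_image_of_mem (rho e k) (Finset.mem_filter.1 hx).2
    rw [hk, rho_e] at h
    exact h
  have cl3 : ∀ k : ℤ, R.image (rho e k) = R → ∀ b, ∀ x ∈ A3 b, x + (k : ZMod 3) ∈ A3 b := by
    intro k hk b x hx
    refine Finset.mem_filter.2 ⟨Finset.mem_univ _, ?_⟩
    have h := Finset.mem_image_of_mem (rho e k) (Finset.mem_filter.1 hx).2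
    rw [hk, rho_e] at h
    exact h
  obtain ⟨α, β0, β1, ε, h1, h2, h3, h4, h5, h6, h7⟩ := arith (by omega : 8 < A5.card +
    (A3 false).card + (A3 true).card + C.card) b5 (b3 _) (b3 _)
    (∃ k : ℤ, R.image (rho e k) = R ∧ (k : ZMod 5) ≠ 0)
    (∃ k : ℤ, R.image (rho e k) = R ∧ (k : ZMod 3) ≠ 0)
    (fun ⟨k, hk, hk'⟩ => d5 _ hk' _ (cl5 k hk))
    (fun ⟨k, hk, hk'⟩ => ⟨d3 _ hk' _ (cl3 k hk _), d3 _ hk' _ (cl3 k hk _)⟩)
  rw [← c5] at h1
  rw [← c3] at h2 h3
  obtain ⟨W5, s5, k5⟩ := Finset.exists_subset_card_eq h1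
  obtain ⟨W0, s0, k0⟩ := Finset.exists_subset_card_eq h2
  obtain ⟨W1, s1, k1⟩ := Finset.exists_subset_card_eq h3
  obtain ⟨WC, sC, kC⟩ := Finset.exists_subset_card_eq h4
  have hsub : W5 ∪ W0 ∪ W1 ∪ WC ⊆ R := by
    rw [hU]
    exact Finset.union_subset_union (Finset.union_subset_union (Finset.union_subset_union s5 s0) s1)
      sC
  have hWc : (W5 ∪ W0 ∪ W1 ∪ WC).card = 8 := by
    rw [Finset.card_union_of_disjoint (Finset.disjoint_of_subset_left (Finset.union_subset_union
      (Finset.union_subset_union s5 s0) s1) (Finset.disjoint_of_subset_right sC dj3)),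
      Finset.card_union_of_disjoint (Finset.disjoint_of_subset_left (Finset.union_subset_union s5 s0)
        (Finset.disjoint_of_subset_right s1 dj2)),
      Finset.card_union_of_disjoint (Finset.disjoint_of_subset_left s5
        (Finset.disjoint_of_subset_right s0 dj1)), k5, k0, k1, kC, h5]
  refine ⟨W5 ∪ W0 ∪ W1 ∪ WC, hsub, hWc, fun k hk => ?_⟩
  refine Finset.eq_of_subset_of_card_le ?_ (Finset.card_image_of_injective _
    (rho e k).injective).ge
  have part5 : ∀ x ∈ W5, rho e k x ∈ W5 := by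
    intro x hx
    obtain ⟨y, hy, -⟩ := (m5 x).1 (s5 hx)
    by_cases hk0 : (k : ZMod 5) = 0
    · have : rho e k x = x := by
        rw [← hy, rho_e]
        change e (Sum.inl (y + (k : ZMod 5))) = _
        rw [hk0, add_zero]
      rwa [this]
    · rcases h6 ⟨k, hk, hk0⟩ with h8 | h8
      · rw [h8] at k5
        rw [Finset.card_eq_zero.1 k5] at hx
        exact absurd hx (Finset.notMem_empty _)
      · have h9 : W5 = R5 := Finset.eq_of_subset_of_card_le s5 (by rw [k5, h8, c5])
        rw [h9] at hx ⊢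
        obtain ⟨z, hz, rfl⟩ := Finset.mem_image.1 hx
        rw [rho_e]
        exact Finset.mem_image.2 ⟨z + (k : ZMod 5), cl5 k hk z hz, rfl⟩
  have part3 : ∀ (b : Bool) (V : Finset ℕ) (β : ℕ), V ⊆ R3 b → V.card = β →
      ((k : ZMod 3) ≠ 0 → β = 0 ∨ β = (A3 b).card) → ∀ x ∈ V, rho e k x ∈ V := by
    intro b V β hV hβ hb x hx
    obtain ⟨y, hy, -⟩ := (m3 b x).1 (hV hx)
    by_cases hk0 : (k : ZMod 3) = 0
    · have : rho e k x = x := by
        rw [← hy, rho_e]
        change e (Sum.inr (y + (k : ZMod 3), b)) = _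
        rw [hk0, add_zero]
      rwa [this]
    · rcases hb hk0 with h8 | h8
      · rw [h8] at hβ
        rw [Finset.card_eq_zero.1 hβ] at hx
        exact absurd hx (Finset.notMem_empty _)
      · have h9 : V = R3 b := Finset.eq_of_subset_of_card_le hV (by rw [hβ, h8, c3])
        rw [h9] at hx ⊢
        obtain ⟨z, hz, rfl⟩ := Finset.mem_image.1 hx
        rw [rho_e]
        exact Finset.mem_image.2 ⟨z + (k : ZMod 3), cl3 k hk b z hz, rfl⟩
  have partC : ∀ x ∈ WC, rho e k x ∈ WC := by
    intro x hx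
    rwa [rho_out e ((mC x).1 (sC hx)).2]
  intro z hz
  obtain ⟨x, hx, rfl⟩ := Finset.mem_image.1 hz
  simp only [Finset.mem_union] at hx ⊢
  rcases hx with ((hx | hx) | hx) | hx
  · exact Or.inl (Or.inl (Or.inl (part5 x hx)))
  · exact Or.inl (Or.inl (Or.inr (part3 false W0 β0 s0 k0 (fun h => (h7 ⟨k, hk, h⟩).1) x hx)))
  · exact Or.inl (Or.inr (part3 true W1 β1 s1 k1 (fun h => (h7 ⟨k, hk, h⟩).2) x hx))
  · exact Or.inr (partC x hx)

/-! ### The rotated points in the structure -/

theorem rot_aux {S : Finset ℕ} {i : ℕ} (hi : i ∉ S) (he : ∀ s ∈ insert i S, ∀ y, e y ≠ s) :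
    ∃ (Z : Finset ℕ) (τ : Equiv.Perm ℕ),
    Z.card = 11 ∧ TS S τ ∧ (∀ z ∈ Z, ∃ σ, TS S σ ∧ σ i = z) ∧ Z.image τ = Z ∧
      ∀ z ∈ Z, τ z ≠ z := by
  classical
  obtain ⟨P, hP⟩ : ∃ P : Finset ℕ, P = Finset.univ.image e := ⟨_, rfl⟩
  have mP : ∀ x, x ∈ P ↔ ∃ y, e y = x := fun x => by
    rw [hP]
    simp
  have hPS : ∀ s ∈ insert i S, s ∉ P := fun s hs h => by
    obtain ⟨y, hy⟩ := (mP s).1 h
    exact he s hs y hy
  have hcP : P.card = 11 := by
    rw [hP, Finset.card_image_of_injective _ e.injective]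
    decide
  -- the equivariant choice
  let W : Finset ℕ → Finset ℕ := fun R => if h : 8 < R.card then (exists_W e R h).choose else ∅
  have hW1 : ∀ R, 8 < R.card → W R ⊆ R ∧ (W R).card = 8 ∧
      ∀ k, R.image (rho e k) = R → (W R).image (rho e k) = W R := fun R h => by
    have h1 : W R = (exists_W e R h).choose := dif_pos h
    rw [h1]
    exact (exists_W e R h).choose_spec
  have hW2 : ∀ R, R.card ≤ 8 → W R = ∅ := fun R h => dif_neg (by omega)
  obtain ⟨F'', hF1, hF2⟩ := equiv_choice e W fun R k hk => by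
    rcases lt_or_ge 8 R.card with h | h
    · exact (hW1 R h).2.2 k hk
    · rw [hW2 R h, Finset.image_empty]
  have hv'' : Valid F'' := by
    intro Y
    obtain ⟨R, k, rfl, hR⟩ := hF2 Y
    have hc : (R.image (rho e k)).card = R.card :=
      Finset.card_image_of_injective _ (rho e k).injective
    rw [hR, hc]
    constructor
    · intro h
      exact ⟨Finset.image_subset_image (hW1 R h).1, by
        rw [Finset.card_image_of_injective _ (rho e k).injective]
        exact (hW1 R h).2.1⟩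
    · intro h
      rw [hW2 R h, Finset.image_empty]
  let F' : Finset ℕ → Finset ℕ := fun Y => if Y ∩ P = ∅ then F Y else
    if h : ∃ x, Y ∩ P = {x} then cj (Equiv.swap i h.choose) Y else F'' Y
  have f0 : ∀ Y, Y ∩ P = ∅ → F' Y = F Y := fun Y h => if_pos h
  have f1 : ∀ Y x, Y ∩ P = {x} → F' Y = cj (Equiv.swap i x) Y := fun Y x h => by
    have h1 : ¬ Y ∩ P = ∅ := by
      rw [h]
      exact Finset.singleton_ne_empty x
    have h2 : ∃ x, Y ∩ P = {x} := ⟨x, h⟩
    have h3 : h2.choose = x := Finset.singleton_injective (h2.choose_spec.symm.trans h)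
    have h4 : F' Y = cj (Equiv.swap i h2.choose) Y := (if_neg h1).trans (dif_pos h2)
    rw [h4, h3]
  have f2 : ∀ Y, Y ∩ P ≠ ∅ → (¬ ∃ x, Y ∩ P = {x}) → F' Y = F'' Y := fun Y h h' =>
    (if_neg h).trans (dif_neg h')
  have hF' : Valid F' := by
    intro Y
    by_cases h : Y ∩ P = ∅
    · rw [f0 Y h]
      exact valid_F Y
    · by_cases h' : ∃ x, Y ∩ P = {x}
      · obtain ⟨x, hx⟩ := h'
        rw [f1 Y x hx]
        exact valid_cj _ Y
      · rw [f2 Y h h']
        exact hv'' Y
  have hsub0 : ∀ Y ⊆ S, Y ∩ P = ∅ := fun Y hY => by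
    refine Finset.eq_empty_of_forall_notMem fun x hx => ?_
    obtain ⟨h1, h2⟩ := Finset.mem_inter.1 hx
    exact hPS x (Finset.mem_insert_of_mem (hY h1)) h2
  obtain ⟨g, hg1, hg2⟩ := emb hF' (S := S) (fun Y hY => f0 Y (hsub0 Y hY)) P
  obtain ⟨γ, hγ⟩ : ∃ γ, γ = rho e 1 := ⟨_, rfl⟩
  rw [← hγ] at hF1
  have γS : ∀ s ∈ insert i S, γ s = s := fun s hs => by
    rw [hγ]
    exact rho_out e (he s hs)
  have γP : ∀ x, x ∈ P ↔ γ x ∈ P := by
    intro x
    rw [mP, mP]
    constructor
    · rintro ⟨y, rfl⟩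
      exact ⟨pr 1 y, by rw [hγ, rho_e]⟩
    · rintro ⟨y, hy⟩
      refine ⟨pr (-1) y, γ.injective ?_⟩
      rw [← hy, hγ, rho_e, ← pr_add, add_neg_cancel, pr_zero]
  have γI : ∀ Y : Finset ℕ, Y.image γ ∩ P = (Y ∩ P).image γ := by
    intro Y
    ext x
    constructor
    · intro h
      obtain ⟨h1, hx⟩ := Finset.mem_inter.1 h
      obtain ⟨y, hy, rfl⟩ := Finset.mem_image.1 h1
      exact Finset.mem_image_of_mem _ (Finset.mem_inter.2 ⟨hy, (γP y).2 hx⟩)
    · intro h
      obtain ⟨y, hy, rfl⟩ := Finset.mem_image.1 h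
      obtain ⟨h1, h2⟩ := Finset.mem_inter.1 hy
      exact Finset.mem_inter.2 ⟨Finset.mem_image_of_mem _ h1, (γP y).1 h2⟩
  have swS : ∀ x ∈ P, ∀ s ∈ S, Equiv.swap i x s = s := fun x hx s hs =>
    Equiv.swap_apply_of_ne_of_ne (fun h => hi (h ▸ hs))
      (fun h => hPS s (Finset.mem_insert_of_mem hs) (h ▸ hx))
  have hequ : ∀ Y ⊆ S ∪ P, F' (Y.image γ) = (F' Y).image γ := by
    intro Y hY
    by_cases h : Y ∩ P = ∅
    · have hYS : Y ⊆ S := fun y hy => by
        rcases Finset.mem_union.1 (hY hy) with h1 | h1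
        · exact h1
        · have h2 : y ∈ Y ∩ P := Finset.mem_inter.2 ⟨hy, h1⟩
          rw [h] at h2
          exact absurd h2 (Finset.notMem_empty _)
      have hid : ∀ Z ⊆ S, Z.image γ = Z := fun Z hZ => by
        have h1 : Z.image γ = Z.image id := Finset.image_congr fun z hz =>
          γS z (Finset.mem_insert_of_mem (hZ (Finset.mem_coe.1 hz)))
        rw [h1, Finset.image_id]
      rw [hid Y hYS, f0 Y h, hid _ ((valid_F.sub Y).trans hYS)]
    · by_cases h' : ∃ x, Y ∩ P = {x}
      · obtain ⟨x, hx⟩ := h'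
        have hxP : x ∈ P := by
          have h1 : x ∈ Y ∩ P := by
            rw [hx]
            exact Finset.mem_singleton_self x
          exact (Finset.mem_inter.1 h1).2
        have h1 : Y.image γ ∩ P = {γ x} := by rw [γI, hx, Finset.image_singleton]
        rw [f1 _ _ h1, f1 _ _ hx]
        set Y0 := Y.image (Equiv.swap i x) with hY0
        have hY1 : Y0.image (Equiv.swap i x) = Y := by
          have h2 := image_symm (Equiv.swap i x) Y
          rwa [Equiv.symm_swap] at h2
        have hY0S : Y0 ⊆ insert i S := by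
          intro z hz
          obtain ⟨y, hy, rfl⟩ := Finset.mem_image.1 hz
          rcases Finset.mem_union.1 (hY hy) with h2 | h2
          · rw [swS x hxP y h2]
            exact Finset.mem_insert_of_mem h2
          · have h3 : y ∈ Y ∩ P := Finset.mem_inter.2 ⟨hy, h2⟩
            rw [hx, Finset.mem_singleton] at h3
            rw [h3, Equiv.swap_apply_right]
            exact Finset.mem_insert_self _ _
        have hsw : ∀ z ∈ insert i S, (γ * Equiv.swap i x) z = Equiv.swap i (γ x) z := by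
          intro z hz
          change γ (Equiv.swap i x z) = _
          rcases Finset.mem_insert.1 hz with rfl | hz
          · rw [Equiv.swap_apply_left, Equiv.swap_apply_left]
          · rw [swS x hxP z hz, swS (γ x) ((γP x).1 hxP) z hz,
              γS z (Finset.mem_insert_of_mem hz)]
        have e1 : Y.image γ = Y0.image (Equiv.swap i (γ x)) := by
          conv_lhs => rw [← hY1]
          rw [← image_mul γ (Equiv.swap i x) Y0]
          exact Finset.image_congr fun z hz => hsw z (hY0S (Finset.mem_coe.1 hz))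
        rw [e1, cj_image]
        conv_rhs => rw [← hY1]
        rw [cj_image, ← image_mul γ (Equiv.swap i x) (F Y0)]
        exact (Finset.image_congr fun z hz =>
          hsw z (hY0S (valid_F.sub Y0 (Finset.mem_coe.1 hz)))).symm
      · have h1 : Y.image γ ∩ P ≠ ∅ := by
          rw [γI]
          intro h2
          exact h (Finset.image_eq_empty.1 h2)
        have h2 : ¬ ∃ x, Y.image γ ∩ P = {x} := by
          rintro ⟨x, hx⟩
          rw [γI] at hx
          refine h' ⟨γ.symm x, ?_⟩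
          have h3 := congrArg (fun Z => Z.image γ.symm) hx
          simp only [image_symm, Finset.image_singleton] at h3
          exact h3
        rw [f2 _ h1 h2, f2 _ h h']
        exact hF1 Y
  -- the automorphism
  have gS : ∀ s ∈ S, g.symm s = s := fun s hs => by
    rw [Equiv.symm_apply_eq, hg1 s hs]
  have hPI : PI (g * γ * g.symm) ((S ∪ P).image g) := by
    intro Y' hY'
    obtain ⟨Y, hY, rfl⟩ : ∃ Y, Y ⊆ S ∪ P ∧ Y.image g = Y' := by
      refine ⟨Y'.image g.symm, ?_, symm_image g Y'⟩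
      have h1 := Finset.image_subset_image (f := g.symm) hY'
      rwa [image_symm] at h1
    have hγY : Y.image γ ⊆ S ∪ P := by
      intro z hz
      obtain ⟨y, hy, rfl⟩ := Finset.mem_image.1 hz
      rcases Finset.mem_union.1 (hY hy) with h2 | h2
      · rw [γS y (Finset.mem_insert_of_mem h2)]
        exact Finset.mem_union_left _ h2
      · exact Finset.mem_union_right _ ((γP y).1 h2)
    have h1 : ∀ Z : Finset ℕ, (Z.image g).image (g * γ * g.symm : Equiv.Perm ℕ) =
        (Z.image γ).image g := fun Z => by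
      rw [image_mul (g * γ) g.symm, image_symm, image_mul]
    rw [h1, hg2 _ hγY, hg2 _ hY, h1, hequ Y hY]
  obtain ⟨τ, hτ1, hτ2⟩ := hom hPI
  have hτS : ∀ s ∈ S, τ s = s := by
    intro s hs
    have h1 : s ∈ (S ∪ P).image g :=
      Finset.mem_image.2 ⟨s, Finset.mem_union_left _ hs, hg1 s hs⟩
    rw [hτ2 s h1]
    change g (γ (g.symm s)) = s
    rw [gS s hs, γS s (Finset.mem_insert_of_mem hs), hg1 s hs]
  have hτP : ∀ x ∈ P, τ (g x) = g (γ x) := by
    intro x hx
    rw [hτ2 _ (Finset.mem_image_of_mem _ (Finset.mem_union_right _ hx))]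
    change g (γ (g.symm (g x))) = _
    rw [Equiv.symm_apply_apply]
  have hfix : ∀ y : Om, pr 1 y ≠ y := by decide
  refine ⟨P.image g, τ, ?_, ⟨hτ1, hτS⟩, fun z hz => ?_, ?_, fun z hz => ?_⟩
  · rw [Finset.card_image_of_injective _ g.injective, hcP]
  · obtain ⟨x, hx, rfl⟩ := Finset.mem_image.1 hz
    have hPI2 : PI (g * Equiv.swap i x) (insert i S) := by
      intro Y hY
      have h1 : Y.image (Equiv.swap i x) ⊆ S ∪ P := by
        intro z hz
        obtain ⟨y, hy, rfl⟩ := Finset.mem_image.1 hz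
        rcases Finset.mem_insert.1 (hY hy) with h | h
        · rw [h, Equiv.swap_apply_left]
          exact Finset.mem_union_right _ hx
        · rw [swS x hx y h]
          exact Finset.mem_union_left _ h
      rw [image_mul g (Equiv.swap i x) Y, hg2 _ h1, image_mul g (Equiv.swap i x) (F Y)]
      congr 1
      by_cases hiY : i ∈ Y
      · have h2 : Y.image (Equiv.swap i x) ∩ P = {x} := by
          ext z
          rw [Finset.mem_inter, Finset.mem_singleton]
          constructor
          · rintro ⟨h3, h4⟩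
            obtain ⟨y, hy, rfl⟩ := Finset.mem_image.1 h3
            rcases Finset.mem_insert.1 (hY hy) with h | h
            · rw [h, Equiv.swap_apply_left]
            · rw [swS x hx y h] at h4
              exact absurd h4 (hPS y (Finset.mem_insert_of_mem h))
          · rintro rfl
            exact ⟨Finset.mem_image.2 ⟨i, hiY, Equiv.swap_apply_left _ _⟩, hx⟩
        rw [f1 _ _ h2, cj_image]
      · have h2 : Y ⊆ S := fun y hy => (Finset.mem_insert.1 (hY hy)).resolve_left
          fun h => hiY (h ▸ hy)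
        have h3 : ∀ Z ⊆ S, Z.image (Equiv.swap i x) = Z := fun Z hZ => by
          have h4 : Z.image (Equiv.swap i x) = Z.image id := Finset.image_congr fun z hz =>
            swS x hx z (hZ (Finset.mem_coe.1 hz))
          rw [h4, Finset.image_id]
        rw [h3 Y h2, h3 _ ((valid_F.sub Y).trans h2), f0 Y (hsub0 Y h2)]
    obtain ⟨σ, hσ1, hσ2⟩ := hom hPI2
    refine ⟨σ, ⟨hσ1, fun s hs => ?_⟩, ?_⟩
    · rw [hσ2 s (Finset.mem_insert_of_mem hs)]
      change g (Equiv.swap i x s) = s
      rw [swS x hx s hs, hg1 s hs]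
    · rw [hσ2 i (Finset.mem_insert_self _ _)]
      change g (Equiv.swap i x i) = g x
      rw [Equiv.swap_apply_left]
  · refine Finset.eq_of_subset_of_card_le ?_ (Finset.card_image_of_injective _ τ.injective).ge
    intro z hz
    obtain ⟨w, hw, rfl⟩ := Finset.mem_image.1 hz
    obtain ⟨x, hx, rfl⟩ := Finset.mem_image.1 hw
    rw [hτP x hx]
    exact Finset.mem_image_of_mem _ ((γP x).1 hx)
  · obtain ⟨x, hx, rfl⟩ := Finset.mem_image.1 hz
    rw [hτP x hx]
    intro h
    obtain ⟨y, rfl⟩ := (mP x).1 hx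
    have h1 := g.injective h
    rw [hγ, rho_e] at h1
    exact hfix y (e.injective h1)

theorem rot (S : Finset ℕ) {i : ℕ} (hi : i ∉ S) : ∃ (Z : Finset ℕ) (τ : Equiv.Perm ℕ),
    Z.card = 11 ∧ TS S τ ∧ (∀ z ∈ Z, ∃ σ, TS S σ ∧ σ i = z) ∧ Z.image τ = Z ∧
      ∀ z ∈ Z, τ z ≠ z := by
  refine rot_aux ⟨fun y => (insert i S).sup id + 1 + (Fintype.equivFin Om y : ℕ), fun y y' h => ?_⟩
    hi fun s hs y h => ?_
  · have h1 : ((Fintype.equivFin Om y : ℕ)) = (Fintype.equivFin Om y' : ℕ) :=
      Nat.add_left_cancel h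
    exact (Fintype.equivFin Om).injective (Fin.ext h1)
  · have h1 : s ≤ (insert i S).sup id := Finset.le_sup (f := id) hs
    change (insert i S).sup id + 1 + (Fintype.equivFin Om y : ℕ) = s at h
    omega

end Pool.Agent.R602.RC
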