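import Pool.Agent.R602.RC.LemA
import Pool.Agent.R602.RC.Comb
import Pool.Agent.R602.RC.Rot

/-!
# Changing a block
-/

set_option autoImplicit false
set_option linter.unusedSectionVars false
set_option linter.unusedVariables false

namespace Pool.Agent.R602.RC

open Pool.Agent.W868 Pool.Agent.W868.PName Pool.Agent.R598.SY
open ZFSet (pair)

/-- The relation `f` chooses eight elements of each finite subset of `y` with more than eight
elements. -/
def Cho (M : Set ZFSet.{0}) (y f : ZFSet.{0}) : Prop :=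
  ∀ z ∈ M, ∀ s : Finset ZFSet.{0}, (∀ w, w ∈ z ↔ w ∈ s) → (∀ w ∈ s, w ∈ y) → 8 < s.card →
    ∃ u ∈ M, ∃ t : Finset ZFSet.{0}, t ⊆ s ∧ t.card = 8 ∧ (∀ w, w ∈ u ↔ w ∈ t) ∧
      ∀ w, pair z w ∈ f ↔ w = u

theorem self_Dd (S : Finset ℕ) (i : ℕ) : i ∈ Dd S i := ⟨1, ⟨T.one_mem, fun _ _ => rfl⟩, rfl⟩

theorem Dd_notMem {S : Finset ℕ} {i i' : ℕ} (hi : i ∉ S) (h : i' ∈ Dd S i) : i' ∉ S := by
  obtain ⟨τ, hτ, rfl⟩ := h
  intro h1
  have h2 := hτ.2 _ h1
  rw [τ.injective h2] at h1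
  exact hi h1

theorem Dd_trans {S : Finset ℕ} {i i1 i2 : ℕ} (h1 : i1 ∈ Dd S i) (h2 : i2 ∈ Dd S i) :
    ∃ τ, TS S τ ∧ τ i1 = i2 := by
  obtain ⟨α, hα, rfl⟩ := h1
  obtain ⟨β, hβ, rfl⟩ := h2
  refine ⟨β * α⁻¹, ⟨T.mul_mem hβ.1 (T.inv_mem hα.1), fun s hs => ?_⟩, ?_⟩
  · change β (α.symm s) = s
    have h1 : α.symm s = s := by rw [Equiv.symm_apply_eq, hα.2 s hs]
    rw [h1, hβ.2 s hs]
  · change β (α.symm (α i)) = β i
    rw [Equiv.symm_apply_apply]

theorem Dd_inf {S : Finset ℕ} {i : ℕ} (hi : i ∉ S) : (Dd S i).Infinite := by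
  classical
  intro hfin
  obtain ⟨Z, τ, h1, h2, h3, -, -⟩ := rot (S ∪ hfin.toFinset.erase i) (i := i) (by
    rw [Finset.mem_union, Finset.mem_erase, not_or]
    exact ⟨hi, fun h => h.1 rfl⟩)
  have h4 : Z ⊆ {i} := by
    intro z hz
    rw [Finset.mem_singleton]
    obtain ⟨σ, hσ, rfl⟩ := h3 z hz
    by_contra hne
    have h5 : σ i ∈ Dd S i := ⟨σ, ⟨hσ.1, fun s hs => hσ.2 s (Finset.mem_union_left _ hs)⟩, rfl⟩
    have h6 := hσ.2 (σ i) (Finset.mem_union_right _ (Finset.mem_erase.2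
      ⟨hne, hfin.mem_toFinset.2 h5⟩))
    exact hne (σ.injective h6)
  have h5 := Finset.card_le_card h4
  rw [Finset.card_singleton] at h5
  omega

theorem tB_eq {v : PName P} {S : Finset ℕ} {E : Finset K} {i : ℕ}
    (hv : sys.Fix (fixE (insert i S) E) v) (hES : ∀ a ∈ E, a.1 ∈ S) {g : G}
    (hb : ∀ k ∈ S, bl g k = k) (hE : ∀ a ∈ E, g.1 a = a) {i' : ℕ} (hgi : bl g i = i')
    (hi' : i' ∈ Dd S i) (p : P) : Feq (act (sys.ac g) v) (tB v S i i') p := by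
  unfold tB
  refine act_feq hv (fun k hk => ?_) (fun a ha => ?_) p
  · change _ = tau S i i' k
    rcases Finset.mem_insert.1 hk with rfl | hk
    · rw [hgi, (tau_spec hi').2]
    · rw [hb k hk, (tau_spec hi').1.2 k hk]
  · rw [hE a ha, rBk_fix hv hES hi' ha]

section

variable {π : Pkg P} {r : X} (h : Good π r)

include h

theorem lemB {S : Finset ℕ} {E : Finset K} {i : ℕ} (hi : i ∉ S) (hES : ∀ a ∈ E, a.1 ∈ S)
    {X0 u : ZFSet.{0}} (hX : X0 ∈ Nsp π S E) (hu : u ∈ Nsp π (insert i S) E)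
    (hu' : u ∉ Nsp π S E) (huX : u ∈ X0) : ∃ y ∈ sys.Ms π, y ⊆ X0 ∧ {z | z ∈ y}.Infinite ∧
      ∃ f ∈ sys.Ms π, Cho (sys.Ms π) y f := by
  classical
  obtain ⟨c, hc, hcs, hcf, rfl⟩ := hX
  obtain ⟨v, hv, hvs, hvf, rfl⟩ := hu
  have hself : π.val (tB v S i i) = π.val v := by
    refine val_of_feq h (h.ftb v hv _ _ _) hv fun p => ?_
    have h1 := tB_eq hvf hES (g := 1) (fun k _ => rfl) (fun a _ => rfl) (i' := i) rfl
      (self_Dd S i) p
    rw [act_id] at h1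
    exact h1.symm
  have B1 : ∀ i' ∈ Dd S i, π.val (tB v S i i') ∈ π.val c := by
    intro i' hi'
    obtain ⟨w, hw, hmv⟩ := move h.gen (op_BV v c) ((val_mem h.gpt hv hc).1 huX)
    obtain ⟨g, m1, m2, m3⟩ := hmv (rBk S i i') E (fun d hd hdE => by
      rw [rBk_fix hvf hES hi' hdE]
      exact hw d hd)
    have m2' : ∀ k, bl g k = tau S i i' k := m2
    have hgb : ∀ k ∈ S, bl g k = k := fun k hk => by rw [m2', (tau_spec hi').1.2 k hk]
    have hgE : ∀ a ∈ E, g.1 a = a := fun a ha => by rw [m1 a ha, rBk_fix hvf hES hi' ha]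
    have hgi : bl g i = i' := by rw [m2', (tau_spec hi').2]
    rw [← BV_act, BV_congr (fun p => tB_eq hvf hES hgb hgE hgi hi' p) (hcf g ⟨hgb, hgE⟩)] at m3
    exact (val_mem h.gpt (h.ftb v hv _ _ _) hc).2 m3
  have B2 : ∀ α, TS S α → ∀ i1 ∈ Dd S i, ∀ i2 ∈ Dd S i,
      π.val (tB v S i i1) = π.val (tB v S i i2) →
      π.val (tB v S i (α i1)) = π.val (tB v S i (α i2)) := by
    intro α hα i1 h1 i2 h2 he
    obtain ⟨w, hw, hmv⟩ := move h.gen (op_BE _ _)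
      ((val_eq h.gpt (h.ftb v hv S i i1) (h.ftb v hv S i i2)).1 he)
    have hfix : ∀ a ∈ E, (lf α hα.1).1 a = a := fun a ha => by
      rw [lf_apply, hα.2 _ (hES a ha)]
    obtain ⟨g, m1, m2, m3⟩ := hmv (lf α hα.1) E (fun d hd hdE => by
      rw [hfix _ hdE]
      exact hw d hd)
    have m2' : ∀ k, bl g k = α k := m2
    have hgb : ∀ k ∈ S, bl g k = k := fun k hk => by rw [m2', hα.2 k hk]
    have hgE : ∀ a ∈ E, g.1 a = a := fun a ha => by rw [m1 a ha, hfix a ha]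
    have e1 := (act_tB hvf hES hgb hgE h1).2
    have e2 := (act_tB hvf hES hgb hgE h2).2
    rw [m2'] at e1 e2
    rw [← BE_act, BE_congr e1 e2] at m3
    exact (val_eq h.gpt (h.ftb v hv _ _ _) (h.ftb v hv _ _ _)).2 m3
  have hinj : ∀ i1 ∈ Dd S i, ∀ i2 ∈ Dd S i,
      π.val (tB v S i i1) = π.val (tB v S i i2) → i1 = i2 := by
    intro i1 h1 i2 h2 he
    by_contra hne
    have hconst : ∀ k1 ∈ Dd S i, ∀ k2 ∈ Dd S i,
        π.val (tB v S i k1) = π.val (tB v S i k2) := by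
      intro k1 hk1 k2 hk2
      by_cases hk : k1 = k2
      · rw [hk]
      obtain ⟨α, hα, e1⟩ := Dd_trans h1 hk1
      obtain ⟨β, hβ, e2⟩ := Dd_trans h1 hk2
      obtain ⟨m, τ, τ', hτ, hτ', a1, a2, a3, a4⟩ := prim (Dd_notMem hi h1) (Dd_notMem hi h2) hne
        hk hα hβ e1 e2
      have b1 := B2 τ hτ i1 h1 i2 h2 he
      have b2 := B2 τ' hτ' i1 h1 i2 h2 he
      rw [a1, a2] at b1
      rw [a3, a4] at b2
      rw [b1, b2]
    refine hu' ⟨uB v S i, h.fub v hv _ _, hs_uB hvf hES hvs, fix_uB hvf hES,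
      val_uN h (fun z => op_UB _ _ _ z) fun z hz => ?_⟩
    constructor
    · intro hr
      obtain ⟨⟨j1, h3⟩, h4⟩ := Set.mem_iUnion.1 hr
      rw [← hself, hconst i (self_Dd S i) j1 h3]
      exact (val_mem h.gpt hz (h.ftb v hv _ _ _)).2 h4
    · intro hz'
      refine Set.mem_iUnion.2 ⟨⟨i, self_Dd S i⟩, ?_⟩
      rw [← hself] at hz'
      exact (val_mem h.gpt hz (h.ftb v hv _ _ _)).1 hz'
  have hmy : ∀ z, z ∈ π.val (yB v S i) ↔ ∃ k ∈ Dd S i, z = π.val (tB v S i k) := by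
    intro z
    refine (val_fN (z := fun k : {k // k ∈ Dd S i} => tB v S i k.1)
      (O := fun _ : {k // k ∈ Dd S i} => Set.univ) h.gpt
      (fun j => h.ftb v hv _ _ j.1) (fun j => op_univ)).trans ?_
    constructor
    · rintro ⟨⟨j, hj⟩, h1, rfl⟩
      exact ⟨j, hj, rfl⟩
    · rintro ⟨j, hj, rfl⟩
      exact ⟨⟨j, hj⟩, trivial, rfl⟩
  have hms : ∀ Y z, z ∈ π.val (sB v S i Y) ↔ ∃ k ∈ Y, z = π.val (tB v S i k) := by
    intro Y z
    refine (val_fN (z := fun k : {k // k ∈ Y} => tB v S i k.1)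
      (O := fun _ : {k // k ∈ Y} => Set.univ) h.gpt
      (fun j => h.ftb v hv _ _ j.1) (fun j => op_univ)).trans ?_
    constructor
    · rintro ⟨⟨j, hj⟩, h1, rfl⟩
      exact ⟨j, hj, rfl⟩
    · rintro ⟨j, hj, rfl⟩
      exact ⟨⟨j, hj⟩, trivial, rfl⟩
  have hmf : ∀ z, z ∈ π.val (fB v S i) ↔ ∃ Y : Finset ℕ, (8 < Y.card ∧ ∀ y ∈ Y, y ∈ Dd S i) ∧
      z = pair (π.val (sB v S i Y)) (π.val (sB v S i (F Y))) := by
    intro z
    refine (val_fN (z := fun Y : {Y : Finset ℕ // 8 < Y.card ∧ ∀ y ∈ Y, y ∈ Dd S i} =>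
        opN (sB v S i Y.1) (sB v S i (F Y.1)))
      (O := fun _ : {Y : Finset ℕ // 8 < Y.card ∧ ∀ y ∈ Y, y ∈ Dd S i} => Set.univ) h.gpt
      (fun Y => π.opN_mem (h.fsb v hv _ _ _) (h.fsb v hv _ _ _)) (fun j => op_univ)).trans ?_
    constructor
    · rintro ⟨⟨Y, hY⟩, h1, rfl⟩
      exact ⟨Y, hY, π.val_opN (h.fsb v hv _ _ _) (h.fsb v hv _ _ _)⟩
    · rintro ⟨Y, hY, rfl⟩
      exact ⟨⟨Y, hY⟩, trivial, (π.val_opN (h.fsb v hv _ _ _) (h.fsb v hv _ _ _)).symm⟩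
  refine ⟨π.val (yB v S i), ⟨_, ⟨h.fyb v hv _ _, hs_yB hvf hES hvs⟩, rfl⟩, fun z hz => ?_,
    ?_, π.val (fB v S i), ⟨_, ⟨h.ffb v hv _ _, hs_fB hvf hES hvs⟩, rfl⟩, ?_⟩
  · obtain ⟨k, h1, rfl⟩ := (hmy z).1 hz
    exact B1 k h1
  · refine ((Dd_inf hi).image (f := fun j => π.val (tB v S i j)) fun j1 h1 j2 h2 he => ?_).mono ?_
    · exact hinj j1 h1 j2 h2 he
    · rintro _ ⟨j, h1, rfl⟩
      exact (hmy _).2 ⟨j, h1, rfl⟩
  · intro z hz s hs hsy h8
    have h1 : ∀ w ∈ s, ∃ k ∈ Dd S i, w = π.val (tB v S i k) := fun w hw => (hmy w).1 (hsy w hw)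
    choose! k hk hk' using h1
    obtain ⟨Y, hY⟩ : ∃ Y, Y = s.image k := ⟨_, rfl⟩
    have hYD : ∀ y ∈ Y, y ∈ Dd S i := fun y hy => by
      rw [hY] at hy
      obtain ⟨w, hw, rfl⟩ := Finset.mem_image.1 hy
      exact hk w hw
    have hYc : Y.card = s.card := by
      rw [hY]
      refine Finset.card_image_of_injOn fun w hw w' hw' he => ?_
      rw [hk' w hw, hk' w' hw']
      exact congrArg (fun j => π.val (tB v S i j)) he
    have hzY : z = π.val (sB v S i Y) := by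
      ext w
      rw [hms, hs]
      constructor
      · intro hw
        exact ⟨k w, by rw [hY]; exact Finset.mem_image_of_mem _ hw, hk' w hw⟩
      · rintro ⟨j, hj, rfl⟩
        rw [hY] at hj
        obtain ⟨w, hw, rfl⟩ := Finset.mem_image.1 hj
        rw [← hk' w hw]
        exact hw
    have hFY : ∀ y ∈ F Y, y ∈ Dd S i := fun y hy => hYD y (valid_F.sub Y hy)
    refine ⟨π.val (sB v S i (F Y)), ⟨_, ⟨h.fsb v hv _ _ _, hs_sB hvf hES hvs _ hFY⟩, rfl⟩,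
      (F Y).image fun j => π.val (tB v S i j), ?_, ?_, ?_, ?_⟩
    · intro w hw
      obtain ⟨j, hj, rfl⟩ := Finset.mem_image.1 hw
      rw [← hs, hzY, hms]
      exact ⟨j, valid_F.sub Y hj, rfl⟩
    · rw [Finset.card_image_of_injOn fun j hj j' hj' he => hinj j (hFY j hj) j' (hFY j' hj') he]
      exact ((valid_F Y).1 (by rw [hYc]; exact h8)).2
    · intro w
      rw [hms, Finset.mem_image]
      constructor
      · rintro ⟨j, hj, rfl⟩
        exact ⟨j, hj, rfl⟩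
      · rintro ⟨j, hj, rfl⟩
        exact ⟨j, hj, rfl⟩
    · intro w
      rw [hmf]
      constructor
      · rintro ⟨Y', ⟨h2, h3⟩, he⟩
        obtain ⟨e1, e2⟩ := ZFSet.pair_inj.1 he
        have h4 : Y = Y' := by
          rw [hzY] at e1
          ext j
          constructor
          · intro hj
            have h5 : π.val (tB v S i j) ∈ π.val (sB v S i Y) := (hms _ _).2 ⟨j, hj, rfl⟩
            rw [e1] at h5
            obtain ⟨j', h6, h7⟩ := (hms _ _).1 h5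
            rw [hinj j (hYD j hj) j' (h3 j' h6) h7]
            exact h6
          · intro hj
            have h5 : π.val (tB v S i j) ∈ π.val (sB v S i Y') := (hms _ _).2 ⟨j, hj, rfl⟩
            rw [← e1] at h5
            obtain ⟨j', h6, h7⟩ := (hms _ _).1 h5
            rw [hinj j (h3 j hj) j' (hYD j' h6) h7]
            exact h6
        rw [e2, h4]
      · rintro rfl
        exact ⟨Y, ⟨by rw [hYc]; exact h8, hYD⟩, by rw [hzY]⟩

end

end Pool.Agent.R602.RC
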