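import Pool.Agent.R602.RC.Nam

/-!
# The model
-/

set_option autoImplicit false
set_option linter.unusedSectionVars false
set_option linter.unusedVariables false

namespace Pool.Agent.R602.RC

open Pool.Agent.W868 Pool.Agent.W868.PName Pool.Agent.R598.SY
open ZFSet (pair)

/-- The rule for a binary operation. -/
def rl2 (f : PName P → PName P → P → PName P) : Rule P := fun q => match q with
  | ⟨_, .mem s t, v, p⟩ => (f (tv v s) (tv v t) p, p)
  | q => (emp, q.p)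

/-- The name for a finite set of atoms. -/
noncomputable def zN (Z : Finset ℕ) : PName P := fN {k // k ∈ Z} (fun k => bN k.1) fun _ => Set.univ

/-- The rules. -/
def Rs : ℕ → Set (Rule P)
  | 0 => sys.rules
  | 1 => {rB}
  | 2 => Set.range fun t : K × ℕ => rl fun v => tA v t.1 t.2
  | 3 => Set.range fun t : K × Finset K × Finset (ℕ × Bool) => rl fun v => yA v t.1 t.2.1 t.2.2
  | 4 => Set.range fun t : K × Finset K × Finset (ℕ × Bool) => rl fun v => LA v t.1 t.2.1 t.2.2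
  | 5 => Set.range fun t : K × Finset K × Finset (ℕ × Bool) => rl fun v => uA v t.1 t.2.1 t.2.2
  | 6 => Set.range fun t : K × Finset K => rl fun v => Sys.nm P (dn (QA v t.1 t.2))
  | 7 => Set.range fun t : Finset ℕ × ℕ × ℕ => rl fun v => tB v t.1 t.2.1 t.2.2
  | 8 => Set.range fun t : Finset ℕ × ℕ => rl fun v => yB v t.1 t.2
  | 9 => Set.range fun t : Finset ℕ × ℕ × Finset ℕ => rl fun v => sB v t.1 t.2.1 t.2.2
  | 10 => Set.range fun t : Finset ℕ × ℕ => rl fun v => fB v t.1 t.2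
  | 11 => Set.range fun t : Finset ℕ × ℕ => rl fun v => uB v t.1 t.2
  | 12 => Set.range fun t : Finset ℕ × Finset K => rl2 fun v u p => pN t.1 t.2 v u p
  | 13 => Set.range fun t : Finset ℕ × Finset K => rl fun v => eN t.1 t.2 v
  | _ => ∅

/-- The names. -/
noncomputable def Ns0 : ℕ → Set (PName P)
  | 0 => {AN}
  | 1 => Set.range bN
  | 2 => Set.range xN
  | 3 => Set.range zN
  | 4 => Set.range fun t : K × ℕ => Sys.nm P (dn (Co t.1 t.2 true))
  | 5 => Set.range fun t : ℕ × Finset (ℕ × Bool) × ℕ => Sys.nm P (dn (Dn t.1 t.2.1 t.2.2))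
  | 6 => Set.range fun t : K × K => Sys.nm P (dn (Df t.1 t.2))
  | _ => ∅

theorem cnt_Rs (n : ℕ) : (Rs n).Countable := by
  match n with
  | 0 =>
    change sys.rules.Countable
    refine Set.Finite.countable ?_
    unfold Sys.rules
    exact Set.toFinite _
  | 1 => exact Set.countable_singleton _
  | 2 => exact Set.countable_range _
  | 3 => exact Set.countable_range _
  | 4 => exact Set.countable_range _
  | 5 => exact Set.countable_range _
  | 6 => exact Set.countable_range _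
  | 7 => exact Set.countable_range _
  | 8 => exact Set.countable_range _
  | 9 => exact Set.countable_range _
  | 10 => exact Set.countable_range _
  | 11 => exact Set.countable_range _
  | 12 => exact Set.countable_range _
  | 13 => exact Set.countable_range _
  | _ + 14 => exact Set.countable_empty

theorem cnt_Ns0 (n : ℕ) : (Ns0 n).Countable := by
  match n with
  | 0 => exact Set.countable_singleton _
  | 1 => exact Set.countable_range _
  | 2 => exact Set.countable_range _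
  | 3 => exact Set.countable_range _
  | 4 => exact Set.countable_range _
  | 5 => exact Set.countable_range _
  | 6 => exact Set.countable_range _
  | _ + 7 => exact Set.countable_empty

/-- The properties of the package. -/
structure Good (π : Pkg P) (r : X) : Prop where
  cld : sys.Cld π
  gpt : Gpt π r
  gen : Gen r
  an : AN ∈ π.N
  bn : ∀ i, bN i ∈ π.N
  xn : ∀ a, xN a ∈ π.N
  zn : ∀ Z, zN Z ∈ π.N
  fta : ∀ v ∈ π.N, ∀ e j, tA v e j ∈ π.N
  fya : ∀ v ∈ π.N, ∀ e E s, yA v e E s ∈ π.N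
  fla : ∀ v ∈ π.N, ∀ e E s, LA v e E s ∈ π.N
  fua : ∀ v ∈ π.N, ∀ e E s, uA v e E s ∈ π.N
  fqa : ∀ v ∈ π.N, ∀ e E, Sys.nm P (dn (QA v e E)) ∈ π.N
  ftb : ∀ v ∈ π.N, ∀ S i i', tB v S i i' ∈ π.N
  fyb : ∀ v ∈ π.N, ∀ S i, yB v S i ∈ π.N
  fsb : ∀ v ∈ π.N, ∀ S i Y, sB v S i Y ∈ π.N
  ffb : ∀ v ∈ π.N, ∀ S i, fB v S i ∈ π.N
  fub : ∀ v ∈ π.N, ∀ S i, uB v S i ∈ π.N
  fpn : ∀ v ∈ π.N, ∀ u ∈ π.N, ∀ S E k, pN S E v u (π.g k) ∈ π.N
  fen : ∀ v ∈ π.N, ∀ S E, eN S E v ∈ π.N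

theorem exists_good : ∃ π r, Good π r := by
  classical
  obtain ⟨π, hA, -, hcl⟩ := exists_pkg (⋃ n, Rs n) (Set.countable_iUnion cnt_Rs)
    (⋃ n, Ns0 n) (Set.countable_iUnion cnt_Ns0) ⊤
  have hN : ∀ n, ∀ a ∈ Ns0 n, a ∈ π.N := fun n a ha => hA (Set.mem_iUnion.2 ⟨n, ha⟩)
  have hom : (check ZFSet.omega : PName P) ∈ π.N := π.om
  have hR : ∀ n, ∀ ρ ∈ Rs n, ∀ v ∈ π.N, ∀ u ∈ π.N, ∀ k,
      (ρ ⟨0, .mem (Sum.inr v) (Sum.inr u), Fin.elim0, π.g k⟩).1 ∈ π.N := fun n ρ hρ v hv u hu k =>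
    (hcl ρ (Set.mem_iUnion.2 ⟨n, hρ⟩) _ (query2 hv hu (π.gC k))).1
  have h4 : ∀ (a : K) (k : ℕ), Sys.nm P (dn (Co a k true)) ∈ π.N := fun a k =>
    hN 4 _ ⟨(a, k), rfl⟩
  have h5 : ∀ i s k, Sys.nm P (dn (Dn i s k)) ∈ π.N := fun i s k => hN 5 _ ⟨(i, s, k), rfl⟩
  have h6 : ∀ a b, Sys.nm P (dn (Df a b)) ∈ π.N := fun a b => hN 6 _ ⟨(a, b), rfl⟩
  obtain ⟨r, hr⟩ := exists_point (π := π) h4 (fun k => hR 1 rB rfl _ hom _ hom k)
  have hdns : ∀ O, Op O → Sys.nm P (dn O) ∈ π.N →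
      (∀ U, Op U → U.Nonempty → (U ∩ O).Nonempty) → r ∈ O := by
    intro O hO hn hd
    rcases tr_dec hn hO with h | ⟨m, hm⟩
    · exact (hr _ hO).2 h
    · have h2 := hd (π.g m).1 (π.g m).2.1 (π.g m).2.2
      rw [hm] at h2
      exact absurd h2 Set.not_nonempty_empty
  refine ⟨π, r,
    { cld := fun ρ hρ => hcl ρ (Set.mem_iUnion.2 ⟨0, hρ⟩)
      gpt := hr
      gen := ⟨fun i s hs k => ?_, fun a b hab => ?_⟩
      an := hN 0 _ rfl
      bn := fun i => hN 1 _ ⟨i, rfl⟩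
      xn := fun a => hN 2 _ ⟨a, rfl⟩
      zn := fun a => hN 3 _ ⟨a, rfl⟩
      fta := fun v hv e j => hR 2 _ ⟨(e, j), rfl⟩ v hv v hv 0
      fya := fun v hv e E s => hR 3 _ ⟨(e, E, s), rfl⟩ v hv v hv 0
      fla := fun v hv e E s => hR 4 _ ⟨(e, E, s), rfl⟩ v hv v hv 0
      fua := fun v hv e E s => hR 5 _ ⟨(e, E, s), rfl⟩ v hv v hv 0
      fqa := fun v hv e E => hR 6 _ ⟨(e, E), rfl⟩ v hv v hv 0
      ftb := fun v hv S i i' => hR 7 _ ⟨(S, i, i'), rfl⟩ v hv v hv 0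
      fyb := fun v hv S i => hR 8 _ ⟨(S, i), rfl⟩ v hv v hv 0
      fsb := fun v hv S i Y => hR 9 _ ⟨(S, i, Y), rfl⟩ v hv v hv 0
      ffb := fun v hv S i => hR 10 _ ⟨(S, i), rfl⟩ v hv v hv 0
      fub := fun v hv S i => hR 11 _ ⟨(S, i), rfl⟩ v hv v hv 0
      fpn := fun v hv u hu S E k => hR 12 _ ⟨(S, E), rfl⟩ v hv u hu k
      fen := fun v hv S E => hR 13 _ ⟨(S, E), rfl⟩ v hv v hv 0 }⟩
  · obtain ⟨q, hq⟩ := hs
    obtain ⟨⟨j, hj⟩, h2⟩ := Set.mem_iUnion.1 (hdns _ (op_Dn i s k) (h5 i s k)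
      fun U hU hne => dns_Dn i s k hq hU hne)
    exact ⟨j, hj, h2⟩
  · exact hdns _ (op_Df a b) (h6 a b) fun U hU hne => dns_Df hab hU hne

/-- The sets with the support `(S, E)`. -/
def Nsp (π : Pkg P) (S : Finset ℕ) (E : Finset K) : Set ZFSet.{0} :=
  {u | ∃ t ∈ π.N, sys.HS t ∧ sys.Fix (fixE S E) t ∧ π.val t = u}

/-- The relation `L` is a strict linear order of `y`. -/
def IsLin (L y : ZFSet.{0}) : Prop :=
  (∀ u ∈ y, pair u u ∉ L) ∧
    (∀ u ∈ y, ∀ v ∈ y, ∀ w ∈ y, pair u v ∈ L → pair v w ∈ L → pair u w ∈ L) ∧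
    ∀ u ∈ y, ∀ v ∈ y, u ≠ v → pair u v ∈ L ∨ pair v u ∈ L

theorem fix_mono {S S' : Finset ℕ} {E E' : Finset K} (hS : S ⊆ S') (hE : E ⊆ E') {t : PName P}
    (h : sys.Fix (fixE S E) t) : sys.Fix (fixE S' E') t := h.mono fun _ hg => fixE_mono hS hE hg

theorem Nsp_mono {π : Pkg P} {S S' : Finset ℕ} {E E' : Finset K} (hS : S ⊆ S') (hE : E ⊆ E') :
    Nsp π S E ⊆ Nsp π S' E' := by
  rintro _ ⟨t, h1, h2, h3, rfl⟩
  exact ⟨t, h1, h2, fix_mono hS hE h3, rfl⟩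

theorem Nsp_sub {π : Pkg P} {S : Finset ℕ} {E : Finset K} : Nsp π S E ⊆ sys.Ms π := by
  rintro _ ⟨t, h1, h2, -, rfl⟩
  exact ⟨t, ⟨h1, h2⟩, rfl⟩

theorem exists_Nsp {π : Pkg P} {u : ZFSet.{0}} (hu : u ∈ sys.Ms π) : ∃ S E,
    (∀ a ∈ E, a.1 ∈ S) ∧ u ∈ Nsp π S E := by
  classical
  obtain ⟨t, ⟨ht, hts⟩, rfl⟩ := hu
  obtain ⟨_, ⟨S, E, rfl⟩, hE⟩ := hts.sym
  exact ⟨S ∪ E.image Prod.fst, E, fun a ha => Finset.mem_union_right _
    (Finset.mem_image_of_mem _ ha), t, ht, hts, fix_mono Finset.subset_union_left subset_rfl hE, rfl⟩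

section

variable {π : Pkg P} {r : X} (h : Good π r)

include h

theorem isZF : IsZF (sys.Ms π) := T_ZF.main T_TRU.main T_SEP.main _ _ π h.cld

theorem nN (m : ℕ) : (check (nat m) : PName P) ∈ π.N := π.nat_Z m

theorem nV (m : ℕ) : π.val (check (nat m)) = nat m := π.hat_nat m

theorem mem_xN {a : K} {w : ZFSet.{0}} : w ∈ π.val (xN a) ↔ ∃ n, r a n = true ∧ w = nat n := by
  unfold xN
  rw [val_fN h.gpt (fun k => nN h k) (fun k => op_Co _ _ _)]
  refine exists_congr fun n => and_congr_right fun _ => ?_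
  rw [nV h]

theorem xN_inj {a b : K} (hab : π.val (xN a) = π.val (xN b)) : a = b := by
  by_contra hne
  obtain ⟨n, hn⟩ := h.gen.g2 a b hne
  have key : ∀ a b : K, π.val (xN a) = π.val (xN b) → r a n = true → r b n = true := by
    intro a b hab ha
    have h1 : nat n ∈ π.val (xN a) := (mem_xN h).2 ⟨n, ha, rfl⟩
    rw [hab] at h1
    obtain ⟨m, hm, e⟩ := (mem_xN h).1 h1
    rwa [nat_injective e]
  cases ha : r a n
  · cases hb : r b n
    · rw [ha, hb] at hn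
      exact hn rfl
    · have h1 := key b a hab.symm hb
      rw [ha] at h1
      cases h1
  · have h1 := key a b hab ha
    rw [ha, h1] at hn
    exact hn rfl

theorem mem_bN {i : ℕ} {w : ZFSet.{0}} : w ∈ π.val (bN i) ↔ ∃ j, w = π.val (xN (i, j)) := by
  unfold bN
  rw [val_fN h.gpt (fun k => h.xn _) (fun k => op_univ)]
  simp

theorem bN_inj {i j : ℕ} (hij : π.val (bN i) = π.val (bN j)) : i = j := by
  have h1 : π.val (xN (i, 0)) ∈ π.val (bN i) := (mem_bN h).2 ⟨0, rfl⟩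
  rw [hij] at h1
  obtain ⟨k, hk⟩ := (mem_bN h).1 h1
  exact (Prod.mk.inj (xN_inj h hk)).1

theorem mem_AN {w : ZFSet.{0}} : w ∈ π.val AN ↔ ∃ i, w = π.val (bN i) := by
  unfold AN
  rw [val_fN h.gpt (fun k => h.bn _) (fun k => op_univ)]
  simp

theorem mem_zN {Z : Finset ℕ} {w : ZFSet.{0}} : w ∈ π.val (zN Z) ↔ ∃ i ∈ Z, w = π.val (bN i) := by
  unfold zN
  rw [val_fN h.gpt (fun k => h.bn _) (fun k => op_univ)]
  constructor
  · rintro ⟨⟨i, hi⟩, -, rfl⟩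
    exact ⟨i, hi, rfl⟩
  · rintro ⟨i, hi, rfl⟩
    exact ⟨⟨i, hi⟩, trivial, rfl⟩

end

end Pool.Agent.R602.RC
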