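import Pool.Agent.R602.RC.Sp

/-!
# Names
-/

set_option autoImplicit false
set_option linter.unusedSectionVars false
set_option linter.unusedVariables false

namespace Pool.Agent.R602.RC

open Pool.Agent.W868 Pool.Agent.W868.PName Pool.Agent.R598.SY
open ZFSet (pair)

/-! ### Moving the generic point -/

/-- The point is generic. -/
structure Gen (x : X) : Prop where
  g1 : ∀ (i : ℕ) (s : Finset (ℕ × Bool)), (∃ r : ℕ → Bool, ∀ c ∈ s, r c.1 = c.2) →
    ∀ k, ∃ j ≥ k, ∀ c ∈ s, x (i, j) c.1 = c.2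
  g2 : ∀ a b : K, a ≠ b → ∃ n, x a n ≠ x b n

theorem bl_inj (g : G) {i j : ℕ} (h : bl g i = bl g j) : i = j := by
  obtain ⟨τ, -, h1⟩ := bl_perm g
  rw [h1, h1] at h
  exact τ.injective h

theorem adj {x : X} (hx : Gen x) (g0 : G) (E : Finset K) (w : Bc) (y : X) (hy : y ∈ cyl w)
    (hF : ∀ c ∈ w, c.1 ∈ E → x (g0.1 c.1) c.2.1 = c.2.2) :
    ∃ g : G, (∀ a ∈ E, g.1 a = g0.1 a) ∧ (∀ i, bl g i = bl g0 i) ∧ pb g x ∈ cyl w := by
  classical
  have key : ∀ L : Finset K, ∃ h : Equiv.Perm K, (∀ a, (h a).1 = a.1) ∧ (∀ a ∈ E, h a = a) ∧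
      ∀ c ∈ w, c.1 ∈ L → x (g0.1 (h c.1)) c.2.1 = c.2.2 := by
    intro L
    induction L using Finset.induction_on with
    | empty =>
      exact ⟨1, fun _ => rfl, fun _ _ => rfl, fun c _ h => absurd h (Finset.notMem_empty _)⟩
    | insert a0 L ha0 ih =>
      obtain ⟨h, h1, h2, h3⟩ := ih
      by_cases haE : a0 ∈ E
      · refine ⟨h, h1, h2, fun c hc hcL => ?_⟩
        rcases Finset.mem_insert.1 hcL with e | hcL
        · rw [h2 c.1 (by rwa [e])]
          exact hF c hc (by rwa [e])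
        · exact h3 c hc hcL
      · let s : Finset (ℕ × Bool) := (w.filter fun c => c.1 = a0).image fun c => c.2
        have hs : ∃ r : ℕ → Bool, ∀ c ∈ s, r c.1 = c.2 := ⟨y a0, fun c hc => by
          obtain ⟨d, hd, rfl⟩ := Finset.mem_image.1 hc
          obtain ⟨hd1, hd2⟩ := Finset.mem_filter.1 hd
          have h4 := hy d hd1
          rwa [hd2] at h4⟩
        obtain ⟨N, hN⟩ := (((E ∪ L.image h).image g0.1).image Prod.snd).finite_toSet.bddAbove
        obtain ⟨j, hj, hjs⟩ := hx.g1 (bl g0 a0.1) s hs (N + 1)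
        obtain ⟨a', e'⟩ : ∃ a', g0.1 a' = (bl g0 a0.1, j) := ⟨g0.1.symm _, g0.1.apply_symm_apply _⟩
        have hb' : a'.1 = a0.1 := by
          have h4 := fst_eq g0 a'
          rw [e'] at h4
          exact (bl_inj g0 h4).symm
        have hout : a' ∉ E ∪ L.image h := by
          intro hm
          have h4 : j ∈ ((E ∪ L.image h).image g0.1).image Prod.snd :=
            Finset.mem_image.2 ⟨g0.1 a', Finset.mem_image_of_mem _ hm, by rw [e']⟩
          have h5 := hN (Finset.mem_coe.2 h4)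
          omega
        rw [Finset.mem_union, not_or] at hout
        have hst : ∀ b, h b ≠ h a0 → h b ≠ a' → (Equiv.swap (h a0) a' * h) b = h b :=
          fun b h4 h5 => Equiv.swap_apply_of_ne_of_ne h4 h5
        have h0 : (Equiv.swap (h a0) a' * h) a0 = a' := Equiv.swap_apply_left _ _
        have hne : ∀ b ∈ E, (Equiv.swap (h a0) a' * h) b = b := fun b hb => by
          have h4 := hst b (fun e => haE ((h.injective e) ▸ hb))
            (fun e => hout.1 (by rw [← e, h2 b hb]; exact hb))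
          rw [h4, h2 b hb]
        refine ⟨Equiv.swap (h a0) a' * h, fun b => ?_, hne, fun c hc hcL => ?_⟩
        · by_cases hb1 : h b = h a0
          · rw [h.injective hb1, h0, hb']
          · by_cases hb2 : h b = a'
            · have h4 : (Equiv.swap (h a0) a' * h) b = h a0 := by
                change Equiv.swap (h a0) a' (h b) = _
                rw [hb2, Equiv.swap_apply_right]
              rw [h4, h1, ← hb', ← hb2, h1]
            · rw [hst b hb1 hb2, h1]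
        · rcases Finset.mem_insert.1 hcL with e | hcL
          · rw [e, h0, e']
            exact hjs c.2 (Finset.mem_image.2 ⟨c, Finset.mem_filter.2 ⟨hc, e⟩, rfl⟩)
          · have hne0 : c.1 ≠ a0 := fun e => ha0 (e ▸ hcL)
            rw [hst c.1 (fun e => hne0 (h.injective e)) fun e => hout.2 (Finset.mem_image.2
              ⟨c.1, hcL, e⟩)]
            exact h3 c hc hcL
  obtain ⟨h, h1, h2, h3⟩ := key (w.image fun c => c.1)
  refine ⟨⟨g0.1 * h, ?_⟩, fun a ha => ?_, fun i => ?_, fun c hc => ?_⟩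
  · obtain ⟨τ, hτ, h4⟩ := g0.2
    refine ⟨τ, hτ, fun a => ?_⟩
    change (g0.1 (h a)).1 = τ a.1
    rw [h4, h1]
  · change g0.1 (h a) = g0.1 a
    rw [h2 a ha]
  · change (g0.1 (h (i, 0))).1 = bl g0 i
    rw [fst_eq, h1]
  · exact h3 c hc (Finset.mem_image_of_mem _ hc)

theorem move {x : X} (hx : Gen x) {O : Set X} (hO : Op O) (hxO : x ∈ O) : ∃ w : Bc, x ∈ cyl w ∧
    ∀ (g0 : G) (E : Finset K), (∀ c ∈ w, c.1 ∈ E → x (g0.1 c.1) c.2.1 = c.2.2) →
      ∃ g : G, (∀ a ∈ E, g.1 a = g0.1 a) ∧ (∀ i, bl g i = bl g0 i) ∧ x ∈ im g O := by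
  obtain ⟨w, h1, h2⟩ := hO x hxO
  refine ⟨w, h1, fun g0 E h => ?_⟩
  obtain ⟨g, h3, h4, h5⟩ := adj hx g0 E w x h1 h
  exact ⟨g, h3, h4, h2 h5⟩

theorem act_feq {S : Finset ℕ} {E : Finset K} {v : PName P} (hv : sys.Fix (fixE S E) v) {g g' : G}
    (hb : ∀ i ∈ S, bl g i = bl g' i) (he : ∀ a ∈ E, g.1 a = g'.1 a) (p : P) :
    Feq (act (sys.ac g) v) (act (sys.ac g') v) p := by
  have h1 : g⁻¹ * g' ∈ fixE S E := by
    refine ⟨fun i hi => ?_, fun a ha => ?_⟩
    · rw [bl_mul, ← hb i hi, ← bl_mul, inv_mul_cancel]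
      rfl
    · change g.1.symm (g'.1 a) = a
      rw [← he a ha, Equiv.symm_apply_apply]
  have h2 := hv (g⁻¹ * g') h1 (mv g⁻¹ p)
  have h3 := feq_act' (e := sys.ac g) h2
  have e1 : act (sys.ac g) (act (sys.ac (g⁻¹ * g' : G)) v) = act (sys.ac g') v := by
    rw [← act_mul]
    congr 1
    have h4 : sys.ac g * sys.ac (g⁻¹ * g' : G) = sys.ac (g * (g⁻¹ * g') : G) :=
      (acH.map_mul g (g⁻¹ * g')).symm
    rw [h4, mul_inv_cancel_left]
  have e2 : (sys.ac g) (mv g⁻¹ p) = p := mv_inv_mv g p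
  rw [e2] at h3
  have e3 : act (sys.ac g) (act (sys.ac (g⁻¹ * g' : sys.G)) v) = act (sys.ac g') v := e1
  exact (e3 ▸ h3).symm

theorem act_act (g h : G) (v : PName P) : act (sys.ac g) (act (sys.ac h) v) =
    act (sys.ac (g * h : G)) v :=
  (act_mul _ _ _).symm.trans (congrArg (fun e => act e v) (acH.map_mul g h).symm)

theorem act_id (v : PName P) : act (sys.ac (1 : G)) v = v := by
  have e : sys.ac (1 : G) = 1 := acH.map_one
  rw [e, act_one]

theorem act_feq' {v w : PName P} (h : ∀ p, Feq v w p) (g : G) (p : P) :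
    Feq (act (sys.ac g) v) (act (sys.ac g) w) p := by
  have h3 := feq_act' (e := sys.ac g) (h (mv g⁻¹ p))
  have e2 : (sys.ac g) (mv g⁻¹ p) = p := mv_inv_mv g p
  rwa [e2] at h3

theorem fix_fN' {S : Finset ℕ} {E : Finset K} {ι : Type} {z : ι → PName P} {O : ι → Set X}
    (h : ∀ g : G, g ∈ fixE S E → ∀ i, ∃ i', (∀ p, Feq (act (sys.ac g) (z i)) (z i') p) ∧
      im g (O i) = O i') (g : G) (hg : g ∈ fixE S E) (p : P) :
    Feq (act (sys.ac g) (fN ι z O)) (fN ι z O) p := by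
  rw [feq_iff']
  constructor
  · intro a c ha q _ hqc
    obtain ⟨i, h1, rfl⟩ := el_fN.1 (el_act_fN.1 ha)
    obtain ⟨i', h2, h3⟩ := h g hg i
    refine ⟨q, le_rfl, z i', q, el_fN.2 ⟨i', ?_, rfl⟩, le_rfl, h2 q⟩
    rw [← h3]
    exact (le_sub hqc).trans h1
  · intro a c ha q _ hqc
    obtain ⟨i, h1, rfl⟩ := el_fN.1 ha
    obtain ⟨i', h2, h3⟩ := h g⁻¹ ((fixE S E).inv_mem hg) i
    refine ⟨q, le_rfl, _, q, el_act_fN.2 (el_fN.2 ⟨i', ?_, rfl⟩), le_rfl, ?_⟩
    · intro y hy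
      change pb g y ∈ O i'
      rw [← h3]
      change pb g⁻¹ (pb g y) ∈ O i
      rw [pb_inv']
      exact h1 (hqc hy)
    · have h4 := act_feq' (fun p => (h2 p).symm) g q
      have e : act (sys.ac g) (act (sys.ac (g⁻¹ : G)) (z i)) = z i := by
        rw [act_act, mul_inv_cancel, act_id]
      rw [e] at h4
      exact h4

theorem fix_fN {S : Finset ℕ} {E : Finset K} {ι : Type} {z : ι → PName P} {O : ι → Set X}
    (h : ∀ g : G, g ∈ fixE S E → ∀ i, ∃ i', (∀ p, Feq (act (sys.ac g) (z i)) (z i') p) ∧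
      im g (O i) = O i') : sys.Fix (fixE S E) (fN ι z O) := fun g hg p => fix_fN' h g hg p

theorem hs_fN {S : Finset ℕ} {E : Finset K} {ι : Type} {z : ι → PName P} {O : ι → Set X}
    (hf : sys.Fix (fixE S E) (fN ι z O)) (hz : ∀ i, sys.HS (z i)) : sys.HS (fN ι z O) := by
  refine sys.hs_iff.2 ⟨⟨_, ⟨S, E, rfl⟩, hf⟩, fun y c hy => ?_⟩
  obtain ⟨i, -, rfl⟩ := el_fN.1 hy
  exact hz i

/-! ### The reals and the atoms -/

/-- The name for the real `a`. -/
noncomputable def xN (a : K) : PName P := fN ℕ (fun n => check (nat n)) fun n => Co a n true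

theorem act_xN (g : G) (a : K) (p : P) : Feq (act (sys.ac g) (xN a)) (xN (g.1 a)) p := by
  refine feq_trans (feq_of_el fun y c => el_act_fN) (feq_fN (fun k => ?_) fun k x _ => Iff.rfl)
  rw [act_check (sys.top g)]
  exact Feq.refl _ _

theorem hs_xN (a : K) : sys.HS (xN a) := by
  refine sys.hs_iff.2 ⟨⟨_, ⟨∅, {a}, rfl⟩, fun g hg p => ?_⟩, fun y c hy => ?_⟩
  · have h1 : (g : G).1 a = a := hg.2 a (Finset.mem_singleton_self _)
    have h2 := act_xN g a p
    rwa [h1] at h2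
  · obtain ⟨k, -, rfl⟩ := el_fN.1 hy
    exact sys.hs_check _

/-- The name for the atom `i`. -/
noncomputable def bN (i : ℕ) : PName P := fN ℕ (fun j => xN (i, j)) fun _ => Set.univ

theorem act_bN (g : G) (i : ℕ) (p : P) : Feq (act (sys.ac g) (bN i)) (bN (bl g i)) p := by
  rw [feq_iff']
  constructor
  · intro a c ha q _ hqc
    obtain ⟨j, h1, rfl⟩ := el_fN.1 (el_act_fN.1 ha)
    refine ⟨q, le_rfl, _, q, el_fN.2 ⟨(g.1 (i, j)).2, Set.subset_univ _, rfl⟩, le_rfl, ?_⟩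
    have h2 := act_xN g (i, j) q
    have h3 : g.1 (i, j) = (bl g i, (g.1 (i, j)).2) := Prod.ext (fst_eq g (i, j)) rfl
    rwa [h3] at h2
  · intro a c ha q _ hqc
    obtain ⟨j, h1, rfl⟩ := el_fN.1 ha
    obtain ⟨b, hb⟩ : ∃ b, g.1 b = (bl g i, j) := ⟨g.1.symm _, g.1.apply_symm_apply _⟩
    have h2 : b = (i, b.2) := by
      refine Prod.ext (bl_inj g ?_) rfl
      have h3 := fst_eq g b
      rw [hb] at h3
      exact h3.symm
    refine ⟨q, le_rfl, _, q, el_act_fN.2 (el_fN.2 ⟨b.2, Set.subset_univ _, rfl⟩), le_rfl, ?_⟩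
    have h4 := act_xN g (i, b.2) q
    rw [← h2, hb] at h4
    rw [← h2]
    exact h4

theorem hs_bN (i : ℕ) : sys.HS (bN i) := by
  refine sys.hs_iff.2 ⟨⟨_, ⟨{i}, ∅, rfl⟩, fun g hg p => ?_⟩, fun y c hy => ?_⟩
  · have h1 : bl (g : G) i = i := hg.1 i (Finset.mem_singleton_self _)
    have h2 := act_bN g i p
    rwa [h1] at h2
  · obtain ⟨k, -, rfl⟩ := el_fN.1 hy
    exact hs_xN _

/-- The name for the set of the atoms. -/
noncomputable def AN : PName P := fN ℕ bN fun _ => Set.univ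

theorem fix_AN : sys.Fix (fixE ∅ ∅) AN := fix_fN fun g _ i => ⟨bl g i, act_bN g i, rfl⟩

theorem hs_AN : sys.HS AN := hs_fN fix_AN hs_bN

/-! ### Changing a real -/

theorem swap_fst (e : K) (j : ℕ) (a : K) : (Equiv.swap e (e.1, j) a).1 = a.1 := by
  by_cases h1 : a = e
  · rw [h1, Equiv.swap_apply_left]
  · by_cases h2 : a = (e.1, j)
    · rw [h2, Equiv.swap_apply_right]
    · rw [Equiv.swap_apply_of_ne_of_ne h1 h2]

/-- The transposition of two members of a block. -/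
def rA (e : K) (j : ℕ) : G := ⟨Equiv.swap e (e.1, j), 1, T.one_mem, swap_fst e j⟩

theorem bl_rA (e : K) (j i : ℕ) : bl (rA e j) i = i := swap_fst e j (i, 0)

theorem rA_left (e : K) (j : ℕ) : (rA e j).1 e = (e.1, j) := Equiv.swap_apply_left _ _

theorem rA_ne {e : K} {j : ℕ} {a : K} (h : a ≠ e) (h' : a ≠ (e.1, j)) : (rA e j).1 a = a :=
  Equiv.swap_apply_of_ne_of_ne h h'

/-- The element with the real `e` changed to the real `j` of the same block. -/
noncomputable def tA (v : PName P) (e : K) (j : ℕ) : PName P := act (sys.ac (rA e j)) v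

section

variable {v : PName P} {e : K} {S : Finset ℕ} {E : Finset K}
  (hv : sys.Fix (fixE S (insert e E)) v) (heS : e.1 ∈ S) (heE : e ∉ E)

include hv heS heE

theorem act_tA {g : G} (hb : ∀ i ∈ S, bl g i = i) (hE : ∀ a ∈ E, g.1 a = a) {j : ℕ}
    (hj : (e.1, j) ∉ E) : ∃ j', g.1 (e.1, j) = (e.1, j') ∧ (e.1, j') ∉ E ∧
      ∀ p, Feq (act (sys.ac g) (tA v e j)) (tA v e j') p := by
  have h1 : g.1 (e.1, j) = (e.1, (g.1 (e.1, j)).2) :=
    Prod.ext ((fst_eq g _).trans (hb _ heS)) rfl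
  have h2 : (e.1, (g.1 (e.1, j)).2) ∉ E := by
    intro h
    have h3 := hE _ h
    rw [← h1] at h3 h
    have h4 := g.1.injective h3
    rw [h4] at h
    exact hj h
  refine ⟨_, h1, h2, fun p => ?_⟩
  unfold tA
  rw [act_act]
  refine act_feq hv (fun i hi => ?_) (fun a ha => ?_) p
  · rw [bl_mul, bl_rA, bl_rA, hb i hi]
  · change g.1 ((rA e j).1 a) = _
    rcases Finset.mem_insert.1 ha with rfl | ha
    · rw [rA_left, rA_left, h1]
    · have h3 : a ≠ e := fun h => heE (h ▸ ha)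
      rw [rA_ne h3 fun h => hj (h ▸ ha), rA_ne h3 fun h => h2 (h ▸ ha), hE a ha]

end

/-- The lexicographic order of two reals. -/
def Lx (a b : K) : Set X := {x | ∃ n, x a n = false ∧ x b n = true ∧ ∀ m < n, x a m = x b m}

theorem op_Lx (a b : K) : Op (Lx a b) := by
  classical
  rintro x ⟨n, h1, h2, h3⟩
  refine ⟨(Finset.range (n + 1)).image (fun m => (a, m, x a m)) ∪
    (Finset.range (n + 1)).image (fun m => (b, m, x b m)), fun c hc => ?_, fun y hy => ?_⟩
  · rcases Finset.mem_union.1 hc with hc | hc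
    · obtain ⟨m, -, rfl⟩ := Finset.mem_image.1 hc
      rfl
    · obtain ⟨m, -, rfl⟩ := Finset.mem_image.1 hc
      rfl
  · have ha : ∀ m < n + 1, y a m = x a m := fun m hm => hy (a, m, x a m)
      (Finset.mem_union_left _ (Finset.mem_image.2 ⟨m, Finset.mem_range.2 hm, rfl⟩))
    have hb : ∀ m < n + 1, y b m = x b m := fun m hm => hy (b, m, x b m)
      (Finset.mem_union_right _ (Finset.mem_image.2 ⟨m, Finset.mem_range.2 hm, rfl⟩))
    refine ⟨n, ?_, ?_, fun m hm => ?_⟩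
    · rw [ha n (by omega), h1]
    · rw [hb n (by omega), h2]
    · rw [ha m (by omega), hb m (by omega), h3 m hm]

theorem im_Lx (g : G) (a b : K) : im g (Lx a b) = Lx (g.1 a) (g.1 b) := rfl

theorem im_Sa (g : G) (a : K) (s : Finset (ℕ × Bool)) : im g (Sa a s) = Sa (g.1 a) s := rfl

/-- The name for the set of the values. -/
noncomputable def yA (v : PName P) (e : K) (E : Finset K) (s : Finset (ℕ × Bool)) : PName P :=
  fN {j : ℕ // (e.1, j) ∉ E} (fun j => tA v e j.1) fun j => Sa (e.1, j.1) s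

/-- The name for the linear order of the values. -/
noncomputable def LA (v : PName P) (e : K) (E : Finset K) (s : Finset (ℕ × Bool)) : PName P :=
  fN ({j : ℕ // (e.1, j) ∉ E} × {j : ℕ // (e.1, j) ∉ E})
    (fun t => opN (tA v e t.1.1) (tA v e t.2.1))
    fun t => Sa (e.1, t.1.1) s ∩ (Sa (e.1, t.2.1) s ∩ Lx (e.1, t.1.1) (e.1, t.2.1))

/-- The value of a member of the constant value. -/
def UA (v : PName P) (e : K) (E : Finset K) (s : Finset (ℕ × Bool)) (z : PName P) : Set X :=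
  ⋃ j : {j : ℕ // (e.1, j) ∉ E}, Sa (e.1, j.1) s ∩ BV z (tA v e j.1)

/-- The name for the constant value. -/
noncomputable def uA (v : PName P) (e : K) (E : Finset K) (s : Finset (ℕ × Bool)) : PName P :=
  fN (G × v.idx) (fun t => act (sys.ac t.1) (v.chd t.2))
    fun t => UA v e E s (act (sys.ac t.1) (v.chd t.2))

theorem op_inter {U V : Set X} (hU : Op U) (hV : Op V) : Op (U ∩ V) := hU.inter hV

theorem op_UA (v : PName P) (e : K) (E : Finset K) (s : Finset (ℕ × Bool)) (z : PName P) :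
    Op (UA v e E s z) := op_iUnion fun _ => (op_Sa _ _).inter (op_BV _ _)

/-- Two values coincide. -/
def QA (v : PName P) (e : K) (E : Finset K) : Set X :=
  ⋃ j : {j : ℕ // (e.1, j) ∉ E ∧ (e.1, j) ≠ e}, BE (tA v e j.1) v

theorem op_QA (v : PName P) (e : K) (E : Finset K) : Op (QA v e E) := op_iUnion fun _ => op_BE _ _

theorem hs_tA {v : PName P} (hv : sys.HS v) (e : K) (j : ℕ) : sys.HS (tA v e j) :=
  sys.hs_act hv _

section

variable {v : PName P} {e : K} {S : Finset ℕ} {E : Finset K}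
  (hv : sys.Fix (fixE S (insert e E)) v) (heS : e.1 ∈ S) (heE : e ∉ E)

include hv heS heE

theorem fix_yA (s : Finset (ℕ × Bool)) : sys.Fix (fixE S E) (yA v e E s) := by
  refine fix_fN fun g hg j => ?_
  obtain ⟨j', h1, h2, h3⟩ := act_tA hv heS heE hg.1 hg.2 j.2
  exact ⟨⟨j', h2⟩, h3, by rw [im_Sa, h1]⟩

theorem fix_LA (s : Finset (ℕ × Bool)) : sys.Fix (fixE S E) (LA v e E s) := by
  refine fix_fN fun g hg t => ?_
  obtain ⟨j', h1, h2, h3⟩ := act_tA hv heS heE hg.1 hg.2 t.1.2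
  obtain ⟨k', h1', h2', h3'⟩ := act_tA hv heS heE hg.1 hg.2 t.2.2
  refine ⟨(⟨j', h2⟩, ⟨k', h2'⟩), fun p => ?_, ?_⟩
  · rw [act_opN (sys.top g)]
    exact feq_opN (h3 p) (h3' p)
  · change Sa (g.1 (e.1, t.1.1)) s ∩ (Sa (g.1 (e.1, t.2.1)) s ∩
      Lx (g.1 (e.1, t.1.1)) (g.1 (e.1, t.2.1))) = _
    rw [h1, h1']

theorem im_UA {g : G} (hg : g ∈ fixE S E) (s : Finset (ℕ × Bool)) (z : PName P) :
    im g (UA v e E s z) ⊆ UA v e E s (act (sys.ac g) z) := by
  intro x hx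
  obtain ⟨j, hj1, hj2⟩ := Set.mem_iUnion.1 (show pb g x ∈ UA v e E s z from hx)
  obtain ⟨j', h1, h2, h3⟩ := act_tA hv heS heE hg.1 hg.2 j.2
  refine Set.mem_iUnion.2 ⟨⟨j', h2⟩, ?_, ?_⟩
  · change ∀ c ∈ s, x (e.1, j') c.1 = c.2
    rw [← h1]
    exact hj1
  · have h4 : x ∈ im g (BV z (tA v e j.1)) := hj2
    rw [← BV_act, BV_congr (fun p => Feq.refl _ p) h3] at h4
    exact h4

theorem im_UA' {g : G} (hg : g ∈ fixE S E) (s : Finset (ℕ × Bool)) (z : PName P) :
    im g (UA v e E s z) = UA v e E s (act (sys.ac g) z) := by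
  refine Set.Subset.antisymm (im_UA hv heS heE hg s z) fun x hx => ?_
  have h1 := im_UA hv heS heE ((fixE S E).inv_mem hg) s (act (sys.ac g) z)
  have e1 : act (sys.ac (g⁻¹ : G)) (act (sys.ac g) z) = z := by
    rw [act_act, inv_mul_cancel, act_id]
  rw [e1] at h1
  refine h1 ?_
  change pb g⁻¹ (pb g x) ∈ UA v e E s (act (sys.ac g) z)
  rw [pb_inv']
  exact hx

theorem fix_uA (s : Finset (ℕ × Bool)) : sys.Fix (fixE S E) (uA v e E s) := by
  refine fix_fN fun g hg t => ⟨(g * t.1, t.2), fun p => ?_, ?_⟩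
  · rw [act_act]
    exact Feq.refl _ _
  · change im g (UA v e E s (act (sys.ac t.1) (v.chd t.2))) =
      UA v e E s (act (sys.ac (g * t.1 : G)) (v.chd t.2))
    rw [im_UA' hv heS heE hg, act_act]

theorem hs_yA (hvs : sys.HS v) (s : Finset (ℕ × Bool)) : sys.HS (yA v e E s) :=
  hs_fN (fix_yA hv heS heE s) fun _ => hs_tA hvs _ _

theorem hs_LA (hvs : sys.HS v) (s : Finset (ℕ × Bool)) : sys.HS (LA v e E s) :=
  hs_fN (fix_LA hv heS heE s) fun _ => sys.hs_opN (hs_tA hvs _ _) (hs_tA hvs _ _)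

theorem hs_uA (hvs : sys.HS v) (s : Finset (ℕ × Bool)) : sys.HS (uA v e E s) :=
  hs_fN (fix_uA hv heS heE s) fun _ => sys.hs_act (hvs.el ⟨_, rfl, rfl⟩) _

end

/-! ### Changing a block -/

/-- The orbit of the block `i`. -/
def Dd (S : Finset ℕ) (i : ℕ) : Set ℕ := {i' | ∃ τ, TS S τ ∧ τ i = i'}

/-- The lift of an automorphism. -/
def lf (τ : Equiv.Perm ℕ) (hτ : τ ∈ T) : G :=
  ⟨{ toFun := fun a => (τ a.1, a.2)
     invFun := fun a => (τ.symm a.1, a.2)
     left_inv := fun a => Prod.ext (τ.symm_apply_apply _) rfl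
     right_inv := fun a => Prod.ext (τ.apply_symm_apply _) rfl }, τ, hτ, fun _ => rfl⟩

theorem lf_apply (τ : Equiv.Perm ℕ) (hτ : τ ∈ T) (a : K) : (lf τ hτ).1 a = (τ a.1, a.2) := rfl

theorem bl_lf (τ : Equiv.Perm ℕ) (hτ : τ ∈ T) (i : ℕ) : bl (lf τ hτ) i = τ i := rfl

/-- The chosen automorphism. -/
noncomputable def tau (S : Finset ℕ) (i i' : ℕ) : Equiv.Perm ℕ :=
  open Classical in if h : ∃ τ, TS S τ ∧ τ i = i' then h.choose else 1

theorem tau_T (S : Finset ℕ) (i i' : ℕ) : tau S i i' ∈ T := by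
  unfold tau
  split_ifs with h
  · exact h.choose_spec.1.1
  · exact T.one_mem

theorem tau_spec {S : Finset ℕ} {i i' : ℕ} (h : i' ∈ Dd S i) : TS S (tau S i i') ∧
    tau S i i' i = i' := by
  have h' : ∃ τ, TS S τ ∧ τ i = i' := h
  unfold tau
  rw [dif_pos h']
  exact h'.choose_spec

/-- The chosen element of the group. -/
noncomputable def rBk (S : Finset ℕ) (i i' : ℕ) : G := lf (tau S i i') (tau_T S i i')

/-- The element with the block `i` changed to the block `i'`. -/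
noncomputable def tB (v : PName P) (S : Finset ℕ) (i i' : ℕ) : PName P :=
  act (sys.ac (rBk S i i')) v

theorem hs_tB {v : PName P} (hv : sys.HS v) (S : Finset ℕ) (i i' : ℕ) : sys.HS (tB v S i i') :=
  sys.hs_act hv _

/-- The name for the set of the values. -/
noncomputable def yB (v : PName P) (S : Finset ℕ) (i : ℕ) : PName P :=
  fN {i' // i' ∈ Dd S i} (fun i' => tB v S i i'.1) fun _ => Set.univ

/-- The name for a finite set of values. -/
noncomputable def sB (v : PName P) (S : Finset ℕ) (i : ℕ) (Y : Finset ℕ) : PName P :=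
  fN {i' // i' ∈ Y} (fun i' => tB v S i i'.1) fun _ => Set.univ

/-- The name for the choice function. -/
noncomputable def fB (v : PName P) (S : Finset ℕ) (i : ℕ) : PName P :=
  fN {Y : Finset ℕ // 8 < Y.card ∧ ∀ y ∈ Y, y ∈ Dd S i}
    (fun Y => opN (sB v S i Y.1) (sB v S i (F Y.1))) fun _ => Set.univ

/-- The value of a member of the constant value. -/
def UB (v : PName P) (S : Finset ℕ) (i : ℕ) (z : PName P) : Set X :=
  ⋃ i' : {i' // i' ∈ Dd S i}, BV z (tB v S i i'.1)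

theorem op_UB (v : PName P) (S : Finset ℕ) (i : ℕ) (z : PName P) : Op (UB v S i z) :=
  op_iUnion fun _ => op_BV _ _

/-- The name for the constant value. -/
noncomputable def uB (v : PName P) (S : Finset ℕ) (i : ℕ) : PName P :=
  fN (G × v.idx) (fun t => act (sys.ac t.1) (v.chd t.2))
    fun t => UB v S i (act (sys.ac t.1) (v.chd t.2))

section

variable {v : PName P} {i : ℕ} {S : Finset ℕ} {E : Finset K}
  (hv : sys.Fix (fixE (insert i S) E) v) (hES : ∀ a ∈ E, a.1 ∈ S)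

include hv hES

theorem act_tB' {g g' : G} (hb : ∀ k ∈ insert i S, bl g k = bl g' k)
    (hE : ∀ a ∈ E, g.1 a = g'.1 a) (p : P) :
    Feq (act (sys.ac g) v) (act (sys.ac g') v) p := act_feq hv hb hE p

theorem rBk_fix {i' : ℕ} (h : i' ∈ Dd S i) {a : K} (ha : a ∈ E) : (rBk S i i').1 a = a := by
  change (tau S i i' a.1, a.2) = a
  rw [(tau_spec h).1.2 a.1 (hES a ha)]

theorem act_tB {g : G} (hb : ∀ k ∈ S, bl g k = k) (hE : ∀ a ∈ E, g.1 a = a) {i' : ℕ}
    (hi : i' ∈ Dd S i) : bl g i' ∈ Dd S i ∧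
      ∀ p, Feq (act (sys.ac g) (tB v S i i')) (tB v S i (bl g i')) p := by
  have h1 : bl g i' ∈ Dd S i := by
    obtain ⟨τ, hτ, h2⟩ := bl_perm g
    obtain ⟨σ, hσ, h3⟩ := hi
    refine ⟨τ * σ, ⟨T.mul_mem hτ hσ.1, fun s hs => ?_⟩, ?_⟩
    · change τ (σ s) = s
      rw [hσ.2 s hs, ← h2, hb s hs]
    · change τ (σ i) = _
      rw [h3, h2]
  refine ⟨h1, fun p => ?_⟩
  unfold tB
  rw [act_act]
  refine act_feq hv (fun k hk => ?_) (fun a ha => ?_) p
  · rw [bl_mul]
    change bl g (tau S i i' k) = tau S i (bl g i') k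
    rcases Finset.mem_insert.1 hk with rfl | hk
    · rw [(tau_spec hi).2, (tau_spec h1).2]
    · rw [(tau_spec hi).1.2 k hk, (tau_spec h1).1.2 k hk, hb k hk]
  · change g.1 ((rBk S i i').1 a) = _
    rw [rBk_fix hv hES hi ha, rBk_fix hv hES h1 ha, hE a ha]

theorem fix_yB : sys.Fix (fixE S E) (yB v S i) := by
  refine fix_fN fun g hg i' => ?_
  obtain ⟨h1, h2⟩ := act_tB hv hES hg.1 hg.2 i'.2
  exact ⟨⟨_, h1⟩, h2, rfl⟩

theorem act_sB {g : G} (hg : g ∈ fixE S E) {τ : Equiv.Perm ℕ} (hτ : ∀ k, bl g k = τ k)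
    {Y : Finset ℕ} (hY : ∀ y ∈ Y, y ∈ Dd S i) (p : P) :
    Feq (act (sys.ac g) (sB v S i Y)) (sB v S i (Y.image τ)) p := by
  rw [feq_iff']
  constructor
  · intro a c ha q _ hqc
    obtain ⟨i', -, rfl⟩ := el_fN.1 (el_act_fN.1 ha)
    obtain ⟨h1, h2⟩ := act_tB hv hES hg.1 hg.2 (hY _ i'.2)
    exact ⟨q, le_rfl, _, q, el_fN.2 ⟨⟨bl g i'.1, by
      rw [hτ]
      exact Finset.mem_image_of_mem _ i'.2⟩, Set.subset_univ _, rfl⟩, le_rfl, h2 q⟩
  · intro a c ha q _ hqc
    obtain ⟨⟨k, hk⟩, -, rfl⟩ := el_fN.1 ha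
    obtain ⟨i', hi', rfl⟩ := Finset.mem_image.1 hk
    obtain ⟨h1, h2⟩ := act_tB hv hES hg.1 hg.2 (hY _ hi')
    refine ⟨q, le_rfl, _, q, el_act_fN.2 (el_fN.2 ⟨⟨i', hi'⟩, Set.subset_univ _, rfl⟩), le_rfl, ?_⟩
    have h3 := h2 q
    rwa [hτ] at h3

theorem fix_fB : sys.Fix (fixE S E) (fB v S i) := by
  refine fix_fN fun g hg Y => ?_
  obtain ⟨τ, hτ, h1⟩ := bl_perm g
  refine ⟨⟨Y.1.image τ, ?_, fun y hy => ?_⟩, fun p => ?_, rfl⟩
  · rw [Finset.card_image_of_injective _ τ.injective]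
    exact Y.2.1
  · obtain ⟨z, hz, rfl⟩ := Finset.mem_image.1 hy
    rw [← h1]
    exact (act_tB hv hES hg.1 hg.2 (Y.2.2 z hz)).1
  · rw [act_opN (sys.top g)]
    refine feq_opN (act_sB hv hES hg h1 Y.2.2 p) ?_
    have h2 := act_sB hv hES hg h1 (fun y hy => Y.2.2 y (valid_F.sub Y.1 hy)) p
    rwa [← mem_T.1 hτ] at h2

theorem im_UB {g : G} (hg : g ∈ fixE S E) (z : PName P) :
    im g (UB v S i z) ⊆ UB v S i (act (sys.ac g) z) := by
  intro x hx
  obtain ⟨j, hj⟩ := Set.mem_iUnion.1 (show pb g x ∈ UB v S i z from hx)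
  obtain ⟨h1, h2⟩ := act_tB hv hES hg.1 hg.2 j.2
  refine Set.mem_iUnion.2 ⟨⟨_, h1⟩, ?_⟩
  have h4 : x ∈ im g (BV z (tB v S i j.1)) := hj
  rw [← BV_act, BV_congr (fun p => Feq.refl _ p) h2] at h4
  exact h4

theorem im_UB' {g : G} (hg : g ∈ fixE S E) (z : PName P) :
    im g (UB v S i z) = UB v S i (act (sys.ac g) z) := by
  refine Set.Subset.antisymm (im_UB hv hES hg z) fun x hx => ?_
  have h1 := im_UB hv hES ((fixE S E).inv_mem hg) (act (sys.ac g) z)
  have e1 : act (sys.ac (g⁻¹ : G)) (act (sys.ac g) z) = z := by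
    rw [act_act, inv_mul_cancel, act_id]
  rw [e1] at h1
  refine h1 ?_
  change pb g⁻¹ (pb g x) ∈ UB v S i (act (sys.ac g) z)
  rw [pb_inv']
  exact hx

theorem fix_uB : sys.Fix (fixE S E) (uB v S i) := by
  refine fix_fN fun g hg t => ⟨(g * t.1, t.2), fun p => ?_, ?_⟩
  · rw [act_act]
    exact Feq.refl _ _
  · change im g (UB v S i (act (sys.ac t.1) (v.chd t.2))) =
      UB v S i (act (sys.ac (g * t.1 : G)) (v.chd t.2))
    rw [im_UB' hv hES hg, act_act]

theorem hs_yB (hvs : sys.HS v) : sys.HS (yB v S i) := hs_fN (fix_yB hv hES) fun _ => hs_tB hvs _ _ _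

theorem hs_uB (hvs : sys.HS v) : sys.HS (uB v S i) :=
  hs_fN (fix_uB hv hES) fun _ => sys.hs_act (hvs.el ⟨_, rfl, rfl⟩) _

theorem hs_sB (hvs : sys.HS v) (Y : Finset ℕ) (hY : ∀ y ∈ Y, y ∈ Dd S i) : sys.HS (sB v S i Y) := by
  classical
  refine hs_fN (S := S ∪ Y) (E := E) (fix_fN fun g hg k => ⟨k, fun p => ?_, rfl⟩)
    fun _ => hs_tB hvs _ _ _
  have h1 := (act_tB hv hES (fun k hk => hg.1 k (Finset.mem_union_left _ hk)) hg.2 (hY _ k.2)).2 p
  rwa [hg.1 k.1 (Finset.mem_union_right _ k.2)] at h1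

theorem hs_fB (hvs : sys.HS v) : sys.HS (fB v S i) :=
  hs_fN (fix_fB hv hES) fun Y => sys.hs_opN (hs_sB hv hES hvs _ Y.2.2)
    (hs_sB hv hES hvs _ fun y hy => Y.2.2 y (valid_F.sub Y.1 hy))

end

/-! ### Invariant names -/

/-- An invariant name for `u`. -/
noncomputable def inv (S : Finset ℕ) (E : Finset K) (u : PName P) (p : P) : PName P :=
  open Classical in if h : ∃ σ, sys.HS σ ∧ sys.Fix (fixE S E) σ ∧ Feq u σ p then h.choose else emp

theorem hs_emp : sys.HS emp := by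
  refine sys.hs_iff.2 ⟨⟨_, ⟨∅, ∅, rfl⟩, fun g _ p => ?_⟩, fun y c hy => ?_⟩
  · rw [act_emp]
    exact Feq.refl _ _
  · obtain ⟨i, -, -⟩ := hy
    exact i.elim

theorem inv_spec {S : Finset ℕ} {E : Finset K} {u : PName P} {p : P}
    (h : ∃ σ, sys.HS σ ∧ sys.Fix (fixE S E) σ ∧ Feq u σ p) : Feq u (inv S E u p) p := by
  unfold inv
  rw [dif_pos h]
  exact h.choose_spec.2.2

theorem inv_hs (S : Finset ℕ) (E : Finset K) (u : PName P) (p : P) : sys.HS (inv S E u p) ∧
    sys.Fix (fixE S E) (inv S E u p) := by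
  unfold inv
  split_ifs with h
  · exact ⟨h.choose_spec.1, h.choose_spec.2.1⟩
  · refine ⟨hs_emp, fun g _ p => ?_⟩
    rw [act_emp]
    exact Feq.refl _ _

open Classical in
/-- The ordinal of a member of `v` and a condition. -/
noncomputable def oN (v u : PName P) (p : P) : ZFSet.{0} :=
  if h : ∃ k, v.chd k = u then
    (Ordinal.typein (WellOrderingRel (α := v.idx × P)) (h.choose, p)).toZFSet else ∅

/-- The name for a pair of an ordinal and a member of `v`. -/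
noncomputable def pN (S : Finset ℕ) (E : Finset K) (v u : PName P) (p : P) : PName P :=
  opN (check (oN v u p)) (inv S E u p)

/-- The name for the enumeration. -/
noncomputable def eN (S : Finset ℕ) (E : Finset K) (v : PName P) : PName P :=
  fN (v.idx × P) (fun t => pN S E v (v.chd t.1) t.2) fun _ => Set.univ

theorem fix_eN (S : Finset ℕ) (E : Finset K) (v : PName P) : sys.Fix (fixE S E) (eN S E v) := by
  refine fix_fN fun g hg t => ⟨t, fun p => ?_, rfl⟩
  unfold pN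
  rw [act_opN (sys.top g), act_check (sys.top g)]
  exact feq_opN (Feq.refl _ _) ((inv_hs S E _ _).2 g hg p)

theorem hs_eN (S : Finset ℕ) (E : Finset K) (v : PName P) : sys.HS (eN S E v) :=
  hs_fN (fix_eN S E v) fun _ => sys.hs_opN (sys.hs_check _) (inv_hs S E _ _).1

end Pool.Agent.R602.RC
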