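import Pool.Agent.R598.SY.T_ZF
import Pool.Agent.R598.SY.T_TRU
import Pool.Agent.R598.SY.T_SEP
import Pool.Agent.R602.RC.Comb

/-!
# Sets of Cohen reals, with the automorphisms of a structure acting on the index set
-/

set_option autoImplicit false

namespace Pool.Agent.R602.RC

open Pool.Agent.W868 Pool.Agent.W868.PName Pool.Agent.R598.SY
open ZFSet (pair)

/-- The index set: the real `(i, j)` is the member `j` of the block `i`. -/
abbrev K : Type := ℕ × ℕ

/-- The space. -/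
abbrev X : Type := K → ℕ → Bool

/-- Basic conditions. -/
abbrev Bc := Finset (K × ℕ × Bool)

/-- The basic open set. -/
def cyl (u : Bc) : Set X := {x | ∀ c ∈ u, x c.1 c.2.1 = c.2.2}

theorem mem_cyl {u : Bc} {x : X} : x ∈ cyl u ↔ ∀ c ∈ u, x c.1 c.2.1 = c.2.2 := Iff.rfl

theorem mem_cyl_union {u v : Bc} {x : X} : x ∈ cyl (u ∪ v) ↔ x ∈ cyl u ∧ x ∈ cyl v := by
  simp only [mem_cyl, Finset.mem_union]
  exact ⟨fun h => ⟨fun c hc => h c (Or.inl hc), fun c hc => h c (Or.inr hc)⟩,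
    fun h c hc => hc.elim (h.1 c) (h.2 c)⟩

theorem cyl_empty : cyl ∅ = Set.univ := by
  ext x
  simp [mem_cyl]

/-- Open sets. -/
def Op (U : Set X) : Prop := ∀ x ∈ U, ∃ u : Bc, x ∈ cyl u ∧ cyl u ⊆ U

theorem op_cyl (u : Bc) : Op (cyl u) := fun _ hx => ⟨u, hx, subset_rfl⟩

theorem op_univ : Op Set.univ := fun _ _ => ⟨∅, by rw [cyl_empty]; trivial, Set.subset_univ _⟩

theorem Op.inter {U V : Set X} (hU : Op U) (hV : Op V) : Op (U ∩ V) := by
  rintro x ⟨h1, h2⟩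
  obtain ⟨u, hu, hu'⟩ := hU x h1
  obtain ⟨v, hv, hv'⟩ := hV x h2
  refine ⟨u ∪ v, mem_cyl_union.2 ⟨hu, hv⟩, fun y hy => ?_⟩
  obtain ⟨h3, h4⟩ := mem_cyl_union.1 hy
  exact ⟨hu' h3, hv' h4⟩

theorem op_iUnion {ι : Sort*} {U : ι → Set X} (h : ∀ i, Op (U i)) : Op (⋃ i, U i) := by
  intro x hx
  obtain ⟨i, hi⟩ := Set.mem_iUnion.1 hx
  obtain ⟨u, hu, hu'⟩ := h i x hi
  exact ⟨u, hu, hu'.trans (Set.subset_iUnion U i)⟩

/-- The group: permutations of the index set that act on the blocks by an automorphism of the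
structure. -/
def Gp : Subgroup (Equiv.Perm K) where
  carrier := {ρ | ∃ τ ∈ T, ∀ a, (ρ a).1 = τ a.1}
  mul_mem' := by
    rintro ρ ρ' ⟨τ, hτ, h⟩ ⟨τ', hτ', h'⟩
    refine ⟨τ * τ', T.mul_mem hτ hτ', fun a => ?_⟩
    change (ρ (ρ' a)).1 = τ (τ' a.1)
    rw [h, h']
  one_mem' := ⟨1, T.one_mem, fun _ => rfl⟩
  inv_mem' := by
    rintro ρ ⟨τ, hτ, h⟩
    refine ⟨τ⁻¹, T.inv_mem hτ, fun a => ?_⟩
    have h1 := h (ρ.symm a)
    rw [Equiv.apply_symm_apply] at h1
    change (ρ.symm a).1 = τ.symm a.1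
    rw [h1, Equiv.symm_apply_apply]

/-- The group. -/
abbrev G : Type := Gp

/-- The action on the blocks. -/
def bl (g : G) (i : ℕ) : ℕ := (g.1 (i, 0)).1

theorem fst_eq (g : G) (a : K) : (g.1 a).1 = bl g a.1 := by
  obtain ⟨τ, -, h⟩ := g.2
  rw [h a]
  exact (h (a.1, 0)).symm

theorem bl_mul (g h : G) (i : ℕ) : bl (g * h) i = bl g (bl h i) := fst_eq g (h.1 (i, 0))

theorem bl_one (i : ℕ) : bl 1 i = i := rfl

theorem bl_perm (g : G) : ∃ τ ∈ T, ∀ i, bl g i = τ i := by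
  obtain ⟨τ, hτ, h⟩ := g.2
  exact ⟨τ, hτ, fun i => h (i, 0)⟩

/-- The inverse action on the points. -/
def pb (g : G) (x : X) : X := fun a => x (g.1 a)

theorem pb_mul (g h : G) (x : X) : pb (g * h) x = pb h (pb g x) := rfl

theorem pb_one (x : X) : pb 1 x = x := rfl

theorem pb_inv (g : G) (x : X) : pb g (pb g⁻¹ x) = x := by
  rw [← pb_mul, inv_mul_cancel, pb_one]

theorem pb_inv' (g : G) (x : X) : pb g⁻¹ (pb g x) = x := by
  rw [← pb_mul, mul_inv_cancel, pb_one]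

theorem op_pb (g : G) {U : Set X} (hU : Op U) : Op (pb g ⁻¹' U) := by
  classical
  intro x hx
  obtain ⟨u, hu, hu'⟩ := hU _ hx
  refine ⟨u.image fun c => (g.1 c.1, c.2.1, c.2.2), fun c hc => ?_, fun y hy => hu' ?_⟩
  · obtain ⟨d, hd, rfl⟩ := Finset.mem_image.1 hc
    exact hu d hd
  · intro d hd
    exact hy (g.1 d.1, d.2.1, d.2.2) (Finset.mem_image_of_mem _ hd)

/-- Conditions: nonempty open sets. -/
def P : Type := {U : Set X // Op U ∧ U.Nonempty}

instance : Preorder P where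
  le U V := U.1 ⊆ V.1
  le_refl _ := subset_rfl
  le_trans _ _ _ h h' := h.trans h'

instance : OrderTop P where
  top := ⟨Set.univ, op_univ, Set.univ_nonempty⟩
  le_top _ := Set.subset_univ _

theorem le_sub {U V : P} (h : U ≤ V) : U.1 ⊆ V.1 := h

theorem top_val : (⊤ : P).1 = Set.univ := rfl

/-- A basic condition. -/
def pc (u : Bc) (x : X) (h : x ∈ cyl u) : P := ⟨cyl u, op_cyl u, x, h⟩

/-- The intersection of two conditions. -/
def capP (U : P) (V : Set X) (hV : Op V) (h : (U.1 ∩ V).Nonempty) : P :=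
  ⟨U.1 ∩ V, U.2.1.inter hV, h⟩

/-- The image. -/
def im (g : G) (O : Set X) : Set X := pb g ⁻¹' O

theorem mem_im {g : G} {O : Set X} {x : X} : x ∈ im g O ↔ pb g x ∈ O := Iff.rfl

theorem op_im (g : G) {O : Set X} (h : Op O) : Op (im g O) := op_pb g h

/-- The action on the conditions. -/
def mv (g : G) (U : P) : P :=
  ⟨im g U.1, op_im g U.2.1, by
    obtain ⟨x, hx⟩ := U.2.2
    refine ⟨pb g⁻¹ x, ?_⟩
    rw [mem_im, pb_inv]
    exact hx⟩

theorem mv_inv_mv (g : G) (U : P) : mv g (mv g⁻¹ U) = U := by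
  refine Subtype.ext (Set.ext fun x => ?_)
  change pb g⁻¹ (pb g x) ∈ U.1 ↔ _
  rw [pb_inv']

/-- The action. -/
def acH : G →* (P ≃o P) where
  toFun g :=
    { toFun := mv g
      invFun := mv g⁻¹
      left_inv := by
        intro U
        refine Subtype.ext (Set.ext fun x => ?_)
        change pb g (pb g⁻¹ x) ∈ U.1 ↔ x ∈ U.1
        rw [pb_inv]
      right_inv := mv_inv_mv g
      map_rel_iff' := by
        intro U V
        constructor
        · intro h x hx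
          have h1 : pb g⁻¹ x ∈ (mv g U).1 := by
            change pb g (pb g⁻¹ x) ∈ U.1
            rw [pb_inv]
            exact hx
          have h2 := h h1
          change pb g (pb g⁻¹ x) ∈ V.1 at h2
          rwa [pb_inv] at h2
        · exact fun h x hx => h hx }
  map_one' := by
    ext U
    rfl
  map_mul' := by
    intro g h
    ext U
    rfl

/-- The stabilizer of the blocks in `S` and of the indices in `E`. -/
def fixE (S : Finset ℕ) (E : Finset K) : Subgroup G where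
  carrier := {g | (∀ i ∈ S, bl g i = i) ∧ ∀ a ∈ E, g.1 a = a}
  mul_mem' := by
    rintro g h ⟨h1, h2⟩ ⟨h3, h4⟩
    refine ⟨fun i hi => ?_, fun a ha => ?_⟩
    · rw [bl_mul, h3 i hi, h1 i hi]
    · change g.1 (h.1 a) = a
      rw [h4 a ha, h2 a ha]
  one_mem' := ⟨fun i _ => rfl, fun a _ => rfl⟩
  inv_mem' := by
    rintro g ⟨h1, h2⟩
    refine ⟨fun i hi => ?_, fun a ha => ?_⟩
    · have h3 : bl (g⁻¹ * g) i = i := by
        rw [inv_mul_cancel]
        rfl
      rw [bl_mul, h1 i hi] at h3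
      exact h3
    · change g.1.symm a = a
      rw [Equiv.symm_apply_eq, h2 a ha]

theorem fixE_mono {S S' : Finset ℕ} {E E' : Finset K} (hS : S ⊆ S') (hE : E ⊆ E') {g : G}
    (h : g ∈ fixE S' E') : g ∈ fixE S E :=
  ⟨fun i hi => h.1 i (hS hi), fun a ha => h.2 a (hE ha)⟩

open Classical in
/-- The symmetric system. -/
def sys : Sys P where
  G := G
  grp := inferInstance
  ac := acH
  top := fun g => Subtype.ext rfl
  F := {H | ∃ S E, H = fixE S E}
  ne := ⟨_, ⟨∅, ∅, rfl⟩⟩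
  conj := by
    rintro _ ⟨S, E, rfl⟩ g
    refine ⟨_, ⟨S.image (bl g), E.image g.1, rfl⟩, fun k hk => ⟨fun i hi => ?_, fun a ha => ?_⟩⟩
    · have h1 := hk.1 (bl g i) (Finset.mem_image_of_mem _ hi)
      rw [bl_mul, bl_mul, h1, ← bl_mul, inv_mul_cancel]
      rfl
    · have h1 := hk.2 (g.1 a) (Finset.mem_image_of_mem _ ha)
      change g.1.symm (k.1 (g.1 a)) = a
      rw [h1, Equiv.symm_apply_apply]
  dir := by
    rintro _ ⟨S, E, rfl⟩ _ ⟨S', E', rfl⟩
    exact ⟨_, ⟨S ∪ S', E ∪ E', rfl⟩,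
      fun ρ hρ => fixE_mono Finset.subset_union_left Finset.subset_union_left hρ,
      fun ρ hρ => fixE_mono Finset.subset_union_right Finset.subset_union_right hρ⟩

theorem ac_apply (g : G) (U : P) : sys.ac g U = mv g U := rfl

/-! ### Names -/

/-- The name for the set of the `z i` such that the generic point is in `O i`. -/
def fN (ι : Type) (z : ι → PName P) (O : ι → Set X) : PName P :=
  PName.mk {t : ι × P // t.2.1 ⊆ O t.1} (fun t => z t.1.1) (fun t => t.1.2)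

theorem el_fN {ι : Type} {z : ι → PName P} {O : ι → Set X} {y : PName P} {c : P} :
    El (fN ι z O) y c ↔ ∃ i, c.1 ⊆ O i ∧ y = z i := by
  rw [fN, el_mk]
  constructor
  · rintro ⟨⟨⟨i, c⟩, h⟩, rfl, rfl⟩
    exact ⟨i, h, rfl⟩
  · rintro ⟨i, h, rfl⟩
    exact ⟨⟨⟨i, c⟩, h⟩, rfl, rfl⟩

theorem el_act_fN {g : G} {ι : Type} {z : ι → PName P} {O : ι → Set X} {y : PName P} {c : P} :
    El (act (sys.ac g) (fN ι z O)) y c ↔
      El (fN ι (fun i => act (sys.ac g) (z i)) (fun i => im g (O i))) y c := by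
  rw [el_act, el_fN]
  constructor
  · rintro ⟨y', c', h, rfl, rfl⟩
    obtain ⟨i, h1, rfl⟩ := el_fN.1 h
    exact ⟨i, fun x hx => h1 hx, rfl⟩
  · rintro ⟨i, h, rfl⟩
    refine ⟨z i, mv g⁻¹ c, el_fN.2 ⟨i, fun x hx => ?_, rfl⟩, rfl, (mv_inv_mv g c).symm⟩
    have h1 := h hx
    rw [mem_im, pb_inv] at h1
    exact h1

theorem feq_fN {ι : Type} {z z' : ι → PName P} {O O' : ι → Set X} {p : P}
    (hz : ∀ i, Feq (z i) (z' i) p) (hO : ∀ i, ∀ x ∈ p.1, (x ∈ O i ↔ x ∈ O' i)) :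
    Feq (fN ι z O) (fN ι z' O') p := by
  rw [feq_iff']
  constructor
  · intro a c ha q hq hqc
    obtain ⟨i, h, rfl⟩ := el_fN.1 ha
    exact ⟨q, le_rfl, z' i, q, el_fN.2 ⟨i, fun x hx => (hO i x (hq hx)).1 (h (hqc hx)), rfl⟩,
      le_rfl, (hz i).mono hq⟩
  · intro a c ha q hq hqc
    obtain ⟨i, h, rfl⟩ := el_fN.1 ha
    exact ⟨q, le_rfl, z i, q, el_fN.2 ⟨i, fun x hx => (hO i x (hq hx)).2 (h (hqc hx)), rfl⟩,
      le_rfl, (hz i).mono hq⟩

theorem fix_check (H : Subgroup sys.G) (x : ZFSet.{0}) : sys.Fix H (check x) := by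
  intro g _ p
  rw [act_check (sys.top g)]
  exact Feq.refl _ _

/-! ### Boolean values -/

/-- The points with a neighbourhood that forces `z ∈ b`. -/
def BV (z b : PName P) : Set X := {x | ∃ U : P, x ∈ U.1 ∧ Fmem z b U}

theorem op_BV (z b : PName P) : Op (BV z b) := by
  rintro x ⟨U, hx, hU⟩
  obtain ⟨u, hu, hu'⟩ := U.2.1 x hx
  exact ⟨u, hu, fun y hy => ⟨U, hu' hy, hU⟩⟩

theorem fmem_of_sub {z b : PName P} {U : P} (h : U.1 ⊆ BV z b) : Fmem z b U := by
  refine fmem_dense fun q hq => ?_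
  obtain ⟨x, hx⟩ := q.2.2
  obtain ⟨V, hV, hV'⟩ := h (hq hx)
  exact ⟨capP q V.1 V.2.1 ⟨x, hx, hV⟩, fun _ hy => hy.1, hV'.mono fun _ hy => hy.2⟩

theorem sub_of_fmem {z b : PName P} {U : P} (h : Fmem z b U) : U.1 ⊆ BV z b :=
  fun _ hx => ⟨U, hx, h⟩

theorem BV_act (g : G) (z b : PName P) :
    BV (act (sys.ac g) z) (act (sys.ac g) b) = im g (BV z b) := by
  ext x
  constructor
  · rintro ⟨U, hx, hU⟩
    refine ⟨mv g⁻¹ U, ?_, ?_⟩
    · change pb g⁻¹ (pb g x) ∈ U.1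
      rw [pb_inv']
      exact hx
    · rw [← mv_inv_mv g U] at hU
      exact (fmem_act (e := sys.ac g)).1 hU
  · rintro ⟨U, hx, hU⟩
    exact ⟨mv g U, hx, fmem_act' (e := sys.ac g) hU⟩

theorem BV_congr {z b z' b' : PName P} (hz : ∀ p, Feq z z' p) (hb : ∀ p, Feq b b' p) :
    BV z b = BV z' b' := by
  ext x
  exact ⟨fun ⟨U, hx, hU⟩ => ⟨U, hx, fmem_congr (hz U) (hb U) hU⟩,
    fun ⟨U, hx, hU⟩ => ⟨U, hx, fmem_congr (hz U).symm (hb U).symm hU⟩⟩

/-- The points with a neighbourhood that forces `z = b`. -/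
def BE (z b : PName P) : Set X := {x | ∃ U : P, x ∈ U.1 ∧ Feq z b U}

theorem op_BE (z b : PName P) : Op (BE z b) := by
  rintro x ⟨U, hx, hU⟩
  obtain ⟨u, hu, hu'⟩ := U.2.1 x hx
  exact ⟨u, hu, fun y hy => ⟨U, hu' hy, hU⟩⟩

theorem feq_of_sub {z b : PName P} {U : P} (h : U.1 ⊆ BE z b) : Feq z b U := by
  refine feq_dense fun q hq => ?_
  obtain ⟨x, hx⟩ := q.2.2
  obtain ⟨V, hV, hV'⟩ := h (hq hx)
  exact ⟨capP q V.1 V.2.1 ⟨x, hx, hV⟩, fun _ hy => hy.1, hV'.mono fun _ hy => hy.2⟩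

theorem sub_of_feq {z b : PName P} {U : P} (h : Feq z b U) : U.1 ⊆ BE z b :=
  fun _ hx => ⟨U, hx, h⟩

theorem BE_act (g : G) (z b : PName P) :
    BE (act (sys.ac g) z) (act (sys.ac g) b) = im g (BE z b) := by
  ext x
  constructor
  · rintro ⟨U, hx, hU⟩
    refine ⟨mv g⁻¹ U, ?_, ?_⟩
    · change pb g⁻¹ (pb g x) ∈ U.1
      rw [pb_inv']
      exact hx
    · rw [← mv_inv_mv g U] at hU
      exact (feq_act (e := sys.ac g)).1 hU
  · rintro ⟨U, hx, hU⟩
    exact ⟨mv g U, hx, feq_act' (e := sys.ac g) hU⟩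

theorem BE_congr {z b z' b' : PName P} (hz : ∀ p, Feq z z' p) (hb : ∀ p, Feq b b' p) :
    BE z b = BE z' b' := by
  ext x
  exact ⟨fun ⟨U, hx, hU⟩ => ⟨U, hx, feq_trans (hz U).symm (feq_trans hU (hb U))⟩,
    fun ⟨U, hx, hU⟩ => ⟨U, hx, feq_trans (hz U) (feq_trans hU (hb U).symm)⟩⟩

/-! ### The generic point -/

/-- `x` is the generic point of the package. -/
def Gpt (π : Pkg P) (x : X) : Prop := ∀ O, Op O → (x ∈ O ↔ ∃ k, (π.g k).1 ⊆ O)

theorem val_fN {π : Pkg P} {x : X} (hx : Gpt π x) {ι : Type} {z : ι → PName P} {O : ι → Set X}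
    (hz : ∀ i, z i ∈ π.N) (hO : ∀ i, Op (O i)) {w : ZFSet.{0}} :
    w ∈ π.val (fN ι z O) ↔ ∃ i, x ∈ O i ∧ w = π.val (z i) := by
  rw [π.mem_val]
  constructor
  · rintro ⟨y, hy, c, hc, ⟨n, hn⟩, rfl⟩
    obtain ⟨i, h, rfl⟩ := el_fN.1 hc
    exact ⟨i, (hx _ (hO i)).2 ⟨n, fun y hy => h (hn hy)⟩, rfl⟩
  · rintro ⟨i, h, rfl⟩
    obtain ⟨k, hk⟩ := (hx _ (hO i)).1 h
    exact ⟨z i, hz i, π.g k, el_fN.2 ⟨i, hk, rfl⟩, ⟨k, le_rfl⟩, rfl⟩

theorem val_mem {π : Pkg P} {x : X} (hx : Gpt π x) {z b : PName P} (hz : z ∈ π.N) (hb : b ∈ π.N) :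
    π.val z ∈ π.val b ↔ x ∈ BV z b := by
  rw [π.val_mem_iff hz hb, hx _ (op_BV z b)]
  exact ⟨fun ⟨n, hn⟩ => ⟨n, sub_of_fmem hn⟩, fun ⟨n, hn⟩ => ⟨n, fmem_of_sub hn⟩⟩

theorem val_eq {π : Pkg P} {x : X} (hx : Gpt π x) {z b : PName P} (hz : z ∈ π.N) (hb : b ∈ π.N) :
    π.val z = π.val b ↔ x ∈ BE z b := by
  rw [π.val_eq_iff hz hb, hx _ (op_BE z b)]
  exact ⟨fun ⟨n, hn⟩ => ⟨n, sub_of_feq hn⟩, fun ⟨n, hn⟩ => ⟨n, feq_of_sub hn⟩⟩

/-! ### Existence of the generic point -/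

/-- Conditions below an open set. -/
def dn (O : Set X) : Set P := {p | p.1 ⊆ O}

/-- The conditions below a basic condition below `p`. -/
def eB (p : P) : Set P := {r | ∃ u, r.1 ⊆ cyl u ∧ cyl u ⊆ p.1}

/-- The rule for the basic conditions. -/
def rB : Rule P := fun q => (Sys.nm P (eB q.p), q.p)

/-- The rule for an operation. -/
def rl (f : PName P → PName P) : Rule P := fun q => match q with
  | ⟨_, .mem s _, v, p⟩ => (f (tv v s), p)
  | q => (emp, q.p)

/-- The coordinate has the value `b`. -/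
def Co (a : K) (k : ℕ) (b : Bool) : Set X := {x | x a k = b}

theorem op_Co (a : K) (k : ℕ) (b : Bool) : Op (Co a k b) := by
  intro x hx
  refine ⟨{(a, k, b)}, fun c hc => ?_, fun y hy => hy (a, k, b) (Finset.mem_singleton_self _)⟩
  rw [Finset.mem_singleton.1 hc]
  exact hx

/-- The real `a` satisfies the condition `s`. -/
def Sa (a : K) (s : Finset (ℕ × Bool)) : Set X := {x | ∀ c ∈ s, x a c.1 = c.2}

theorem op_Sa (a : K) (s : Finset (ℕ × Bool)) : Op (Sa a s) := by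
  classical
  intro x hx
  refine ⟨s.image fun c => (a, c.1, c.2), fun c hc => ?_, fun y hy c hc => ?_⟩
  · obtain ⟨d, hd, rfl⟩ := Finset.mem_image.1 hc
    exact hx d hd
  · exact hy (a, c.1, c.2) (Finset.mem_image_of_mem _ hc)

/-- The dense sets. -/
def Dn (i : ℕ) (s : Finset (ℕ × Bool)) (k : ℕ) : Set X := ⋃ j : {j // k ≤ j}, Sa (i, j.1) s

theorem op_Dn (i : ℕ) (s : Finset (ℕ × Bool)) (k : ℕ) : Op (Dn i s k) :=
  op_iUnion fun _ => op_Sa _ _

theorem dns_Dn (i : ℕ) (s : Finset (ℕ × Bool)) (k : ℕ) {r : ℕ → Bool} (hr : ∀ c ∈ s, r c.1 = c.2)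
    {U : Set X} (hU : Op U) (hne : U.Nonempty) : (U ∩ Dn i s k).Nonempty := by
  classical
  obtain ⟨x, hx⟩ := hne
  obtain ⟨u, hu, hu'⟩ := hU x hx
  obtain ⟨M, hM⟩ := (u.image fun c => c.1.2).finite_toSet.bddAbove
  refine ⟨fun a => if a = (i, k + M + 1) then r else x a, hu' fun c hc => ?_,
    Set.mem_iUnion.2 ⟨⟨k + M + 1, by omega⟩, fun c hc => ?_⟩⟩
  · have h1 := hM (Finset.mem_coe.2 (Finset.mem_image_of_mem (fun c => c.1.2) hc))
    change (if c.1 = (i, k + M + 1) then r else x c.1) c.2.1 = _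
    rw [if_neg fun h => ?_]
    · exact hu c hc
    · have h2 : c.1.2 = k + M + 1 := by rw [h]
      have h3 : c.1.2 ≤ M := h1
      omega
  · change (if ((i, k + M + 1) : K) = (i, k + M + 1) then r else x (i, k + M + 1)) c.1 = c.2
    rw [if_pos rfl]
    exact hr c hc

/-- Two reals are different. -/
def Df (a b : K) : Set X := {x | ∃ n, x a n ≠ x b n}

theorem op_Df (a b : K) : Op (Df a b) := by
  rintro x ⟨n, hn⟩
  refine ⟨{(a, n, x a n), (b, n, x b n)}, fun c hc => ?_, fun y hy => ⟨n, ?_⟩⟩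
  · rw [Finset.mem_insert, Finset.mem_singleton] at hc
    rcases hc with rfl | rfl <;> rfl
  · have h1 := hy (a, n, x a n) (Finset.mem_insert_self _ _)
    have h2 := hy (b, n, x b n) (Finset.mem_insert_of_mem (Finset.mem_singleton_self _))
    change y a n = x a n at h1
    change y b n = x b n at h2
    rw [h1, h2]
    exact hn

theorem dns_Df {a b : K} (hab : a ≠ b) {U : Set X} (hU : Op U) (hne : U.Nonempty) :
    (U ∩ Df a b).Nonempty := by
  classical
  obtain ⟨x, hx⟩ := hne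
  obtain ⟨u, hu, hu'⟩ := hU x hx
  obtain ⟨M, hM⟩ := (u.image fun c => c.2.1).finite_toSet.bddAbove
  refine ⟨fun c n => if n = M + 1 then decide (c = a) else x c n, hu' fun c hc => ?_, M + 1, ?_⟩
  · have h1 := hM (Finset.mem_coe.2 (Finset.mem_image_of_mem (fun c => c.2.1) hc))
    change (if c.2.1 = M + 1 then decide (c.1 = a) else x c.1 c.2.1) = _
    have h3 : c.2.1 ≤ M := h1
    rw [if_neg (by omega)]
    exact hu c hc
  · change (if M + 1 = M + 1 then decide (a = a) else x a (M + 1)) ≠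
      (if M + 1 = M + 1 then decide (b = a) else x b (M + 1))
    rw [if_pos rfl, if_pos rfl]
    simp [hab.symm]

section

variable {π : Pkg P}

/-- The open set contains a condition of the generic sequence. -/
def Tr (π : Pkg P) (O : Set X) : Prop := ∃ k, (π.g k).1 ⊆ O

theorem Tr.mono {O O' : Set X} (h : Tr π O) (hO : O ⊆ O') : Tr π O' := by
  obtain ⟨k, hk⟩ := h
  exact ⟨k, hk.trans hO⟩

theorem Tr.inter {O O' : Set X} (h : Tr π O) (h' : Tr π O') : Tr π (O ∩ O') := by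
  obtain ⟨k, hk⟩ := h
  obtain ⟨m, hm⟩ := h'
  exact ⟨max k m, fun x hx => ⟨hk (π.g_le_left k m hx), hm (π.g_le_right k m hx)⟩⟩

theorem Tr.ne {O : Set X} (h : Tr π O) : O.Nonempty := by
  obtain ⟨k, hk⟩ := h
  exact (π.g k).2.2.mono hk

theorem tr_dec {O : Set X} (hN : Sys.nm P (dn O) ∈ π.N) (hO : Op O) :
    Tr π O ∨ ∃ k, (π.g k).1 ∩ O = ∅ := by
  obtain ⟨k, h | h⟩ := T_TRU.gen_nm π hN fun r hr s hs => (le_sub hs).trans hr
  · exact Or.inl ⟨k, h⟩
  · refine Or.inr ⟨k, Set.not_nonempty_iff_eq_empty.1 fun hne => ?_⟩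
    exact h (capP (π.g k) O hO hne) (fun _ hx => hx.1) (fun _ hx => hx.2)

theorem exists_point (hC : ∀ (n : K) (k : ℕ), Sys.nm P (dn (Co n k true)) ∈ π.N)
    (hB : ∀ k, Sys.nm P (eB (π.g k)) ∈ π.N) : ∃ x, Gpt π x := by
  classical
  have hv : ∀ (n : K) (k : ℕ), ∃ v, ∀ b, Tr π (Co n k b) ↔ v = b := by
    intro n k
    rcases tr_dec (hC n k) (op_Co n k true) with h | ⟨m, hm⟩
    · refine ⟨true, fun b => ?_⟩
      cases b with
      | true => exact iff_of_true h rfl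
      | false =>
        refine iff_of_false (fun h1 => ?_) (by simp)
        obtain ⟨x, hx1, hx2⟩ := (h.inter h1).ne
        have h2 : x n k = true := hx1
        have h3 : x n k = false := hx2
        rw [h2] at h3
        cases h3
    · have hF : Tr π (Co n k false) := by
        refine ⟨m, fun x hx => ?_⟩
        have h0 : x n k ≠ true := fun h => by
          have h1 : x ∈ (π.g m).1 ∩ Co n k true := ⟨hx, h⟩
          rw [hm] at h1
          exact h1
        exact (Bool.not_eq_true _).mp h0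
      refine ⟨false, fun b => ?_⟩
      cases b with
      | false => exact iff_of_true hF rfl
      | true =>
        refine iff_of_false (fun h1 => ?_) (by simp)
        obtain ⟨x, hx1, hx2⟩ := (hF.inter h1).ne
        have h2 : x n k = false := hx1
        have h3 : x n k = true := hx2
        rw [h2] at h3
        cases h3
  choose v hv using hv
  have hcyl : ∀ u : Bc, Tr π (cyl u) ↔ v ∈ cyl u := by
    intro u
    constructor
    · intro h c hc
      exact (hv c.1 c.2.1 c.2.2).1 (h.mono fun y hy => hy c hc)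
    · intro h
      have key : ∀ w : Bc, w ⊆ u → Tr π (cyl w) := by
        intro w
        induction w using Finset.induction_on with
        | empty =>
          intro _
          exact ⟨0, by rw [cyl_empty]; exact Set.subset_univ _⟩
        | insert c w _ ih =>
          intro hw
          have h1 := ih ((Finset.subset_insert _ _).trans hw)
          have h2 : Tr π (Co c.1 c.2.1 c.2.2) :=
            (hv c.1 c.2.1 c.2.2).2 (h c (hw (Finset.mem_insert_self _ _)))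
          refine (h1.inter h2).mono ?_
          rintro y ⟨hy1, hy2⟩ d hd
          rcases Finset.mem_insert.1 hd with rfl | hd
          · exact hy2
          · exact hy1 d hd
      exact key u subset_rfl
  refine ⟨v, fun O hO => ⟨fun hx => ?_, ?_⟩⟩
  · obtain ⟨u, hu, hu'⟩ := hO _ hx
    exact ((hcyl u).2 hu).mono hu'
  · rintro ⟨k, hk⟩
    obtain ⟨m, h | h⟩ := T_TRU.gen_nm π (hB k) fun r ⟨u, h1, h2⟩ s hs =>
      ⟨u, (le_sub hs).trans h1, h2⟩
    · obtain ⟨u, h1, h2⟩ := h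
      exact hk (h2 ((hcyl u).1 ⟨m, h1⟩))
    · exfalso
      obtain ⟨y, hy⟩ := (π.g (max m k)).2.2
      obtain ⟨u, hu, hu'⟩ := (π.g (max m k)).2.1 y hy
      exact h (pc u y hu) (hu'.trans (π.g_le_left m k)) ⟨u, subset_rfl, hu'.trans (π.g_le_right m k)⟩

end

end Pool.Agent.R602.RC
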