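import Mathlib

/-!
# A homogeneous structure: choice of 8 elements from every larger finite set
-/

set_option autoImplicit false

namespace Pool.Agent.R602.RC

/-- `F` chooses 8 elements from each finite set with more than 8 elements. -/
def Valid (F : Finset ℕ → Finset ℕ) : Prop :=
  ∀ Y, (8 < Y.card → F Y ⊆ Y ∧ (F Y).card = 8) ∧ (Y.card ≤ 8 → F Y = ∅)

theorem Valid.sub {F : Finset ℕ → Finset ℕ} (hF : Valid F) (Y : Finset ℕ) : F Y ⊆ Y := by
  rcases lt_or_ge 8 Y.card with h | h
  · exact ((hF Y).1 h).1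
  · rw [(hF Y).2 h]
    exact Finset.empty_subset _

/-- The value `W` at `Y` is coded by the maximum `b` of `Y`. -/
def Coded (Y W : Finset ℕ) : Prop :=
  ∃ b ∈ Y, (∀ y ∈ Y, y ≤ b) ∧ ∃ l : List (Finset ℕ × Finset ℕ × Bool),
    Encodable.decode (b.unpair.1) = some l ∧ (Y.erase b, W.erase b, decide (b ∈ W)) ∈ l

open Classical in
/-- The structure. -/
noncomputable def F (Y : Finset ℕ) : Finset ℕ :=
  if 8 < Y.card then
    if h : ∃ W, W ⊆ Y ∧ W.card = 8 ∧ Coded Y W then h.choose
    else if h : ∃ W, W ⊆ Y ∧ W.card = 8 then h.choose else ∅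
  else ∅

theorem valid_F : Valid F := by
  intro Y
  constructor
  · intro hY
    unfold F
    rw [if_pos hY]
    have h2 : ∃ W, W ⊆ Y ∧ W.card = 8 := Finset.exists_subset_card_eq hY.le
    by_cases h : ∃ W, W ⊆ Y ∧ W.card = 8 ∧ Coded Y W
    · rw [dif_pos h]
      exact ⟨h.choose_spec.1, h.choose_spec.2.1⟩
    · rw [dif_neg h, dif_pos h2]
      exact h2.choose_spec
  · intro hY
    unfold F
    rw [if_neg (by omega)]

theorem ep (S : Finset ℕ) (V : Finset ℕ → Finset ℕ) (c : Finset ℕ → Bool)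
    (hV : ∀ Y ⊆ S, 8 ≤ Y.card → V Y ⊆ Y ∧ (V Y).card + (if c Y then 1 else 0) = 8) :
    ∃ b, (∀ s ∈ S, s < b) ∧ ∀ Y ⊆ S, 8 ≤ Y.card →
      F (insert b Y) = if c Y then insert b (V Y) else V Y := by
  classical
  let l : List (Finset ℕ × Finset ℕ × Bool) := S.powerset.toList.map fun Y => (Y, V Y, c Y)
  let b := Nat.pair (Encodable.encode l) (S.sup id + 1)
  have hb : ∀ s ∈ S, s < b := by
    intro s hs
    have h1 : s ≤ S.sup id := Finset.le_sup (f := id) hs
    have h2 : S.sup id + 1 ≤ b := Nat.right_le_pair _ _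
    omega
  refine ⟨b, hb, fun Y hY h8 => ?_⟩
  have hbY : b ∉ Y := fun h => (hb b (hY h)).false
  obtain ⟨h1, h2⟩ := hV Y hY h8
  have hbV : b ∉ V Y := fun h => hbY (h1 h)
  set W : Finset ℕ := if c Y then insert b (V Y) else V Y with hW
  have hcard : (insert b Y).card = Y.card + 1 := Finset.card_insert_of_notMem hbY
  have hmem : ∀ Z, (∀ y ∈ insert b Y, y ≤ Z) → Z ∈ insert b Y → Z = b := by
    intro Z h3 h4
    rcases Finset.mem_insert.1 h4 with h5 | h5
    · exact h5
    · have h6 := h3 b (Finset.mem_insert_self _ _)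
      have h7 := hb Z (hY h5)
      omega
  have hdec : Encodable.decode (b.unpair.1) = some l := by
    change Encodable.decode (Nat.unpair (Nat.pair (Encodable.encode l) (S.sup id + 1))).1 = _
    rw [Nat.unpair_pair]
    exact Encodable.encodek l
  have hbW : decide (b ∈ W) = c Y := by
    rw [hW]
    cases hc : c Y
    · simpa using hbV
    · simp
  have hWe : W.erase b = V Y := by
    rw [hW]
    cases hc : c Y
    · simp only [Bool.false_eq_true, if_false]
      exact Finset.erase_eq_of_notMem hbV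
    · simp only [if_true]
      exact Finset.erase_insert hbV
  have hWs : W ⊆ insert b Y := by
    rw [hW]
    cases hc : c Y
    · simp only [Bool.false_eq_true, if_false]
      exact h1.trans (Finset.subset_insert _ _)
    · simp only [if_true]
      exact Finset.insert_subset_insert _ h1
  have hWc : W.card = 8 := by
    rw [hW]
    cases hc : c Y
    · rw [hc] at h2
      simpa using h2
    · rw [hc] at h2
      simp only [if_true] at h2 ⊢
      rw [Finset.card_insert_of_notMem hbV]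
      exact h2
  have hex : ∃ W, W ⊆ insert b Y ∧ W.card = 8 ∧ Coded (insert b Y) W := by
    refine ⟨W, hWs, hWc, b, Finset.mem_insert_self _ _, fun y hy => ?_, l, hdec, ?_⟩
    · rcases Finset.mem_insert.1 hy with rfl | hy
      · exact le_rfl
      · exact (hb y (hY hy)).le
    · rw [Finset.erase_insert hbY, hWe, hbW]
      exact List.mem_map.2 ⟨Y, Finset.mem_toList.2 (Finset.mem_powerset.2 hY), rfl⟩
  have hF : F (insert b Y) = hex.choose := by
    unfold F
    rw [if_pos (by omega), dif_pos hex]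
  rw [hF]
  obtain ⟨h3, h4, b', hb', hmax, l', hl', hm⟩ := hex.choose_spec
  have e1 := hmem b' hmax hb'
  subst e1
  have e2 : l' = l := Option.some.inj (hl'.symm.trans hdec)
  subst e2
  rw [Finset.erase_insert hbY] at hm
  obtain ⟨Y', -, e3⟩ := List.mem_map.1 hm
  obtain ⟨rfl, e4⟩ := Prod.mk.inj e3
  obtain ⟨e5, e6⟩ := Prod.mk.inj e4
  ext y
  by_cases hy : y = b
  · subst hy
    have h5 : decide (b ∈ hex.choose) = decide (b ∈ W) := by rw [← e6, hbW]
    exact decide_eq_decide.1 h5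
  · have h5 : y ∈ hex.choose.erase b ↔ y ∈ W.erase b := by rw [← e5, hWe]
    rw [Finset.mem_erase, Finset.mem_erase] at h5
    exact ⟨fun h => (h5.1 ⟨hy, h⟩).2, fun h => (h5.2 ⟨hy, h⟩).2⟩

/-- One step of an embedding. -/
theorem step {F' : Finset ℕ → Finset ℕ} (hF' : Valid F') {S : Finset ℕ} {g : Equiv.Perm ℕ}
    (h : ∀ Y ⊆ S, F (Y.image g) = (F' Y).image g) {a : ℕ} (ha : a ∉ S) :
    ∃ g' : Equiv.Perm ℕ, (∀ s ∈ S, g' s = g s) ∧
      ∀ Y ⊆ insert a S, F (Y.image g') = (F' Y).image g' := by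
  classical
  let bk : Finset ℕ → Finset ℕ := fun Y => Y.image g.symm
  have hbk : ∀ Y, (bk Y).image g = Y := fun Y => by
    change (Y.image g.symm).image g = Y
    rw [Finset.image_image]
    have e : (g ∘ g.symm : ℕ → ℕ) = id := by
      funext x
      exact g.apply_symm_apply x
    rw [e, Finset.image_id]
  have hbk' : ∀ Y, bk (Y.image g) = Y := fun Y => by
    change (Y.image g).image g.symm = Y
    rw [Finset.image_image]
    have e : (g.symm ∘ g : ℕ → ℕ) = id := by
      funext x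
      exact g.symm_apply_apply x
    rw [e, Finset.image_id]
  have hci : ∀ (k : Equiv.Perm ℕ) (Y : Finset ℕ), (Y.image k).card = Y.card := fun k Y =>
    Finset.card_image_of_injective _ k.injective
  obtain ⟨b, hb1, hb2⟩ := ep (S.image g) (fun Y => ((F' (insert a (bk Y))).erase a).image g)
    (fun Y => decide (a ∈ F' (insert a (bk Y)))) (by
      intro Y hY h8
      have h1 : bk Y ⊆ S := by
        intro x hx
        obtain ⟨y, hy, rfl⟩ := Finset.mem_image.1 hx
        obtain ⟨s, hs, rfl⟩ := Finset.mem_image.1 (hY hy)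
        rwa [g.symm_apply_apply]
      have h2 : (insert a (bk Y)).card = Y.card + 1 := by
        rw [Finset.card_insert_of_notMem fun h => ha (h1 h)]
        exact congrArg (· + 1) (hci g.symm Y)
      obtain ⟨h3, h4⟩ := (hF' (insert a (bk Y))).1 (by omega)
      constructor
      · intro x hx
        obtain ⟨y, hy, rfl⟩ := Finset.mem_image.1 hx
        obtain ⟨hy1, hy2⟩ := Finset.mem_erase.1 hy
        rcases Finset.mem_insert.1 (h3 hy2) with h5 | h5
        · exact absurd h5 hy1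
        · rw [← hbk Y]
          exact Finset.mem_image_of_mem _ h5
      · simp only [decide_eq_true_eq]
        rw [hci]
        by_cases h5 : a ∈ F' (insert a (bk Y))
        · rw [if_pos h5, Finset.card_erase_of_mem h5, h4]
        · rw [if_neg h5, Finset.erase_eq_of_notMem h5, h4])
  have hbS : b ∉ S.image g := fun h => (hb1 b h).false
  have hga : ∀ s ∈ S, g s ≠ g a := fun s hs e => ha ((g.injective e) ▸ hs)
  have hgb : ∀ s ∈ S, g s ≠ b := fun s hs e => hbS (e ▸ Finset.mem_image_of_mem _ hs)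
  have hg' : ∀ s ∈ S, (Equiv.swap (g a) b * g) s = g s := fun s hs =>
    Equiv.swap_apply_of_ne_of_ne (hga s hs) (hgb s hs)
  have hga' : (Equiv.swap (g a) b * g) a = b := Equiv.swap_apply_left _ _
  have himg : ∀ Y ⊆ S, Y.image (Equiv.swap (g a) b * g : Equiv.Perm ℕ) = Y.image g := fun Y hY =>
    Finset.image_congr fun s hs => hg' s (hY (Finset.mem_coe.1 hs))
  refine ⟨Equiv.swap (g a) b * g, hg', fun Y hY => ?_⟩
  by_cases haY : a ∈ Y
  · have hY0 : Y.erase a ⊆ S := by
      intro y hy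
      obtain ⟨hy1, hy2⟩ := Finset.mem_erase.1 hy
      exact (Finset.mem_insert.1 (hY hy2)).resolve_left hy1
    have hYi : insert a (Y.erase a) = Y := Finset.insert_erase haY
    have e1 : Y.image (Equiv.swap (g a) b * g : Equiv.Perm ℕ) = insert b ((Y.erase a).image g) := by
      conv_lhs => rw [← hYi]
      rw [Finset.image_insert, hga', himg _ hY0]
    rcases Nat.lt_or_ge 8 Y.card with h8 | h8
    · have hc : ((Y.erase a).image g).card = Y.card - 1 := by
        rw [hci, Finset.card_erase_of_mem haY]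
      have h1 := hb2 ((Y.erase a).image g) (Finset.image_subset_image hY0) (by omega)
      have h2 : insert a (bk ((Y.erase a).image g)) = Y := by rw [hbk', hYi]
      simp only [h2, decide_eq_true_eq] at h1
      rw [e1, h1]
      have hFs : (F' Y).erase a ⊆ S := (Finset.erase_subset_erase a (hF'.sub Y)).trans hY0
      by_cases h3 : a ∈ F' Y
      · rw [if_pos h3]
        conv_rhs => rw [← Finset.insert_erase h3]
        rw [Finset.image_insert, hga', himg _ hFs]
      · rw [if_neg h3, Finset.erase_eq_of_notMem h3]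
        rw [Finset.erase_eq_of_notMem h3] at hFs
        rw [himg _ hFs]
    · rw [(hF' Y).2 h8, Finset.image_empty]
      exact (valid_F _).2 (by rw [hci]; exact h8)
  · have hYS : Y ⊆ S := fun y hy => (Finset.mem_insert.1 (hY hy)).resolve_left fun e => haY (e ▸ hy)
    rw [himg Y hYS, himg _ ((hF'.sub Y).trans hYS)]
    exact h Y hYS

/-- An embedding over `S`. -/
theorem emb {F' : Finset ℕ → Finset ℕ} (hF' : Valid F') {S : Finset ℕ}
    (h : ∀ Y ⊆ S, F' Y = F Y) (Z : Finset ℕ) : ∃ g : Equiv.Perm ℕ, (∀ s ∈ S, g s = s) ∧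
      ∀ Y ⊆ S ∪ Z, F (Y.image g) = (F' Y).image g := by
  classical
  induction Z using Finset.induction_on with
  | empty =>
    refine ⟨1, fun _ _ => rfl, fun Y hY => ?_⟩
    rw [Finset.union_empty] at hY
    rw [h Y hY]
    simp
  | insert a Z _ ih =>
    obtain ⟨g, h1, h2⟩ := ih
    by_cases ha : a ∈ S ∪ Z
    · refine ⟨g, h1, fun Y hY => h2 Y ?_⟩
      rwa [Finset.union_insert, Finset.insert_eq_of_mem ha] at hY
    · obtain ⟨g', h3, h4⟩ := step hF' h2 ha
      refine ⟨g', fun s hs => ?_, fun Y hY => h4 Y ?_⟩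
      · rw [h3 s (Finset.mem_union_left _ hs), h1 s hs]
      · rwa [Finset.union_insert] at hY

/-! ### Automorphisms -/

/-- The permutation `g` preserves the structure on `S`. -/
def PI (g : Equiv.Perm ℕ) (S : Finset ℕ) : Prop := ∀ Y ⊆ S, F (Y.image g) = (F Y).image g

theorem image_symm (g : Equiv.Perm ℕ) (Y : Finset ℕ) : (Y.image g).image g.symm = Y := by
  rw [Finset.image_image]
  have e : (g.symm ∘ g : ℕ → ℕ) = id := by
    funext x
    exact g.symm_apply_apply x
  rw [e, Finset.image_id]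

theorem symm_image (g : Equiv.Perm ℕ) (Y : Finset ℕ) : (Y.image g.symm).image g = Y :=
  image_symm g.symm Y

theorem image_mul (g h : Equiv.Perm ℕ) (Y : Finset ℕ) : Y.image (g * h : Equiv.Perm ℕ) =
    (Y.image h).image g := by
  rw [Finset.image_image]
  rfl

theorem PI.symm {g : Equiv.Perm ℕ} {S : Finset ℕ} (h : PI g S) : PI g.symm (S.image g) := by
  intro Y hY
  have h1 : Y.image g.symm ⊆ S := by
    rw [← image_symm g S]
    exact Finset.image_subset_image hY
  have h2 := h _ h1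
  rw [symm_image] at h2
  rw [h2, image_symm]

theorem PI.both {g : Equiv.Perm ℕ} {S : Finset ℕ} (h : PI g S) (n : ℕ) :
    ∃ (g' : Equiv.Perm ℕ) (S' : Finset ℕ), S ⊆ S' ∧ n ∈ S' ∧ n ∈ S'.image g' ∧
      (∀ s ∈ S, g' s = g s) ∧ PI g' S' := by
  classical
  obtain ⟨g1, S1, h1, h2, h3, h4⟩ : ∃ (g' : Equiv.Perm ℕ) (S' : Finset ℕ), S ⊆ S' ∧ n ∈ S' ∧
      (∀ s ∈ S, g' s = g s) ∧ PI g' S' := by
    by_cases hn : n ∈ S
    · exact ⟨g, S, subset_rfl, hn, fun _ _ => rfl, h⟩
    · obtain ⟨g', h1, h2⟩ := step valid_F h hn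
      exact ⟨g', insert n S, Finset.subset_insert _ _, Finset.mem_insert_self _ _, h1, h2⟩
  by_cases hn : n ∈ S1.image g1
  · exact ⟨g1, S1, h1, h2, hn, h3, h4⟩
  · obtain ⟨k, h5, h6⟩ := step valid_F h4.symm hn
    have h7 : PI k (insert n (S1.image g1)) := h6
    have h8 : ∀ s ∈ S1, k.symm s = g1 s := by
      intro s hs
      rw [Equiv.symm_apply_eq, h5 _ (Finset.mem_image_of_mem _ hs), Equiv.symm_apply_apply]
    refine ⟨k.symm, (insert n (S1.image g1)).image k, fun s hs => ?_, ?_, ?_, fun s hs => ?_,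
      h7.symm⟩
    · refine Finset.mem_image.2 ⟨g1 s, Finset.mem_insert_of_mem (Finset.mem_image_of_mem _
        (h1 hs)), ?_⟩
      rw [← h8 s (h1 hs), Equiv.apply_symm_apply]
    · refine Finset.mem_image.2 ⟨g1 n, Finset.mem_insert_of_mem (Finset.mem_image_of_mem _ h2), ?_⟩
      rw [← h8 n h2, Equiv.apply_symm_apply]
    · rw [image_symm]
      exact Finset.mem_insert_self _ _
    · rw [h8 s (h1 hs), h3 s hs]

theorem hom {g : Equiv.Perm ℕ} {S : Finset ℕ} (h : PI g S) : ∃ τ : Equiv.Perm ℕ,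
    (∀ Y : Finset ℕ, F (Y.image τ) = (F Y).image τ) ∧ ∀ s ∈ S, τ s = g s := by
  classical
  let St := {t : Equiv.Perm ℕ × Finset ℕ // PI t.1 t.2}
  have hne : ∀ (t : St) (n : ℕ), ∃ t' : St, t.1.2 ⊆ t'.1.2 ∧ n ∈ t'.1.2 ∧ n ∈ t'.1.2.image t'.1.1 ∧
      ∀ s ∈ t.1.2, t'.1.1 s = t.1.1 s := by
    rintro ⟨⟨g, S⟩, h⟩ n
    obtain ⟨g', S', h1, h2, h3, h4, h5⟩ := PI.both h n
    exact ⟨⟨(g', S'), h5⟩, h1, h2, h3, h4⟩
  choose nx hnx using hne
  let sq : ℕ → St := fun n => Nat.rec ⟨(g, S), h⟩ (fun n t => nx t n) n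
  have hsq : ∀ n, sq (n + 1) = nx (sq n) n := fun n => rfl
  have hmono : ∀ n m, n ≤ m → (sq n).1.2 ⊆ (sq m).1.2 ∧ ∀ s ∈ (sq n).1.2, (sq m).1.1 s = (sq n).1.1 s := by
    intro n m hnm
    induction m, hnm using Nat.le_induction with
    | base => exact ⟨subset_rfl, fun _ _ => rfl⟩
    | succ m _ ih =>
      rw [hsq]
      obtain ⟨h1, -, -, h2⟩ := hnx (sq m) m
      exact ⟨ih.1.trans h1, fun s hs => by rw [h2 s (ih.1 hs), ih.2 s hs]⟩
  have hin : ∀ n, n ∈ (sq (n + 1)).1.2 := fun n => (hnx (sq n) n).2.1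
  have hout : ∀ n, n ∈ (sq (n + 1)).1.2.image (sq (n + 1)).1.1 := fun n => (hnx (sq n) n).2.2.1
  let f : ℕ → ℕ := fun n => (sq (n + 1)).1.1 n
  have hf : ∀ n m, n ∈ (sq m).1.2 → (sq m).1.1 n = f n := by
    intro n m hm
    rcases le_total m (n + 1) with h1 | h1
    · exact ((hmono _ _ h1).2 n hm).symm
    · exact (hmono _ _ h1).2 n (hin n)
  have hinj : Function.Injective f := by
    intro a b hab
    have h1 : a ∈ (sq (max (a + 1) (b + 1))).1.2 := (hmono _ _ (le_max_left _ _)).1 (hin a)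
    have h2 : b ∈ (sq (max (a + 1) (b + 1))).1.2 := (hmono _ _ (le_max_right _ _)).1 (hin b)
    rw [← hf a _ h1, ← hf b _ h2] at hab
    exact (sq _).1.1.injective hab
  have hsur : Function.Surjective f := by
    intro b
    obtain ⟨a, ha, hb⟩ := Finset.mem_image.1 (hout b)
    exact ⟨a, (hf a (b + 1) ha).symm.trans hb⟩
  refine ⟨Equiv.ofBijective f ⟨hinj, hsur⟩, fun Y => ?_, fun s hs => ?_⟩
  · have h1 : Y ⊆ (sq (Y.sup id + 1)).1.2 := fun y hy =>
      (hmono (y + 1) _ (Nat.succ_le_succ (Finset.le_sup (f := id) hy))).1 (hin y)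
    have h2 : ∀ y ∈ Y, (sq (Y.sup id + 1)).1.1 y = f y := fun y hy =>
      hf y (Y.sup id + 1) (h1 hy)
    have h3 : Y.image (Equiv.ofBijective f ⟨hinj, hsur⟩) = Y.image (sq (Y.sup id + 1)).1.1 :=
      Finset.image_congr fun y hy => (h2 y (Finset.mem_coe.1 hy)).symm
    have h4 : (F Y).image (Equiv.ofBijective f ⟨hinj, hsur⟩) =
        (F Y).image (sq (Y.sup id + 1)).1.1 :=
      Finset.image_congr fun y hy => (h2 y (valid_F.sub Y (Finset.mem_coe.1 hy))).symm
    rw [h3, h4]
    exact (sq (Y.sup id + 1)).2 Y h1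
  · exact (hf s 0 hs).symm

/-- The group of the automorphisms. -/
def T : Subgroup (Equiv.Perm ℕ) where
  carrier := {τ | ∀ Y : Finset ℕ, F (Y.image τ) = (F Y).image τ}
  mul_mem' := by
    intro a b ha hb Y
    rw [image_mul, ha, hb, image_mul]
  one_mem' := by
    intro Y
    simp
  inv_mem' := by
    intro a ha Y
    have h1 := ha (Y.image a.symm)
    rw [symm_image] at h1
    change F (Y.image a.symm) = (F Y).image a.symm
    rw [h1, image_symm]

theorem mem_T {τ : Equiv.Perm ℕ} : τ ∈ T ↔ ∀ Y : Finset ℕ, F (Y.image τ) = (F Y).image τ := Iff.rfl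

end Pool.Agent.R602.RC
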